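import Mathlib
import Pool.Agent.J4H16.Nice2
import Pool.Agent.J4H16.Gap

/-!
# Project AS (thin postcritical sets): definitions and job statements

Goal: for `n ≥ 3` (later `n ≥ 2`), if the postcritical set of `z ^ n + c` has Assouad dimension
less than one then `c` is in the closure of the hyperbolic parameters.
-/

set_option autoImplicit false
open Set Filter Topology Metric Complex MeasureTheory
open scoped ComplexConjugate

namespace Pool.Agent.J4H16.AS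

open Pool.Agent.J4H16 Pool.Agent.W746.LD

/-- Assouad packing bound: every `ε`-separated subset of `S ∩ B(a, R)`, `0 < ε ≤ R ≤ 1`, has at
most `C * (R / ε) ^ s` points. -/
def Thin (S : Set ℂ) (C s : ℝ) : Prop :=
  ∀ (a : ℂ) (R ε : ℝ), 0 < ε → ε ≤ R → R ≤ 1 → ∀ F : Finset ℂ,
    (∀ p ∈ F, p ∈ S ∧ ‖p - a‖ < R) → (∀ p ∈ F, ∀ q ∈ F, p ≠ q → ε ≤ ‖p - q‖) →
      (F.card : ℝ) ≤ C * (R / ε) ^ s

/-- Packing bound on bounded sets. -/
def Pack (L : Set ℂ) (s : ℝ) : Prop :=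
  ∀ R : ℝ, 0 < R → ∃ C : ℝ, 0 < C ∧ ∀ ε : ℝ, 0 < ε → ε ≤ 1 → ∀ F : Finset ℂ,
    (∀ p ∈ F, p ∈ L ∧ ‖p‖ < R) → (∀ p ∈ F, ∀ q ∈ F, p ≠ q → ε ≤ ‖p - q‖) →
      (F.card : ℝ) ≤ C * (1 / ε) ^ s

/-- The limit of the sets `S / s j` along an ultrafilter. -/
def Lim (U : Ultrafilter ℕ) (s : ℕ → ℝ) (S : Set ℂ) : Set ℂ :=
  {Z | ∀ d : ℝ, 0 < d → ∀ᶠ j in (U : Filter ℕ), ∃ p ∈ S, ‖p - s j * Z‖ < s j * d}

/-- A scaled branch: `G` is defined on `ball Z d`, and `f^m (G W) = s W`; the point `x` is at a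
distance at most `M |G' Z|` from `G Z`. -/
structure SB (n : ℕ) (c x : ℂ) (s : ℝ) (m : ℕ) (Z : ℂ) (d M : ℝ) (G : ℂ → ℂ) : Prop where
  diff : DifferentiableOn ℂ G (ball Z d)
  eq : ∀ W ∈ ball Z d, orb n c (G W) m = s * W
  cone : ‖G Z - x‖ ≤ M * ‖deriv G Z‖

/-- the open strip of half width `δ` -/
def strip (δ : ℝ) : Set ℂ := {w | |w.re| < δ}

/-! ## Jobs -/

/-- GAPD. Thin sets have round gaps about every centre, at every small scale.
Proof: divide `[2t, 4t]` into `N` equal parts; if every annulus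
`2t(1 + i/N) < |p - a| < 2t(1 + (i+1)/N)` contained a point of `S`, every second one would give
about `N/2` points which are `2t/N`-separated in `ball a (4t)`, against `Thin` for large `N`
(as `s < 1`). Take `η = 2t(1 + i/N)` for a free annulus, `ε0 = 1/(2N)`. -/
def S_GAPD : Prop := ∀ (S : Set ℂ) (C s : ℝ), 0 < s → s < 1 → Thin S C s →
  ∃ ε0 : ℝ, 0 < ε0 ∧ ε0 ≤ 1 ∧ ∀ (a : ℂ) (t : ℝ), 0 < t → 8 * t ≤ 1 →
    ∃ η : ℝ, 2 * t ≤ η ∧ η ≤ 4 * t ∧ ∀ p ∈ S, ¬ (η < ‖p - a‖ ∧ ‖p - a‖ < (1 + ε0) * η)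

/-- PACK. The limit set of a thin set is closed and has the packing bound.
Proof of the packing bound: given a finite separated `F ⊆ Lim`, for `U`-most `j` every `Z ∈ F` has
`p_Z ∈ S` with `‖p_Z - s j Z‖ < s j ε / 4`; these are `s j ε / 2`-separated in
`ball 0 (s j (R + 1))`. -/
def S_PACK : Prop := ∀ (U : Ultrafilter ℕ) (σ : ℕ → ℝ) (S : Set ℂ) (C s : ℝ), 0 < s → s < 1 →
  Thin S C s → (∀ j, 0 < σ j) → Tendsto σ U (𝓝 0) →
    IsClosed (Lim U σ S) ∧ Pack (Lim U σ S) s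

/-- NULL. Lipschitz images in the line of a set with the packing bound, `s < 1`, are null.
Proof: a maximal `ε`-separated subset of `L ∩ ball 0 R` has at most `C (1/ε)^s` points, so the
image of `L ∩ ball 0 R` is covered by so many intervals of length `2ε`. -/
def S_NULL : Prop := ∀ (L : Set ℂ) (s : ℝ), 0 < s → s < 1 → Pack L s →
  ∀ f : ℂ → ℝ, LipschitzWith 1 f → volume (f '' L) = 0

/-- INT. The inverse distance to a closed set with the packing bound, `s < 1`, is locally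
integrable. Proof: `{z ∈ ball 0 R : dist < 2^-k}` is covered by `C 2^(ks)` balls of radius
`2 * 2^-k`, so its area is at most `C' 2^(-k(2 - s))`; sum `2^(k+1)` times these over `k`. -/
def S_INT : Prop := ∀ (L : Set ℂ) (s : ℝ), 0 < s → s < 1 → IsClosed L → L.Nonempty → Pack L s →
  volume L = 0 ∧ ∀ R : ℝ, IntegrableOn (fun z => (infDist z L)⁻¹) (ball 0 R)

/-- CONN. The complement in a convex open set of a closed set whose Lipschitz images in the line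
are null is connected. Proof: for `Z, Z'` in `V \ L` with small balls in `V \ L`, and the unit
vector `u` orthogonal to `Z' - Z`, for almost every small `t` the segment `[Z + tu, Z' + tu]` is
disjoint from `L` (project `L` orthogonally to the direction of `u`). -/
def S_CONN : Prop := ∀ L : Set ℂ, IsClosed L →
  (∀ f : ℂ → ℝ, LipschitzWith 1 f → volume (f '' L) = 0) →
  ∀ V : Set ℂ, IsOpen V → Convex ℝ V → IsPreconnected (V \ L)

/-- HOPF (Hopf's trick for periodic curves). Proof: for `s ∈ [0, 2π]` let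
`K θ s = I * ∫ t in 0..1, H' (I (θ + t s))`, so `s * K θ s = H (I(θ+s)) - H (I θ)`; `K` is
continuous, `C^1` in `θ`, `2π`-periodic in `θ`, and never zero (at `s = 0` as `H' ≠ 0`, for
`0 < s < 2π` by `hinj`, at `s = 2π` as `b ≠ 0`). So `∫ θ in 0..2π, ∂_θ K / K` is in `2πiℤ` and
continuous in `s`, hence constant; it is `0` for `s = 2π`, and for `s = 0` it is `I` times the
integral below. -/
def S_HOPF : Prop := ∀ (H : ℂ → ℂ) (δ : ℝ) (b : ℂ), 0 < δ → b ≠ 0 →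
  DifferentiableOn ℂ H (strip δ) →
  (∀ w ∈ strip δ, H (w + 2 * Real.pi * I) = H w + b) →
  (∀ w ∈ strip δ, deriv H w ≠ 0) →
  (∀ θ s : ℝ, 0 < s → s < 2 * Real.pi → H (I * (θ + s : ℝ)) ≠ H (I * (θ : ℝ))) →
  ∫ θ in (0 : ℝ)..2 * Real.pi, deriv (deriv H) (I * (θ : ℝ)) / deriv H (I * (θ : ℝ)) = 0

/-- POT (superadditivity of the index). `N` is holomorphic on the open set `Om`, integrable on
`ball 0 R`; for every centre almost all circles in `ball 0 R` are in `Om` and `N` has an integral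
`-2πi ι`, `ι ≥ 0`, over them. Then the index over a large circle is at least the sum of the
indices over two circles with disjoint discs inside.
Proof: let `χ` be a smooth radial decreasing mollifier supported in `ball 0 ε`, `∫ χ = 1`. In
polar coordinates about `a`, `ψ a := ∫ z, N z * (∂̄χ)(z - a) ≥ 0` by the hypothesis on the circles
about `a` (for `χ z = κ(|z|²)`: `∂̄χ z = κ'(|z|²) z`, `κ' ≤ 0`). For `b, r` one of the three
circles take the radial cutoff `φ_b` (1 inside, 0 outside, varying only in the collar). By parts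
and Fubini `∫ φ_b ψ = ∫ N z * (χ * ∂̄φ_b)(z) = ∫ (N * χ)(a) ∂̄φ_b a = ∫ N ∂̄φ_b = π I_b`, by the
mean value property of `N` in the collar (`ε` small) and polar coordinates about `b`. Finally
`φ_0 ≥ φ_1 + φ_2` and `ψ ≥ 0`. -/
def S_POT : Prop := ∀ (N : ℂ → ℂ) (Om : Set ℂ) (R : ℝ), IsOpen Om → DifferentiableOn ℂ N Om →
  IntegrableOn N (ball 0 R) →
  (∀ a : ℂ, ‖a‖ < R → ∀ᵐ r : ℝ, 0 < r → r < R - ‖a‖ →
    sphere a r ⊆ Om ∧ ∃ ι : ℝ, 0 ≤ ι ∧ (∮ z in C(a, r), N z) = -(2 * Real.pi * I * ι)) →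
  ∀ (b1 b2 : ℂ) (r0 r1 r2 δ i0 i1 i2 : ℝ), 0 < δ → δ < r0 → δ < r1 → δ < r2 → r0 + δ < R →
    ‖b1‖ + r1 + δ < r0 - δ → ‖b2‖ + r2 + δ < r0 - δ → r1 + r2 + 2 * δ < ‖b1 - b2‖ →
    (∀ z : ℂ, r0 - δ ≤ ‖z‖ → ‖z‖ ≤ r0 + δ → z ∈ Om) →
    (∀ z : ℂ, r1 - δ ≤ ‖z - b1‖ → ‖z - b1‖ ≤ r1 + δ → z ∈ Om) →
    (∀ z : ℂ, r2 - δ ≤ ‖z - b2‖ → ‖z - b2‖ ≤ r2 + δ → z ∈ Om) →
    (∮ z in C(0, r0), N z) = -(2 * Real.pi * I * i0) →
    (∮ z in C(b1, r1), N z) = -(2 * Real.pi * I * i1) →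
    (∮ z in C(b2, r2), N z) = -(2 * Real.pi * I * i2) →
    i1 + i2 ≤ i0

/-- LIFT. Lifts by an iterate of a map of a convex domain into the complement of the postcritical
set. Proof: induction on `m` (one step: an `n`-th root of `h - c`, which has no zero on `V` since
`h w = c` gives `E w = f^j c ∈ PC`); or `Polynomial.isCoveringMapOn_eval`. -/
def S_LIFT : Prop := ∀ (n : ℕ) (c : ℂ) (m : ℕ) (V : Set ℂ) (E : ℂ → ℂ) (w0 y : ℂ), 2 ≤ n →
  IsOpen V → Convex ℝ V → w0 ∈ V → DifferentiableOn ℂ E V → (∀ w ∈ V, E w ∉ PC n c) →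
  orb n c y m = E w0 →
  ∃ H : ℂ → ℂ, DifferentiableOn ℂ H V ∧ H w0 = y ∧ ∀ w ∈ V, orb n c (H w) m = E w

/-- UNIQ. Uniqueness of lifts over the complement of the postcritical set. -/
def S_UNIQ : Prop := ∀ (n : ℕ) (c : ℂ) (m : ℕ) (V : Set ℂ) (E H1 H2 : ℂ → ℂ) (w0 : ℂ), 2 ≤ n →
  IsOpen V → IsPreconnected V → w0 ∈ V → (∀ w ∈ V, E w ∉ PC n c) →
  DifferentiableOn ℂ H1 V → DifferentiableOn ℂ H2 V →
  (∀ w ∈ V, orb n c (H1 w) m = E w) → (∀ w ∈ V, orb n c (H2 w) m = E w) → H1 w0 = H2 w0 →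
  ∀ w ∈ V, H1 w = H2 w

/-- ROT. The lift of the exponential parametrization of a free annulus either extends to the disc
or is rotated by `exp (2πi/n)` around the critical point at some time `k < m`.
Proof: `exists_lf` for `φ ζ = a + ρ(1+δ)ζ` along the orbit of `H 0`, `ζ0 = 1/(1+δ)` (generalise it
to `φ` affine or use it as it is: `φ` is univalent). If all lifts avoid `c` there is a full lift
`h`, and `H w = h (e^w/(1+δ))` by UNIQ. Otherwise there are `j < m` and a lift `h` by `f^j` with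
`h ζ0 = f^(m-j) (H 0)` and `h v = c` for some `v ∈ ball 0 1`; then `φ v = f^j c ∈ PC`, so
`|v| ≤ (1-δ)/(1+δ)`. With `k = m - j - 1` and `T w = f^k (H w)`: `T^n + c = f^(k+1) (H w) =
h (e^w/(1+δ))` by UNIQ, and `h ζ - c = (ζ - v) e^(l ζ)` on the disc (`h` is univalent), so
`T w = const * exp ((w + log(1 - v(1+δ)e^(-w)) + l(e^w/(1+δ)))/n)`. -/
def S_ROT : Prop := ∀ (n : ℕ) (c a : ℂ) (ρ δ : ℝ) (m : ℕ) (H : ℂ → ℂ), 2 ≤ n → 0 < ρ → 0 < δ →
  δ < 1 → (∀ p ∈ PC n c, ¬ (ρ * (1 - δ) < ‖p - a‖ ∧ ‖p - a‖ < ρ * (1 + δ))) →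
  DifferentiableOn ℂ H (strip (Real.log (1 + δ))) →
  (∀ w ∈ strip (Real.log (1 + δ)), orb n c (H w) m = a + ρ * exp w) →
  (∃ h, Lf n c m (fun ζ => a + ρ * (1 + δ) * ζ) h ∧
    ∀ w ∈ strip (Real.log (1 + δ)), H w = h (exp w / (1 + δ))) ∨
  (∃ k < m, ∀ w ∈ strip (Real.log (1 + δ)), orb n c (H w) k ≠ 0 ∧
    orb n c (H (w + 2 * Real.pi * I)) k = exp (2 * Real.pi * I / n) * orb n c (H w) k)

/-- MONT. Montel's theorem along an ultrafilter. Proof: locally equi-Lipschitz by Cauchy's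
estimates; the pointwise limits along the ultrafilter exist by compactness; finite nets of small
balls make the convergence locally uniform; `TendstoLocallyUniformlyOn.differentiableOn`. -/
def S_MONT : Prop := ∀ (U : Ultrafilter ℕ) (F : ℕ → ℂ → ℂ) (V : Set ℂ), IsOpen V →
  (∀ᶠ j in (U : Filter ℕ), DifferentiableOn ℂ (F j) V) →
  (∀ K ⊆ V, IsCompact K → ∃ B : ℝ, ∀ᶠ j in (U : Filter ℕ), ∀ z ∈ K, ‖F j z‖ ≤ B) →
  ∃ G : ℂ → ℂ, DifferentiableOn ℂ G V ∧ TendstoLocallyUniformlyOn F G (U : Filter ℕ) V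

/-- SM. Scaled branches of small scale have small derivatives. Proof: suppose `|G' Z| ≥ ε`. By
Koebe `ball (G Z) (c0 d ε) ⊆ G '' ball Z d` is mapped by `f^m` into `ball 0 (s(B + d))`. If
`ball (G Z) (c0 d ε / 2)` meets `K` this contradicts `Q.nn` for small `s`. If not, `G Z` is in the
compact set `{|y| ≤ 3, infDist y K ≥ c0 d ε / 2}`; its points escape in a bounded number of steps,
and `f^i y ≠ 0` on it (as `0 ∈ K`), so `|f^m (G Z)| = s |Z|` is bounded below. -/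
def S_SM : Prop := ∀ (n : ℕ) (c : ℂ) (r : ℝ), Q n c r → Dense (K n c)ᶜ →
  ∀ (x : ℂ) (B d M ε : ℝ), 0 < d → 0 < ε → ∃ s0 : ℝ, 0 < s0 ∧
    ∀ (s : ℝ) (m : ℕ) (Z : ℂ) (G : ℂ → ℂ), 0 < s → s ≤ s0 → ‖Z‖ ≤ B → SB n c x s m Z d M G →
      ‖deriv G Z‖ < ε

/-- ENTRY. Good base times at every small scale. Write `z i = orb n c x i`. Let `l1` be the first
time with `|z l1| < ρ` (it exists: `GP.zero_acc`, its hypothesis `HypII` follows from GAPD).
(a) If there is a branch through `x` on `ball (z l1) (κρ)`, take `l = l1`. (b) Otherwise let `t` be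
the supremum of the radii `≤ κρ` with a branch through `x` (positive as `z i ≠ 0`). Take
`η ∈ [2t, 4t]` from GAPD at `a = z l1`; the disc `φ ζ = z l1 + (1+ε0)η ζ` does not lift along `x`,
so (`exists_lf`) there are `i < l1` and a lift `h` by `f^i` with `h 0 = z (k+1)`, `k = l1 - i - 1`,
and `h v = c`, `v ∈ ball 0 1`; `φ v ∈ PC`, so `|v| ≤ 1/(1+ε0)`; and `|v| ≥ 1/8` as the branch on
`ball (z l1) (t/2)` (or any radius `< t`) has no critical value. By Koebe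
`c1 |h' 0| ≤ |h 0 - h v| = |z k|^n ≤ C1 |h' 0|`, and the branch on `ball (z l1) (t/2)` composed
with `f^(l1-k)` is a branch `Br n c k (z k) (κ1 |z k|)` through `x`; `|z k| ≥ ρ` as `k < l1`.
`|z k| ≤ C ρ`: otherwise `f^(l1-k)` maps `ball 0 (c2|z k|)` into `ball 0 (2ρ)`, far inside, which
gives an attracting cycle (`attr_per`, excluded by `Q.na`). Take `l = k`. -/
def S_ENTRY : Prop := ∀ (n : ℕ) (c : ℂ) (r : ℝ) (ν : ℂ → ℂ) (A : ℝ) (x : ℂ) (C s : ℝ),
  Q n c r → Dense (K n c)ᶜ → Inv n c ν A → GP n c ν x → 0 < s → s < 1 → Thin (PC n c) C s →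
  ∃ C1 κ ρ0 : ℝ, 0 < C1 ∧ 0 < κ ∧ 0 < ρ0 ∧ ∀ ρ : ℝ, 0 < ρ → ρ ≤ ρ0 →
    ∃ (l : ℕ) (g : ℂ → ℂ), Br n c l (orb n c x l) (κ * ρ) g ∧ g (orb n c x l) = x ∧
      ‖orb n c x l‖ ≤ C1 * ρ ∧ ∀ i < l, ρ ≤ ‖orb n c x i‖

end Pool.Agent.J4H16.AS
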