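import Mathlib
import Pool.Agent.J4H16.AS.Defs

/-!
# Scaled branches: near reality and independence of the logarithmic derivative
-/

set_option autoImplicit false
open Set Filter Topology Metric Complex MeasureTheory
open scoped ComplexConjugate

namespace Pool.Agent.J4H16.AS

open Pool.Agent.J4H16 Pool.Agent.W746.LD

variable {n : ℕ} {c x : ℂ} {r : ℝ} {ν : ℂ → ℂ} {A : ℝ} {s : ℝ} {m : ℕ} {Z : ℂ} {d M : ℝ}
  {G : ℂ → ℂ}

theorem SB.injOn (h : SB n c x s m Z d M G) (hs : 0 < s) : InjOn G (ball Z d) := by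
  intro a ha b hb hab
  have h1 := h.eq a ha
  have h2 := h.eq b hb
  rw [hab, h2] at h1
  have hs' : (s : ℂ) ≠ 0 := by exact_mod_cast hs.ne'
  exact (mul_left_cancel₀ hs' h1).symm

theorem SB.univ (h : SB n c x s m Z d M G) (hs : 0 < s) : Univ G Z d := ⟨h.diff, h.injOn hs⟩

theorem SB.deriv_ne (h : SB n c x s m Z d M G) (hs : 0 < s) {W : ℂ} (hW : W ∈ ball Z d) :
    deriv G W ≠ 0 :=
  Pool.Agent.Helper202.Univ.deriv_ne_zero isOpen_ball h.diff (h.injOn hs) hW

theorem SB.hasDerivAt (h : SB n c x s m Z d M G) {W : ℂ} (hW : W ∈ ball Z d) :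
    HasDerivAt G (deriv G W) W :=
  (h.diff.differentiableAt (isOpen_ball.mem_nhds hW)).hasDerivAt

theorem SB.br (h : SB n c x s m Z d M G) (hs : 0 < s) :
    Br n c m (s * Z) (s * d) (fun w => G (w / s)) := by
  have hs' : (s : ℂ) ≠ 0 := by exact_mod_cast hs.ne'
  have hm : ∀ w ∈ ball ((s : ℂ) * Z) (s * d), w / s ∈ ball Z d := by
    intro w hw
    rw [mem_ball, dist_eq_norm] at hw ⊢
    have e : w / s - Z = (w - s * Z) / s := by field_simp
    rw [e, norm_div, Complex.norm_real, Real.norm_of_nonneg hs.le, div_lt_iff₀ hs]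
    linarith
  constructor
  · apply h.diff.comp (differentiableOn_id.div_const _) hm
  · intro w hw
    rw [h.eq _ (hm w hw)]
    field_simp

theorem SB.of_br {g : ℂ → ℂ} (hs : 0 < s) (hg : Br n c m (s * Z) (s * d) g) (hd : 0 < d)
    (hcone : ‖g (s * Z) - x‖ ≤ M * (s * ‖deriv g (s * Z)‖)) :
    SB n c x s m Z d M (fun W => g (s * W)) := by
  have hm : ∀ W ∈ ball Z d, (s : ℂ) * W ∈ ball ((s : ℂ) * Z) (s * d) := by
    intro W hW
    rw [mem_ball, dist_eq_norm] at hW ⊢
    rw [← mul_sub, norm_mul, Complex.norm_real, Real.norm_of_nonneg hs.le]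
    gcongr
  have hder : deriv (fun W => g (s * W)) Z = s * deriv g (s * Z) := by
    have h1 : HasDerivAt g (deriv g (s * Z)) (s * Z) :=
      hg.hasDerivAt (mem_ball_self (by positivity))
    have h2 : HasDerivAt (fun W : ℂ => (s : ℂ) * W) s Z := by
      simpa using (hasDerivAt_id Z).const_mul (s : ℂ)
    have h3 := h1.comp Z h2
    rw [mul_comm] at h3
    exact h3.deriv
  refine ⟨hg.diff.comp ((differentiableOn_id).const_mul _) hm, fun W hW => hg.eq _ (hm W hW), ?_⟩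
  rw [hder, norm_mul, Complex.norm_real, Real.norm_of_nonneg hs.le]
  exact hcone

theorem SB.mono (h : SB n c x s m Z d M G) {d' M' : ℝ} (hd : d' ≤ d) (hM : M ≤ M') :
    SB n c x s m Z d' M' G :=
  ⟨h.diff.mono (ball_subset_ball hd), fun W hW => h.eq W (ball_subset_ball hd hW),
    h.cone.trans (by gcongr)⟩

theorem SB.move {C0 c0 : ℝ} (K : KC C0 c0) (h : SB n c x s m Z d M G) (hs : 0 < s) (hd : 0 < d)
    (hM : 0 ≤ M) {W : ℂ} (hW : ‖W - Z‖ ≤ d / 4) : SB n c x s m W (3 * d / 4) (C0 ^ 2 * (M + d)) G := by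
  have hC0 := K.one_le
  have hsub : ball W (3 * d / 4) ⊆ ball Z d := by
    apply ball_subset_ball'
    rw [dist_eq_norm]
    linarith
  refine ⟨h.diff.mono hsub, fun W' hW' => h.eq W' (hsub hW'), ?_⟩
  have h1 := K.lip hd (h.univ hs) hW
  have h2 := (K.kdist G Z d hd (h.univ hs) W hW).2
  calc ‖G W - x‖ = ‖(G W - G Z) + (G Z - x)‖ := by congr 1; ring
    _ ≤ ‖G W - G Z‖ + ‖G Z - x‖ := norm_add_le _ _
    _ ≤ C0 * ‖deriv G Z‖ * ‖W - Z‖ + M * ‖deriv G Z‖ := add_le_add h1 h.cone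
    _ ≤ C0 * ‖deriv G Z‖ * d + C0 * M * ‖deriv G Z‖ := by
        gcongr
        · linarith
        · nlinarith
    _ = C0 * (M + d) * ‖deriv G Z‖ := by ring
    _ ≤ C0 * (M + d) * (C0 * ‖deriv G W‖) := by gcongr
    _ = C0 ^ 2 * (M + d) * ‖deriv G W‖ := by ring

/-- Bound of the logarithmic derivative. -/
theorem KC.logd {C0 c0 : ℝ} (K : KC C0 c0) {φ : ℂ → ℂ} (hd : 0 < d) (hu : Univ φ Z d) :
    ‖deriv (deriv φ) Z / deriv φ Z‖ ≤ 8 * C0 / d := by
  have hC0 := K.one_le
  have hne : deriv φ Z ≠ 0 :=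
    Pool.Agent.Helper202.Univ.deriv_ne_zero isOpen_ball hu.1 hu.2 (mem_ball_self hd)
  have hdp := norm_pos_iff.mpr hne
  have hdiff : DifferentiableOn ℂ (deriv φ) (ball Z d) := hu.1.deriv isOpen_ball
  have hsub : closedBall Z (d / 8) ⊆ ball Z d := closedBall_subset_ball (by linarith)
  have h1 : ‖deriv (deriv φ) Z‖ ≤ C0 * ‖deriv φ Z‖ / (d / 8) := by
    apply norm_deriv_le_of_forall_mem_sphere_norm_le (by positivity)
    · exact (hdiff.mono (hsub)).diffContOnCl_ball le_rfl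
    · intro z hz
      rw [mem_sphere, dist_eq_norm] at hz
      exact (K.kdist φ Z d hd hu z (by linarith)).1
  rw [norm_div, div_le_div_iff₀ hdp hd]
  calc ‖deriv (deriv φ) Z‖ * d ≤ C0 * ‖deriv φ Z‖ / (d / 8) * d := by gcongr
    _ = 8 * C0 * ‖deriv φ Z‖ := by field_simp

/-- A holomorphic function with small imaginary part has a small derivative. -/
theorem small_im {F : ℂ → ℂ} {η ρ : ℝ} (hη : 0 < η) (hρ : 0 < ρ)
    (hF : DifferentiableOn ℂ F (ball Z ρ)) (hI : ∀ W ∈ ball Z ρ, |(F W).im| ≤ η) :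
    ‖deriv F Z‖ ≤ 16 * η / ρ := by
  set g : ℂ → ℂ := fun W => Complex.exp (I * F W / η) with hg
  have hsub : closedBall Z (ρ / 2) ⊆ ball Z ρ := closedBall_subset_ball (by linarith)
  have hηC : (η : ℂ) ≠ 0 := by exact_mod_cast hη.ne'
  have hgd : DifferentiableOn ℂ g (ball Z ρ) := ((hF.const_mul I).div_const _).cexp
  have hZ : Z ∈ ball Z ρ := mem_ball_self hρ
  have hre : ∀ W, (I * F W / η).re = -(F W).im / η := by
    intro W
    rw [Complex.div_ofReal_re]
    simp
  have h1 : ‖deriv g Z‖ ≤ Real.exp 1 / (ρ / 2) := by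
    apply norm_deriv_le_of_forall_mem_sphere_norm_le (by positivity)
    · exact (hgd.mono hsub).diffContOnCl_ball le_rfl
    · intro W hW
      have hW' : W ∈ ball Z ρ := hsub (sphere_subset_closedBall hW)
      simp only [hg]
      rw [Complex.norm_exp, hre]
      apply Real.exp_le_exp.mpr
      rw [div_le_one hη]
      have := abs_le.mp (hI W hW')
      linarith
  have h2 : deriv g Z = g Z * (I * deriv F Z / η) := by
    have h3 : HasDerivAt F (deriv F Z) Z :=
      (hF.differentiableAt (isOpen_ball.mem_nhds hZ)).hasDerivAt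
    exact ((h3.const_mul I).div_const (η : ℂ)).cexp.deriv
  have h3 : Real.exp (-1) ≤ ‖g Z‖ := by
    simp only [hg]
    rw [Complex.norm_exp, hre]
    apply Real.exp_le_exp.mpr
    rw [le_div_iff₀ hη]
    have := abs_le.mp (hI Z hZ)
    linarith
  rw [h2, norm_mul, norm_div, norm_mul, Complex.norm_I, one_mul, Complex.norm_real,
    Real.norm_of_nonneg hη.le] at h1
  have h4 : Real.exp (-1) * (‖deriv F Z‖ / η) ≤ Real.exp 1 / (ρ / 2) :=
    (mul_le_mul_of_nonneg_right h3 (by positivity)).trans h1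
  have he : Real.exp 1 * Real.exp 1 < 8 := by
    have := Real.exp_one_lt_d9
    have h0 := Real.exp_pos 1
    nlinarith
  have h5 : Real.exp 1 * Real.exp (-1) = 1 := by rw [← Real.exp_add]; simp
  have h6 : ‖deriv F Z‖ / η ≤ 8 / (ρ / 2) := by
    calc ‖deriv F Z‖ / η = Real.exp 1 * Real.exp (-1) * (‖deriv F Z‖ / η) := by rw [h5, one_mul]
      _ = Real.exp 1 * (Real.exp (-1) * (‖deriv F Z‖ / η)) := by ring
      _ ≤ Real.exp 1 * (Real.exp 1 / (ρ / 2)) := by gcongr
      _ = Real.exp 1 * Real.exp 1 / (ρ / 2) := by ring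
      _ ≤ 8 / (ρ / 2) := by gcongr
  rw [div_le_div_iff₀ hη (by positivity)] at h6
  rw [le_div_iff₀ hρ]
  linarith

end Pool.Agent.J4H16.AS
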