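import Mathlib
import Pool.Agent.J4H16.AS.SB

/-!
# Near reality of the ratio of two branches
-/

set_option autoImplicit false
open Set Filter Topology Metric Complex MeasureTheory
open scoped ComplexConjugate

namespace Pool.Agent.J4H16.AS

open Pool.Agent.J4H16 Pool.Agent.W746.LD

variable {n : ℕ} {c : ℂ} {r : ℝ} {ν : ℂ → ℂ} {A : ℝ}

/-- Near constancy of the line field, transported from a good point at a bounded distance. -/
theorem near_const_ph (hI : Inv n c ν A) (hn : 2 ≤ n) {C0 c0 : ℝ} (K : KC C0 c0) {x : ℂ}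
    (hx : GP n c ν x) {θ M : ℝ} (hθ : 0 < θ) (hM : 0 ≤ M) :
    ∃ δ0 : ℝ, 0 < δ0 ∧ ∀ (m : ℕ) (p : ℂ) (ρ σ : ℝ) (g : ℂ → ℂ), 0 < σ →
      4 * σ < ρ → 64 * (C0 + 2) * σ ≤ θ * ρ → Br n c m p ρ g →
      ‖g p - x‖ ≤ M * σ * ‖deriv g p‖ → σ * ‖deriv g p‖ ≤ δ0 →
      ∫ w in ball p σ, ‖ν w - ν x * ph (deriv g p)‖ ≤ θ * ‖ν x‖ * σ ^ 2 := by
  have hC0 := K.one_le
  have hνx : 0 < ‖ν x‖ := norm_pos_iff.mpr hx.ne
  obtain ⟨δ1, hδ1, hleb⟩ := hx.leb (θ * ‖ν x‖ / (2 * C0 ^ 2 * (C0 + M) ^ 2)) (by positivity)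
  refine ⟨δ1 / (C0 + M), by positivity, ?_⟩
  intro m p ρ σ g hσ hσρ hθρ hg hgq hsmall
  have hρ : 0 < ρ := by linarith
  have hp : p ∈ ball p ρ := mem_ball_self hρ
  set D := ‖deriv g p‖ with hD
  have hD0 : 0 < D := norm_pos_iff.mpr (hg.deriv_ne hp)
  set S : Set ℂ := ball p σ with hS
  have hSb : S ⊆ ball p ρ := ball_subset_ball (by linarith)
  have hSm : MeasurableSet S := measurableSet_ball
  have hw4 : ∀ w ∈ S, ‖w - p‖ < ρ / 4 := by
    intro w hw
    rw [hS, mem_ball, dist_eq_norm] at hw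
    linarith
  have hdl : ∀ w ∈ S, D ≤ C0 * ‖deriv g w‖ := fun w hw =>
    (K.kdist g p ρ hρ hg.univ w (hw4 w hw).le).2
  have hlip : ∀ w ∈ S, ‖g w - g p‖ ≤ C0 * D * σ := by
    intro w hw
    refine (K.lip hρ hg.univ (hw4 w hw).le).trans ?_
    gcongr
    rw [hS, mem_ball, dist_eq_norm] at hw
    exact hw.le
  -- the first integral
  have hI1 : ∫ w in S, ‖ν (g w) - ν x‖ ≤ θ * ‖ν x‖ / 2 * σ ^ 2 := by
    have h1 : ∫ w in S, ‖ν (g w) - ν x‖ ≤
        ∫ w in S, (C0 / D) ^ 2 * (‖deriv g w‖ ^ 2 * ‖ν (g w) - ν x‖) := by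
      apply setIntegral_mono_on (aesm_comp hI hg.diff hSm hSb (ν x)) _ hSm
      · intro w hw
        have h2 := hdl w hw
        have h3 : 1 ≤ (C0 / D) ^ 2 * ‖deriv g w‖ ^ 2 := by
          rw [← mul_pow]
          apply one_le_pow₀
          rw [div_mul_eq_mul_div, le_div_iff₀ hD0, one_mul]
          exact h2
        have h4 : 0 ≤ ‖ν (g w) - ν x‖ := norm_nonneg _
        nlinarith
      · apply Integrable.const_mul
        have := (cov_int isOpen_ball hg.diff hSb hSm (hg.injOn.mono hSb)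
          (fun y => ‖ν y - ν x‖)).mp
        apply this
        apply hI.intOn
        apply ne_top_of_le_ne_top (vol_closedBall_ne (g p) (C0 * D * σ))
        apply measure_mono
        rintro _ ⟨w, hw, rfl⟩
        rw [mem_closedBall, dist_eq_norm]
        exact hlip w hw
    have h2 : ∫ w in S, (C0 / D) ^ 2 * (‖deriv g w‖ ^ 2 * ‖ν (g w) - ν x‖) =
        (C0 / D) ^ 2 * ∫ y in g '' S, ‖ν y - ν x‖ := by
      rw [cov isOpen_ball hg.diff hSb hSm (hg.injOn.mono hSb) (fun y => ‖ν y - ν x‖),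
        integral_const_mul]
    have hδ : 0 < (C0 + M) * D * σ := by positivity
    have hδ' : (C0 + M) * D * σ ≤ δ1 := by
      rw [le_div_iff₀ (by positivity)] at hsmall
      have : σ * D * (C0 + M) = (C0 + M) * D * σ := by ring
      linarith
    have hsub : g '' S ⊆ closedBall x ((C0 + M) * D * σ) := by
      rintro _ ⟨w, hw, rfl⟩
      rw [mem_closedBall, dist_eq_norm]
      calc ‖g w - x‖ = ‖(g w - g p) + (g p - x)‖ := by congr 1; ring
        _ ≤ ‖g w - g p‖ + ‖g p - x‖ := norm_add_le _ _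
        _ ≤ C0 * D * σ + M * σ * D := add_le_add (hlip w hw) hgq
        _ = (C0 + M) * D * σ := by ring
    have h3 : ∫ y in g '' S, ‖ν y - ν x‖ ≤ ∫ y in closedBall x ((C0 + M) * D * σ), ‖ν y - ν x‖ :=
      setIntegral_mono_set (hI.intOn _ (vol_closedBall_ne _ _))
        (Eventually.of_forall fun z => norm_nonneg _) (LE.le.eventuallyLE hsub)
    have h4 := hleb _ hδ hδ'
    rw [h2] at h1
    refine h1.trans ?_
    calc (C0 / D) ^ 2 * ∫ y in g '' S, ‖ν y - ν x‖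
        ≤ (C0 / D) ^ 2 * (θ * ‖ν x‖ / (2 * C0 ^ 2 * (C0 + M) ^ 2) * ((C0 + M) * D * σ) ^ 2) := by
          gcongr
          exact h3.trans h4
      _ = θ * ‖ν x‖ / 2 * σ ^ 2 := by
          have : C0 + M ≠ 0 := by positivity
          field_simp
  have hph : ∀ w ∈ S, ‖ph (deriv g w) - ph (deriv g p)‖ ≤ θ / 8 := by
    intro w hw
    refine (KC.phase K hg (hw4 w hw)).trans ?_
    rw [hS, mem_ball, dist_eq_norm] at hw
    calc 8 * (C0 + 2) / ρ * ‖w - p‖ ≤ 8 * (C0 + 2) / ρ * σ := by gcongr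
      _ = (64 * (C0 + 2) * σ) / (8 * ρ) := by field_simp; ring
      _ ≤ (θ * ρ) / (8 * ρ) := by gcongr
      _ = θ / 8 := by field_simp
  have hae : ∀ᵐ w ∂(volume.restrict S), ‖ν w - ν x * ph (deriv g p)‖ ≤
      ‖ν (g w) - ν x‖ + ‖ν x‖ * (θ / 8) := by
    rw [ae_restrict_iff' hSm]
    filter_upwards [hI.branch hn hg] with w hw hwS
    rw [hw (hSb hwS)]
    have e : ν (g w) * ph (deriv g w) - ν x * ph (deriv g p) =
        (ν (g w) - ν x) * ph (deriv g w) + ν x * (ph (deriv g w) - ph (deriv g p)) := by ring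
    rw [e]
    refine (norm_add_le _ _).trans ?_
    rw [norm_mul, norm_mul, norm_ph (hg.deriv_ne (hSb hwS)), mul_one]
    gcongr
    exact hph w hwS
  have hSfin : volume S ≠ ⊤ := vol_ball_ne p σ
  have hii := aesm_comp hI hg.diff hSm hSb (ν x)
  have hcst : IntegrableOn (fun _ : ℂ => ‖ν x‖ * (θ / 8)) S :=
    integrableOn_const hSfin
  calc ∫ w in S, ‖ν w - ν x * ph (deriv g p)‖
      ≤ ∫ w in S, (‖ν (g w) - ν x‖ + ‖ν x‖ * (θ / 8)) :=
        integral_mono_ae (hI.intOn _ hSfin) (hii.add hcst) hae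
    _ = (∫ w in S, ‖ν (g w) - ν x‖) + ∫ w in S, ‖ν x‖ * (θ / 8) := integral_add hii hcst
    _ ≤ θ * ‖ν x‖ / 2 * σ ^ 2 + Real.pi * σ ^ 2 * (‖ν x‖ * (θ / 8)) := by
        rw [setIntegral_const, hS, vol_ball_real p hσ.le, smul_eq_mul]
        gcongr
    _ ≤ θ * ‖ν x‖ * σ ^ 2 := by
        have h1 := Real.pi_lt_four
        have h2 : 0 ≤ σ ^ 2 * (‖ν x‖ * θ) := by positivity
        nlinarith


theorem ph_real {t : ℝ} (ht : t ≠ 0) : ph (t : ℂ) = 1 := by
  unfold ph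
  rw [Complex.conj_ofReal, div_self]
  exact_mod_cast ht

/-- S_SM as a hypothesis. -/
theorem near_real (SM : S_SM) (h : Q n c r) (hd' : Dense (K n c)ᶜ) (hI : Inv n c ν A) {x : ℂ}
    (hx : GP n c ν x) (B : ℝ) {d M θ : ℝ} (hd : 0 < d) (hM : 0 ≤ M) (hθ : 0 < θ) :
    ∃ s0 : ℝ, 0 < s0 ∧ ∀ (s : ℝ) (Z : ℂ) (m1 m2 : ℕ) (G1 G2 : ℂ → ℂ), 0 < s → s ≤ s0 → ‖Z‖ ≤ B →
      SB n c x s m1 Z d M G1 → SB n c x s m2 Z d M G2 →
      ‖ph (deriv G1 Z) - ph (deriv G2 Z)‖ ≤ θ := by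
  obtain ⟨C0, c0, K⟩ := exists_KC
  have hC0 := K.one_le
  have hνx : 0 < ‖ν x‖ := norm_pos_iff.mpr hx.ne
  set κ : ℝ := min (1 / 8) (θ / (64 * (C0 + 2))) with hκd
  have hκ : 0 < κ := by positivity
  have hκ1 : κ ≤ 1 / 8 := min_le_left _ _
  have hκ2 : κ ≤ θ / (64 * (C0 + 2)) := min_le_right _ _
  obtain ⟨δ0, hδ0, hN⟩ := near_const_ph hI h.hn K hx hθ (M := M / (κ * d)) (by positivity)
  obtain ⟨s0, hs0, hS⟩ := SM n c r h hd' x B d M (δ0 / (κ * d)) hd (by positivity)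
  refine ⟨s0, hs0, ?_⟩
  intro s Z m1 m2 G1 G2 hs hss0 hZ h1 h2
  have hsC : (s : ℂ) ≠ 0 := by exact_mod_cast hs.ne'
  have key : ∀ (m : ℕ) (G : ℂ → ℂ), SB n c x s m Z d M G →
      ∫ w in ball ((s : ℂ) * Z) (κ * (s * d)), ‖ν w - ν x * ph (deriv G Z)‖ ≤
        θ * ‖ν x‖ * (κ * (s * d)) ^ 2 := by
    intro m G hG
    have hbr := hG.br hs
    have hZs : (s : ℂ) * Z / s = Z := by field_simp
    have hder : deriv (fun w => G (w / s)) (s * Z) = deriv G Z / s := by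
      have h3 : HasDerivAt G (deriv G Z) ((s : ℂ) * Z / s) := by
        rw [hZs]; exact hG.hasDerivAt (mem_ball_self hd)
      have h4 : HasDerivAt (fun w : ℂ => w / s) (1 / s) (s * Z) := (hasDerivAt_id _).div_const _
      have h5 := h3.comp (s * Z) h4
      rw [mul_one_div] at h5
      exact h5.deriv
    have hn : ‖deriv (fun w => G (w / s)) (s * Z)‖ = ‖deriv G Z‖ / s := by
      rw [hder, norm_div, Complex.norm_real, Real.norm_of_nonneg hs.le]
    have h6 := hN m (s * Z) (s * d) (κ * (s * d)) (fun w => G (w / s)) (by positivity)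
      (by nlinarith [mul_pos hs hd]) (by
        calc 64 * (C0 + 2) * (κ * (s * d)) ≤ 64 * (C0 + 2) * (θ / (64 * (C0 + 2)) * (s * d)) := by
              gcongr
          _ = θ * (s * d) := by
              have : C0 + 2 ≠ 0 := by positivity
              field_simp) hbr (by
        rw [hn, hZs]
        refine hG.cone.trans (le_of_eq ?_)
        field_simp) (by
        rw [hn]
        have h7 := (hS s m Z G hs hss0 hZ hG).le
        rw [le_div_iff₀ (by positivity)] at h7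
        calc κ * (s * d) * (‖deriv G Z‖ / s) = ‖deriv G Z‖ * (κ * d) := by field_simp
          _ ≤ δ0 := h7)
    have h8 : ph (deriv (fun w => G (w / s)) (s * Z)) = ph (deriv G Z) := by
      have h9 : ph ((s : ℂ)⁻¹) = 1 := by
        rw [ph_inv, ph_real hs.ne', inv_one]
      rw [hder, div_eq_mul_inv, ph_mul, h9, mul_one]
    rw [h8] at h6
    exact h6
  have k1 := key m1 G1 h1
  have k2 := key m2 G2 h2
  set σ : ℝ := κ * (s * d) with hσ
  have hσ0 : 0 < σ := by positivity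
  set l1 := ν x * ph (deriv G1 Z)
  set l2 := ν x * ph (deriv G2 Z)
  have hfin := vol_ball_ne ((s : ℂ) * Z) σ
  have h3 : ∫ w in ball ((s : ℂ) * Z) σ, ‖l1 - l2‖ ≤
      ∫ w in ball ((s : ℂ) * Z) σ, (‖ν w - l1‖ + ‖ν w - l2‖) := by
    have hc : IntegrableOn (fun _ : ℂ => ‖l1 - l2‖) (ball ((s : ℂ) * Z) σ) :=
      integrableOn_const hfin
    have ha : IntegrableOn (fun w : ℂ => ‖ν w - l1‖ + ‖ν w - l2‖) (ball ((s : ℂ) * Z) σ) :=
      (hI.intOn l1 hfin).add (hI.intOn l2 hfin)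
    refine integral_mono hc ha ?_
    intro w
    show ‖l1 - l2‖ ≤ ‖ν w - l1‖ + ‖ν w - l2‖
    calc ‖l1 - l2‖ = ‖(ν w - l2) - (ν w - l1)‖ := by congr 1; ring
      _ ≤ ‖ν w - l2‖ + ‖ν w - l1‖ := norm_sub_le _ _
      _ = ‖ν w - l1‖ + ‖ν w - l2‖ := add_comm _ _
  rw [integral_add (hI.intOn l1 hfin) (hI.intOn l2 hfin), setIntegral_const, smul_eq_mul,
    vol_ball_real _ hσ0.le] at h3
  have h4 : ‖l1 - l2‖ = ‖ν x‖ * ‖ph (deriv G1 Z) - ph (deriv G2 Z)‖ := by
    rw [← norm_mul, mul_sub]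
  rw [h4] at h3
  have h5 := Real.pi_gt_three
  have h6 : Real.pi * σ ^ 2 * (‖ν x‖ * ‖ph (deriv G1 Z) - ph (deriv G2 Z)‖) ≤
      2 * θ * ‖ν x‖ * σ ^ 2 := by linarith
  have h7 : 0 < σ ^ 2 * ‖ν x‖ := by positivity
  have h8 : (σ ^ 2 * ‖ν x‖) * (Real.pi * ‖ph (deriv G1 Z) - ph (deriv G2 Z)‖) ≤
      (σ ^ 2 * ‖ν x‖) * (2 * θ) := by linarith
  have h9 := le_of_mul_le_mul_left h8 h7
  have h10 : 0 ≤ ‖ph (deriv G1 Z) - ph (deriv G2 Z)‖ := norm_nonneg _
  nlinarith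

/-- The logarithmic derivatives of two branches are nearly equal. -/
theorem near_log (SM : S_SM) (h : Q n c r) (hd' : Dense (K n c)ᶜ) (hI : Inv n c ν A) {x : ℂ}
    (hx : GP n c ν x) (B : ℝ) {d M θ : ℝ} (hd : 0 < d) (hM : 0 ≤ M) (hθ : 0 < θ) :
    ∃ s0 : ℝ, 0 < s0 ∧ ∀ (s : ℝ) (Z : ℂ) (m1 m2 : ℕ) (G1 G2 : ℂ → ℂ), 0 < s → s ≤ s0 → ‖Z‖ ≤ B →
      SB n c x s m1 Z d M G1 → SB n c x s m2 Z d M G2 →
      ‖deriv (deriv G1) Z / deriv G1 Z - deriv (deriv G2) Z / deriv G2 Z‖ ≤ θ := by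
  obtain ⟨C0, c0, K⟩ := exists_KC
  have hC0 := K.one_le
  set θ' : ℝ := θ * d / (128 * C0 ^ 2) with hθ'
  have hθ'0 : 0 < θ' := by positivity
  obtain ⟨s0, hs0, hR⟩ := near_real SM h hd' hI hx (B + d) (d := 3 * d / 4)
    (M := C0 ^ 2 * (M + d)) (by positivity) (by positivity) hθ'0
  refine ⟨s0, hs0, ?_⟩
  intro s Z m1 m2 G1 G2 hs hss0 hZ h1 h2
  have hZm : Z ∈ ball Z d := mem_ball_self hd
  have hb8 : ball Z (d / 8) ⊆ ball Z d := ball_subset_ball (by linarith)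
  have hn1 : ∀ W ∈ ball Z d, deriv G1 W ≠ 0 := fun W hW => h1.deriv_ne hs hW
  have hn2 : ∀ W ∈ ball Z d, deriv G2 W ≠ 0 := fun W hW => h2.deriv_ne hs hW
  set a : ℂ := deriv G1 Z / deriv G2 Z with ha
  have ha0 : a ≠ 0 := div_ne_zero (hn1 Z hZm) (hn2 Z hZm)
  set R : ℂ → ℂ := fun W => deriv G2 W / deriv G1 W * a with hRd
  have hd1 : DifferentiableOn ℂ (deriv G1) (ball Z d) := h1.diff.deriv isOpen_ball
  have hd2 : DifferentiableOn ℂ (deriv G2) (ball Z d) := h2.diff.deriv isOpen_ball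
  have hRdiff : DifferentiableOn ℂ R (ball Z (d / 8)) :=
    ((hd2.div hd1 hn1).mul_const a).mono hb8
  have him : ∀ W ∈ ball Z (d / 8), |(R W).im| ≤ C0 ^ 2 * θ' := by
    intro W hW
    have hW8 := hW
    rw [mem_ball, dist_eq_norm] at hW8
    have hWd : W ∈ ball Z d := hb8 hW
    have hWn : ‖W‖ ≤ B + d := by
      have := norm_add_le (W - Z) Z
      rw [sub_add_cancel] at this
      linarith
    have q1 := hR s W m1 m2 G1 G2 hs hss0 hWn (h1.move K hs hd hM (by linarith))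
      (h2.move K hs hd hM (by linarith))
    have q2 := hR s Z m1 m2 G1 G2 hs hss0 (by linarith)
      ((h1.move K hs hd hM (W := Z) (by simp; positivity)))
      ((h2.move K hs hd hM (W := Z) (by simp; positivity)))
    have hnorm : ‖R W‖ ≤ C0 ^ 2 := by
      have e1 := (K.kdist G1 Z d hd (h1.univ hs) W (by linarith)).2
      have e2 := (K.kdist G2 Z d hd (h2.univ hs) W (by linarith)).1
      have p1 := norm_pos_iff.mpr (hn1 W hWd)
      have p2 := norm_pos_iff.mpr (hn2 Z hZm)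
      simp only [hRd, ha]
      rw [norm_mul, norm_div, norm_div, div_mul_div_comm, div_le_iff₀ (by positivity)]
      calc ‖deriv G2 W‖ * ‖deriv G1 Z‖ ≤ (C0 * ‖deriv G2 Z‖) * (C0 * ‖deriv G1 W‖) := by gcongr
        _ = C0 ^ 2 * (‖deriv G1 W‖ * ‖deriv G2 Z‖) := by ring
    have hR0 : R W ≠ 0 := mul_ne_zero (div_ne_zero (hn2 W hWd) (hn1 W hWd)) ha0
    have hph : ‖ph (R W) - 1‖ ≤ 2 * θ' := by
      have e : ph (R W) = ph (deriv G2 W) / ph (deriv G1 W) * (ph (deriv G1 Z) / ph (deriv G2 Z)) := by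
        simp only [hRd, ha, ph_mul, div_eq_mul_inv, ph_inv]
      have n1 := norm_ph (hn1 W hWd)
      have n2 := norm_ph (hn2 W hWd)
      have n3 := norm_ph (hn1 Z hZm)
      have n4 := norm_ph (hn2 Z hZm)
      have z1 : ph (deriv G1 W) ≠ 0 := norm_pos_iff.mp (by rw [n1]; exact one_pos)
      have z4 : ph (deriv G2 Z) ≠ 0 := norm_pos_iff.mp (by rw [n4]; exact one_pos)
      have e2 : ph (R W) - 1 = (ph (deriv G2 W) / ph (deriv G1 W)) *
          ((ph (deriv G1 Z) - ph (deriv G2 Z)) / ph (deriv G2 Z)) +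
          (ph (deriv G2 W) - ph (deriv G1 W)) / ph (deriv G1 W) := by
        rw [e]
        field_simp
        ring
      rw [e2]
      refine (norm_add_le _ _).trans ?_
      rw [norm_mul, norm_div, norm_div, norm_div, n1, n2, n4, div_one, div_one, div_one, one_mul,
        norm_sub_rev (ph (deriv G2 W))]
      linarith
    have h3 : ph (R W) * R W = conj (R W) := by
      unfold ph
      field_simp
    have h4 : conj (R W) - R W = -(2 * (R W).im * I) := by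
      apply Complex.ext <;> simp; ring
    have h5 : ‖conj (R W) - R W‖ = 2 * |(R W).im| := by
      rw [h4, norm_neg, norm_mul, norm_mul, Complex.norm_I, mul_one, Complex.norm_real]
      simp
    have h6 : ‖conj (R W) - R W‖ ≤ 2 * θ' * C0 ^ 2 := by
      rw [← h3]
      have : ph (R W) * R W - R W = (ph (R W) - 1) * R W := by ring
      rw [this, norm_mul]
      gcongr
    rw [h5] at h6
    linarith
  have h7 := small_im (Z := Z) (F := R) (η := C0 ^ 2 * θ') (ρ := d / 8) (by positivity)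
    (by positivity) hRdiff him
  have h8 : deriv R Z = deriv (deriv G2) Z / deriv G2 Z - deriv (deriv G1) Z / deriv G1 Z := by
    have e1 : HasDerivAt (deriv G1) (deriv (deriv G1) Z) Z :=
      (hd1.differentiableAt (isOpen_ball.mem_nhds hZm)).hasDerivAt
    have e2 : HasDerivAt (deriv G2) (deriv (deriv G2) Z) Z :=
      (hd2.differentiableAt (isOpen_ball.mem_nhds hZm)).hasDerivAt
    have e3 := ((e2.div e1 (hn1 Z hZm)).mul_const a).deriv
    have e4 : deriv R Z = (deriv (deriv G2) Z * deriv G1 Z - deriv G2 Z * deriv (deriv G1) Z) /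
        deriv G1 Z ^ 2 * a := e3
    rw [e4, ha]
    have z1 := hn1 Z hZm
    have z2 := hn2 Z hZm
    field_simp
  rw [h8, norm_sub_rev] at h7
  refine h7.trans (le_of_eq ?_)
  rw [hθ']
  field_simp
  ring

end Pool.Agent.J4H16.AS
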