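import Mathlib
import Pool.Agent.J4H16.AS.NR

/-!
# The limit of the logarithmic derivatives of the branches along an ultrafilter
-/

set_option autoImplicit false
open Set Filter Topology Metric Complex MeasureTheory
open scoped ComplexConjugate

namespace Pool.Agent.J4H16.AS

open Pool.Agent.J4H16 Pool.Agent.W746.LD

variable {n : ℕ} {c x : ℂ} {r : ℝ} {ν : ℂ → ℂ} {A : ℝ}

/-- No better neighbour: a branch whose neighbours are not much larger. -/
theorem no_better {s : ℝ} {m : ℕ} {Z : ℂ} {d M R θ Bd : ℝ} {G0 : ℂ → ℂ}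
    (hs : 0 < s) (hd : 0 < d) (hR : 0 ≤ R)
    (hθ : 0 < θ) (h0 : SB n c x s m Z d M G0)
    (hB : ∀ G, SB n c x s m Z d (max M (R * (1 + θ) / θ)) G → ‖deriv G Z‖ ≤ Bd) :
    ∃ G, SB n c x s m Z d (max M (R * (1 + θ) / θ)) G ∧
      ∀ G', SB n c (G Z) s m Z d R G' → ‖deriv G' Z‖ < (1 + θ) * ‖deriv G Z‖ := by
  set M' : ℝ := max M (R * (1 + θ) / θ) with hM'
  set S : Set ℝ := {t | ∃ G, SB n c x s m Z d M' G ∧ t = ‖deriv G Z‖} with hS
  have hne : S.Nonempty := ⟨_, G0, h0.mono le_rfl (le_max_left _ _), rfl⟩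
  have hbd : BddAbove S := ⟨Bd, by rintro _ ⟨G, hG, rfl⟩; exact hB G hG⟩
  have hpos : 0 < sSup S := by
    have h1 : ‖deriv G0 Z‖ ≤ sSup S :=
      le_csSup hbd ⟨G0, h0.mono le_rfl (le_max_left _ _), rfl⟩
    exact lt_of_lt_of_le (norm_pos_iff.mpr (h0.deriv_ne hs (mem_ball_self hd))) h1
  have hlt : sSup S / (1 + θ) < sSup S := by
    rw [div_lt_iff₀ (by positivity)]
    nlinarith
  obtain ⟨_, ⟨G, hG, rfl⟩, hG2⟩ := exists_lt_of_lt_csSup hne hlt
  refine ⟨G, hG, ?_⟩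
  intro G' hG'
  by_contra hcon
  push Not at hcon
  rw [div_lt_iff₀ (by positivity)] at hG2
  have hM0 : 0 ≤ M' := le_trans (by positivity) (le_max_right _ _)
  have h2 : SB n c x s m Z d M' G' := by
    refine ⟨hG'.diff, hG'.eq, ?_⟩
    have h3 : M' * ‖deriv G Z‖ ≤ M' / (1 + θ) * ‖deriv G' Z‖ := by
      rw [div_mul_eq_mul_div, le_div_iff₀ (by positivity)]
      calc M' * ‖deriv G Z‖ * (1 + θ) = M' * ((1 + θ) * ‖deriv G Z‖) := by ring
        _ ≤ M' * ‖deriv G' Z‖ := by gcongr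
    have h4 : R + M' / (1 + θ) ≤ M' := by
      have h5 : R * (1 + θ) / θ ≤ M' := le_max_right _ _
      rw [div_le_iff₀ hθ] at h5
      have h6 : M' / (1 + θ) = M' - M' * θ / (1 + θ) := by field_simp; ring
      rw [h6]
      have h7 : R ≤ M' * θ / (1 + θ) := by rw [le_div_iff₀ (by positivity)]; exact h5
      linarith
    calc ‖G' Z - x‖ = ‖(G' Z - G Z) + (G Z - x)‖ := by congr 1; ring
      _ ≤ ‖G' Z - G Z‖ + ‖G Z - x‖ := norm_add_le _ _
      _ ≤ R * ‖deriv G' Z‖ + M' / (1 + θ) * ‖deriv G' Z‖ :=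
          add_le_add hG'.cone (hG.cone.trans h3)
      _ = (R + M' / (1 + θ)) * ‖deriv G' Z‖ := by ring
      _ ≤ M' * ‖deriv G' Z‖ := by gcongr
  have h8 : ‖deriv G' Z‖ ≤ sSup S := le_csSup hbd ⟨G', h2, rfl⟩
  linarith

/-- The standing assumptions. -/
structure Cx (n : ℕ) (c x : ℂ) (r : ℝ) (ν : ℂ → ℂ) (A : ℝ) (U : Ultrafilter ℕ) (σ : ℕ → ℝ) :
    Prop where
  h : Q n c r
  hd : Dense (K n c)ᶜ
  hI : Inv n c ν A
  hx : GP n c ν x
  pos : ∀ j, 0 < σ j
  lim : Tendsto σ U (𝓝 0)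

variable {U : Ultrafilter ℕ} {σ : ℕ → ℝ}

/-- The ball is free of postcritical points at most scales. -/
def Free (n : ℕ) (c : ℂ) (U : Ultrafilter ℕ) (σ : ℕ → ℝ) (Z : ℂ) (d : ℝ) : Prop :=
  ∀ᶠ j in (U : Filter ℕ), ∀ p ∈ PC n c, σ j * d ≤ ‖p - σ j * Z‖

/-- A good sequence of branches. -/
def GS (n : ℕ) (c x : ℂ) (U : Ultrafilter ℕ) (σ : ℕ → ℝ) (Z : ℂ) (d M : ℝ) (m : ℕ → ℕ)
    (G : ℕ → ℂ → ℂ) : Prop :=
  ∀ᶠ j in (U : Filter ℕ), SB n c x (σ j) (m j) Z d M (G j)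

theorem not_mem_Lim {Z : ℂ} : Z ∉ Lim U σ (PC n c) ↔ ∃ d : ℝ, 0 < d ∧ Free n c U σ Z d := by
  unfold Lim Free
  rw [Set.mem_ofPred_eq]
  push Not
  rfl

theorem Free.mono {Z : ℂ} {d d' : ℝ} (hp : ∀ j, 0 < σ j) (h : Free n c U σ Z d) {W : ℂ}
    (hW : ‖W - Z‖ + d' ≤ d) : Free n c U σ W d' := by
  filter_upwards [h] with j hj p hp'
  have h1 := hj p hp'
  have h2 := hp j
  have h3 : ‖p - σ j * Z‖ ≤ ‖p - σ j * W‖ + σ j * ‖W - Z‖ := by
    calc ‖p - σ j * Z‖ = ‖(p - σ j * W) + σ j * (W - Z)‖ := by congr 1; ring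
      _ ≤ ‖p - σ j * W‖ + ‖(σ j : ℂ) * (W - Z)‖ := norm_add_le _ _
      _ = _ := by rw [norm_mul, Complex.norm_real, Real.norm_of_nonneg h2.le]
  nlinarith

theorem isOpen_Om (hp : ∀ j, 0 < σ j) : IsOpen (Lim U σ (PC n c))ᶜ := by
  rw [Metric.isOpen_iff]
  intro Z hZ
  obtain ⟨d, hd, hF⟩ := not_mem_Lim.mp hZ
  refine ⟨d / 2, half_pos hd, ?_⟩
  intro W hW
  rw [mem_ball, dist_eq_norm] at hW
  exact not_mem_Lim.mpr ⟨d / 2, half_pos hd, hF.mono hp (by linarith)⟩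

theorem GS.move {C0 c0 : ℝ} (K : KC C0 c0) (C : Cx n c x r ν A U σ) {Z : ℂ} {d M : ℝ}
    {m : ℕ → ℕ} {G : ℕ → ℂ → ℂ} (h : GS n c x U σ Z d M m G) (hd : 0 < d) (hM : 0 ≤ M) {W : ℂ}
    (hW : ‖W - Z‖ ≤ d / 4) : GS n c x U σ W (3 * d / 4) (C0 ^ 2 * (M + d)) m G := by
  filter_upwards [h] with j hj
  exact hj.move K (C.pos j) hd hM hW

/-- Transport of a good sequence into a free ball. -/
theorem GS.back {C0 c0 : ℝ} (K : KC C0 c0) (LIFT : S_LIFT) (UNIQ : S_UNIQ)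
    (C : Cx n c x r ν A U σ) {Z W : ℂ} {d d' M : ℝ}
    {m : ℕ → ℕ} {G : ℕ → ℂ → ℂ} (h : GS n c x U σ W d' M m G) (hd : 0 < d) (hd' : 0 < d')
    (hM : 0 ≤ M) (hF : Free n c U σ Z d) (hW : ‖W - Z‖ ≤ d / 8) :
    ∃ G', GS n c x U σ Z (3 * d / 8) (C0 ^ 2 * (M + d)) m G' := by
  have hC0 := K.one_le
  have hn := C.h.hn
  have key : ∀ᶠ j in (U : Filter ℕ), ∃ g, SB n c x (σ j) (m j) Z (3 * d / 8)
      (C0 ^ 2 * (M + d)) g := by
    filter_upwards [h, hF] with j hj hf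
    have hs := C.pos j
    have hWZ : W ∈ ball Z d := by rw [mem_ball, dist_eq_norm]; linarith
    have hfree : ∀ w ∈ ball Z d, (σ j : ℂ) * w ∉ PC n c := by
      intro w hw hp
      have h1 := hf _ hp
      rw [← mul_sub, norm_mul, Complex.norm_real, Real.norm_of_nonneg hs.le] at h1
      have h2 := le_of_mul_le_mul_left h1 hs
      rw [mem_ball, dist_eq_norm] at hw
      linarith
    obtain ⟨g, hg1, hg2, hg3⟩ := LIFT n c (m j) (ball Z d) (fun w => σ j * w) W (G j W) hn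
      isOpen_ball (convex_ball _ _) hWZ (differentiableOn_id.const_mul _) hfree
      (hj.eq W (mem_ball_self hd'))
    set e : ℝ := min d' (d / 2) with he
    have he0 : 0 < e := lt_min hd' (half_pos hd)
    have hsub1 : ball W e ⊆ ball W d' := ball_subset_ball (min_le_left _ _)
    have hsub2 : ball W e ⊆ ball Z d := by
      apply ball_subset_ball'
      rw [dist_eq_norm]
      have : e ≤ d / 2 := min_le_right _ _
      linarith
    have huq := UNIQ n c (m j) (ball W e) (fun w => σ j * w) g (G j) W hn isOpen_ball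
      (convex_ball _ _).isPreconnected (mem_ball_self he0) (fun w hw => hfree w (hsub2 hw))
      (hg1.mono hsub2) (hj.diff.mono hsub1) (fun w hw => hg3 w (hsub2 hw))
      (fun w hw => hj.eq w (hsub1 hw)) hg2
    have hder : deriv g W = deriv (G j) W := by
      apply Filter.EventuallyEq.deriv_eq
      filter_upwards [isOpen_ball.mem_nhds (mem_ball_self he0)] with w hw
      exact huq w hw
    have hsb : SB n c x (σ j) (m j) W (d / 2) M g := by
      have hsub3 : ball W (d / 2) ⊆ ball Z d := by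
        apply ball_subset_ball'
        rw [dist_eq_norm]
        linarith
      refine ⟨hg1.mono hsub3, fun w hw => hg3 w (hsub3 hw), ?_⟩
      rw [hg2, hder]
      exact hj.cone
    have h4 := hsb.move K hs (half_pos hd) hM (W := Z) (by rw [norm_sub_rev]; linarith)
    refine ⟨g, h4.mono (le_of_eq (by ring)) ?_⟩
    gcongr
    linarith
  exact key.choice

/-- Every point outside the limit set is good. -/
theorem all_good {C0 c0 : ℝ} (K : KC C0 c0) (LIFT : S_LIFT) (UNIQ : S_UNIQ)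
    (C : Cx n c x r ν A U σ) (hconn : IsPreconnected (Lim U σ (PC n c))ᶜ) {m : ℕ → ℕ} {Z0 : ℂ}
    (hZ0 : Z0 ∉ Lim U σ (PC n c)) {d0 M0 : ℝ} (hd0 : 0 < d0) (hM0 : 0 ≤ M0) {G0 : ℕ → ℂ → ℂ}
    (h0 : GS n c x U σ Z0 d0 M0 m G0) : ∀ Z ∉ Lim U σ (PC n c), ∃ (d M : ℝ) (G : ℕ → ℂ → ℂ),
      0 < d ∧ 0 ≤ M ∧ GS n c x U σ Z d M m G := by
  have hC0 := K.one_le
  set Om : Set ℂ := (Lim U σ (PC n c))ᶜ with hOm
  set S : Set ℂ := {Z | ∃ (d M : ℝ) (G : ℕ → ℂ → ℂ), 0 < d ∧ 0 ≤ M ∧ GS n c x U σ Z d M m G}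
    with hS
  have hSo : IsOpen S := by
    rw [Metric.isOpen_iff]
    rintro Z ⟨d, M, G, hd, hM, hG⟩
    refine ⟨d / 4, by positivity, ?_⟩
    intro W hW
    rw [mem_ball, dist_eq_norm] at hW
    exact ⟨3 * d / 4, C0 ^ 2 * (M + d), G, by positivity, by positivity,
      hG.move K C hd hM hW.le⟩
  have hTo : IsOpen (Om \ S) := by
    rw [Metric.isOpen_iff]
    rintro Z ⟨hZ, hZS⟩
    obtain ⟨d, hd, hF⟩ := not_mem_Lim.mp hZ
    refine ⟨d / 8, by positivity, ?_⟩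
    intro W hW
    rw [mem_ball, dist_eq_norm] at hW
    refine ⟨not_mem_Lim.mpr ⟨d / 2, half_pos hd, hF.mono C.pos (by linarith)⟩, ?_⟩
    rintro ⟨d', M, G, hd', hM, hG⟩
    apply hZS
    obtain ⟨G', hG'⟩ := hG.back K LIFT UNIQ C hd hd' hM hF hW.le
    exact ⟨3 * d / 8, C0 ^ 2 * (M + d), G', by positivity, by positivity, hG'⟩
  intro Z hZ
  by_contra hcon
  have h1 : (Om ∩ (S ∩ (Om \ S))).Nonempty := by
    apply hconn S (Om \ S) hSo hTo
    · intro W hW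
      by_cases hWS : W ∈ S
      · exact Or.inl hWS
      · exact Or.inr ⟨hW, hWS⟩
    · exact ⟨Z0, hZ0, d0, M0, G0, hd0, hM0, h0⟩
    · exact ⟨Z, hZ, hZ, hcon⟩
  obtain ⟨W, -, hW1, -, hW2⟩ := h1
  exact hW2 hW1

/-- The limit of the logarithmic derivatives. -/
structure LN (n : ℕ) (c x : ℂ) (U : Ultrafilter ℕ) (σ : ℕ → ℝ) (N : ℂ → ℂ) : Prop where
  diff : DifferentiableOn ℂ N (Lim U σ (PC n c))ᶜ
  lim : ∀ Z ∉ Lim U σ (PC n c), ∀ (d M : ℝ) (m : ℕ → ℕ) (G : ℕ → ℂ → ℂ), 0 < d → 0 ≤ M →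
    GS n c x U σ Z d M m G →
      Tendsto (fun j => deriv (deriv (G j)) Z / deriv (G j) Z) (U : Filter ℕ) (𝓝 (N Z))

theorem exists_LN {C0 c0 : ℝ} (K : KC C0 c0) (LIFT : S_LIFT) (UNIQ : S_UNIQ) (SM : S_SM)
    (MONT : S_MONT) (C : Cx n c x r ν A U σ) (hconn : IsPreconnected (Lim U σ (PC n c))ᶜ)
    {m : ℕ → ℕ} {Z0 : ℂ} (hZ0 : Z0 ∉ Lim U σ (PC n c)) {d0 M0 : ℝ} (hd0 : 0 < d0) (hM0 : 0 ≤ M0)
    {G0 : ℕ → ℂ → ℂ} (h0 : GS n c x U σ Z0 d0 M0 m G0) :
    ∃ N : ℂ → ℂ, LN n c x U σ N ∧ ∀ (Z : ℂ) (d : ℝ), 0 < d → Free n c U σ Z d →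
      ‖N Z‖ ≤ 32 * C0 / d := by
  have hC0 := K.one_le
  have hall := all_good K LIFT UNIQ C hconn hZ0 hd0 hM0 h0
  have hev : ∀ s0 : ℝ, 0 < s0 → ∀ᶠ j in (U : Filter ℕ), σ j ≤ s0 := fun s0 hs0 =>
    (C.lim.eventually (Iio_mem_nhds hs0)).mono fun j hj => le_of_lt hj
  have hbd : ∀ (Z : ℂ) (d M : ℝ) (m : ℕ → ℕ) (G : ℕ → ℂ → ℂ), 0 < d →
      GS n c x U σ Z d M m G → ∀ᶠ j in (U : Filter ℕ),
        ‖deriv (deriv (G j)) Z / deriv (G j) Z‖ ≤ 8 * C0 / d := by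
    intro Z d M m G hd hG
    filter_upwards [hG] with j hj
    exact KC.logd K hd (hj.univ (C.pos j))
  have hex : ∀ Z, ∃ v : ℂ, Z ∉ Lim U σ (PC n c) → ∀ (d M : ℝ) (m : ℕ → ℕ) (G : ℕ → ℂ → ℂ), 0 < d →
      0 ≤ M → GS n c x U σ Z d M m G →
      Tendsto (fun j => deriv (deriv (G j)) Z / deriv (G j) Z) (U : Filter ℕ) (𝓝 v) := by
    intro Z
    by_cases hZ : Z ∈ Lim U σ (PC n c)
    · exact ⟨0, fun h => absurd hZ h⟩
    obtain ⟨d, M, G, hd, hM, hG⟩ := hall Z hZ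
    set L : ℕ → ℂ := fun j => deriv (deriv (G j)) Z / deriv (G j) Z with hL
    have h1 : ∀ᶠ j in (U : Filter ℕ), L j ∈ closedBall (0 : ℂ) (8 * C0 / d) := by
      filter_upwards [hbd Z d M m G hd hG] with j hj
      rw [mem_closedBall, dist_zero_right]
      exact hj
    obtain ⟨v, -, hv⟩ := (isCompact_closedBall (0 : ℂ) (8 * C0 / d)).ultrafilter_le_nhds
      (U.map L) (by
        rw [Filter.le_principal_iff]
        exact h1)
    refine ⟨v, fun _ d' M' m' G' hd' hM' hG' => ?_⟩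
    have hv' : Tendsto L (U : Filter ℕ) (𝓝 v) := hv
    have hdiff : Tendsto (fun j => deriv (deriv (G' j)) Z / deriv (G' j) Z - L j) (U : Filter ℕ)
        (𝓝 0) := by
      rw [Metric.tendsto_nhds]
      intro ε hε
      obtain ⟨s0, hs0, hN⟩ := near_log SM C.h C.hd C.hI C.hx ‖Z‖ (d := min d d') (M := max M M')
        (θ := ε / 2) (lt_min hd hd') (le_max_of_le_left hM) (half_pos hε)
      filter_upwards [hG, hG', hev s0 hs0] with j h2 h3 h4
      rw [dist_zero_right]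
      have h5 := hN (σ j) Z (m' j) (m j) (G' j) (G j) (C.pos j) h4 le_rfl
        (h3.mono (min_le_right _ _) (le_max_right _ _))
        (h2.mono (min_le_left _ _) (le_max_left _ _))
      linarith
    have := hdiff.add hv'
    rw [zero_add] at this
    refine this.congr fun j => ?_
    ring
  choose N hN using hex
  refine ⟨N, ⟨?_, fun Z hZ => hN Z hZ⟩, ?_⟩
  · intro Z hZ
    apply DifferentiableAt.differentiableWithinAt
    obtain ⟨d, M, G, hd, hM, hG⟩ := hall Z hZ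
    obtain ⟨e, he, hF⟩ := not_mem_Lim.mp hZ
    set ρ : ℝ := min (d / 4) e with hρ
    have hρ0 : 0 < ρ := by positivity
    have hbZ : ∀ W ∈ ball Z ρ, W ∉ Lim U σ (PC n c) := by
      intro W hW
      rw [mem_ball, dist_eq_norm] at hW
      have : ρ ≤ e := min_le_right _ _
      exact not_mem_Lim.mpr ⟨e - ‖W - Z‖, by linarith, hF.mono C.pos (by linarith)⟩
    obtain ⟨g, hg1, hg2⟩ := MONT U (fun j W => deriv (deriv (G j)) W / deriv (G j) W) (ball Z ρ)
      isOpen_ball (by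
        filter_upwards [hG] with j hj
        have hd1 : DifferentiableOn ℂ (deriv (G j)) (ball Z d) := hj.diff.deriv isOpen_ball
        have hsub : ball Z ρ ⊆ ball Z d :=
          ball_subset_ball ((min_le_left _ _).trans (by linarith))
        exact ((hd1.deriv isOpen_ball).div hd1 (fun W hW => hj.deriv_ne (C.pos j) hW)).mono hsub)
      (by
        intro Kc hKc _
        refine ⟨8 * C0 / (3 * d / 4), ?_⟩
        filter_upwards [hG] with j hj W hW
        have hW' := hKc hW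
        rw [mem_ball, dist_eq_norm] at hW'
        have h1 : ρ ≤ d / 4 := min_le_left _ _
        have h2 := hj.move K (C.pos j) hd hM (W := W) (by linarith)
        exact KC.logd K (by positivity) (h2.univ (C.pos j)))
    have heq : ∀ W ∈ ball Z ρ, N W = g W := by
      intro W hW
      have hW' := hW
      rw [mem_ball, dist_eq_norm] at hW'
      have h1 : ρ ≤ d / 4 := min_le_left _ _
      have h2 := hN W (hbZ W hW) (3 * d / 4) (C0 ^ 2 * (M + d)) m G (by positivity) (by positivity)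
        (hG.move K C hd hM (by linarith))
      have h3 := hg2.tendsto_at hW
      exact tendsto_nhds_unique h2 h3
    have h4 : DifferentiableAt ℂ g Z :=
      hg1.differentiableAt (isOpen_ball.mem_nhds (mem_ball_self hρ0))
    apply h4.congr_of_eventuallyEq
    filter_upwards [isOpen_ball.mem_nhds (mem_ball_self hρ0)] with W hW
    exact heq W hW
  · intro Z d hd hF
    have hZ : Z ∉ Lim U σ (PC n c) := not_mem_Lim.mpr ⟨d, hd, hF⟩
    obtain ⟨d', M, G, hd', hM, hG⟩ := hall Z hZ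
    obtain ⟨G', hG'⟩ := hG.back K LIFT UNIQ C hd hd' hM hF (W := Z) (by simp; positivity)
    have h1 := hN Z hZ _ _ m G' (by positivity) (by positivity) hG'
    have h2 := hbd Z _ _ m G' (by positivity) hG'
    have h3 := le_of_tendsto h1.norm h2
    refine h3.trans ?_
    rw [div_le_div_iff₀ (by positivity) hd]
    nlinarith

end Pool.Agent.J4H16.AS
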