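import Mathlib
import Pool.Agent.J4H16.AS.Lm

/-!
# Lifts of the exponential parametrization of a free annulus: estimates at one scale
-/

set_option autoImplicit false
open Set Filter Topology Metric Complex MeasureTheory
open scoped ComplexConjugate

namespace Pool.Agent.J4H16.AS

open Pool.Agent.J4H16 Pool.Agent.W746.LD

variable {n : ℕ} {c x : ℂ} {r : ℝ} {ν : ℂ → ℂ} {A : ℝ}

theorem isOpen_strip (l : ℝ) : IsOpen (strip l) :=
  isOpen_lt (continuous_abs.comp Complex.continuous_re) continuous_const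

theorem convex_strip (l : ℝ) : Convex ℝ (strip l) := by
  have : strip l = Complex.reLm ⁻¹' (Ioo (-l) l) := by
    ext w
    simp [strip, abs_lt]
  rw [this]
  exact (convex_Ioo _ _).linear_preimage _

theorem strip_mono {l l' : ℝ} (h : l ≤ l') : strip l ⊆ strip l' := fun _ hw =>
  lt_of_lt_of_le hw h

theorem strip_shift {l : ℝ} {w : ℂ} (hw : w ∈ strip l) (q : ℝ) : w + q * I ∈ strip l := by
  unfold strip at hw ⊢
  rw [Set.mem_ofPred_eq] at hw ⊢
  simpa using hw

theorem zero_mem_strip {l : ℝ} (hl : 0 < l) : (0 : ℂ) ∈ strip l := by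
  unfold strip
  rw [Set.mem_ofPred_eq]
  simpa using hl

theorem im_mem_strip {l : ℝ} (hl : 0 < l) (t : ℝ) : I * (t : ℂ) ∈ strip l := by
  unfold strip
  rw [Set.mem_ofPred_eq]
  simpa using hl

/-- a lift of the exponential map -/
structure EL (n : ℕ) (c : ℂ) (s : ℝ) (m : ℕ) (a : ℂ) (ρ l : ℝ) (H : ℂ → ℂ) : Prop where
  diff : DifferentiableOn ℂ H (strip l)
  eq : ∀ w ∈ strip l, orb n c (H w) m = s * (a + ρ * exp w)

/-- Local branches of a lift. -/
theorem EL.local (LIFT : S_LIFT) (UNIQ : S_UNIQ) (hn : 2 ≤ n) {s : ℝ} {m : ℕ} {a : ℂ} {ρ l : ℝ}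
    {H : ℂ → ℂ} (h : EL n c s m a ρ l H) (hs : 0 < s) (hρ : 0 < ρ) {w : ℂ} (hw : w ∈ strip l)
    {d : ℝ} (hd : 0 < d) (hF : ∀ p ∈ PC n c, s * d ≤ ‖p - s * (a + ρ * exp w)‖) :
    ∃ G : ℂ → ℂ, DifferentiableOn ℂ G (ball (a + ρ * exp w) d) ∧
      (∀ W ∈ ball (a + ρ * exp w) d, orb n c (G W) m = s * W) ∧ G (a + ρ * exp w) = H w ∧
      deriv H w = deriv G (a + ρ * exp w) * (ρ * exp w) ∧ deriv G (a + ρ * exp w) ≠ 0 ∧
      deriv (deriv H) w / deriv H w =
        deriv (deriv G) (a + ρ * exp w) / deriv G (a + ρ * exp w) * (ρ * exp w) + 1 := by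
  set E : ℂ → ℂ := fun w => a + ρ * exp w with hE
  have hEd : ∀ u, HasDerivAt E (ρ * exp u) u := fun u =>
    ((Complex.hasDerivAt_exp u).const_mul (ρ : ℂ)).const_add a
  have hfree : ∀ W ∈ ball (E w) d, (s : ℂ) * W ∉ PC n c := by
    intro W hW hp
    have h1 := hF _ hp
    rw [show a + (ρ : ℂ) * exp w = E w from rfl, ← mul_sub, norm_mul, Complex.norm_real,
      Real.norm_of_nonneg hs.le] at h1
    have h2 := le_of_mul_le_mul_left h1 hs
    rw [mem_ball, dist_eq_norm] at hW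
    linarith
  obtain ⟨G, g1, g2, g3⟩ := LIFT n c m (ball (E w) d) (fun W => s * W) (E w) (H w) hn isOpen_ball
    (convex_ball _ _) (mem_ball_self hd) (differentiableOn_id.const_mul _) hfree (h.eq w hw)
  have hsb : SB n c (G (E w)) s m (E w) d 0 G := ⟨g1, g3, by simp⟩
  have hne : ∀ W ∈ ball (E w) d, deriv G W ≠ 0 := fun W hW => hsb.deriv_ne hs hW
  obtain ⟨e, he, hsub⟩ : ∃ e : ℝ, 0 < e ∧ ball w e ⊆ strip l ∩ E ⁻¹' ball (E w) d := by
    apply Metric.mem_nhds_iff.mp
    exact inter_mem ((isOpen_strip l).mem_nhds hw)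
      ((hEd w).continuousAt.preimage_mem_nhds (isOpen_ball.mem_nhds (mem_ball_self hd)))
  have huq := UNIQ n c m (ball w e) (fun u => s * E u) H (fun u => G (E u)) w hn isOpen_ball
    (convex_ball _ _).isPreconnected (mem_ball_self he)
    (fun u hu => hfree _ (hsub hu).2) (h.diff.mono fun u hu => (hsub hu).1)
    (g1.comp (fun u _ => (hEd u).differentiableAt.differentiableWithinAt) fun u hu => (hsub hu).2)
    (fun u hu => h.eq u (hsub hu).1) (fun u hu => g3 _ (hsub hu).2) g2.symm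
  have hD1 : ∀ u ∈ ball w e, deriv H u = deriv G (E u) * (ρ * exp u) := by
    intro u hu
    have h1 : H =ᶠ[𝓝 u] fun u => G (E u) := by
      filter_upwards [isOpen_ball.mem_nhds hu] with v hv
      exact huq v hv
    rw [h1.deriv_eq]
    have h2 : HasDerivAt G (deriv G (E u)) (E u) := hsb.hasDerivAt (hsub hu).2
    exact (h2.comp u (hEd u)).deriv
  have hwe := mem_ball_self (x := w) he
  have hEw : E w ∈ ball (E w) d := mem_ball_self hd
  have hex : exp w ≠ 0 := Complex.exp_ne_zero _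
  have hρC : (ρ : ℂ) ≠ 0 := by exact_mod_cast hρ.ne'
  refine ⟨G, g1, g3, g2, hD1 w hwe, hne _ hEw, ?_⟩
  have h3 : deriv H =ᶠ[𝓝 w] fun u => deriv G (E u) * (ρ * exp u) := by
    filter_upwards [isOpen_ball.mem_nhds hwe] with v hv
    exact hD1 v hv
  have hG2 : HasDerivAt (deriv G) (deriv (deriv G) (E w)) (E w) :=
    ((g1.deriv isOpen_ball).differentiableAt (isOpen_ball.mem_nhds hEw)).hasDerivAt
  have h4 : HasDerivAt (fun u => deriv G (E u) * (ρ * exp u))
      (deriv (deriv G) (E w) * (ρ * exp w) * (ρ * exp w) + deriv G (E w) * (ρ * exp w)) w :=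
    (hG2.comp w (hEd w)).mul ((Complex.hasDerivAt_exp w).const_mul (ρ : ℂ))
  rw [h3.deriv_eq, h4.deriv, hD1 w hwe]
  have h5 := hne _ hEw
  show _ = deriv (deriv G) (E w) / deriv G (E w) * (ρ * exp w) + 1
  field_simp

/-- Two different points over the same point are far apart. -/
theorem SB.sep {C0 c0 : ℝ} (K : KC C0 c0) {s : ℝ} {m : ℕ} {Z : ℂ} {d M : ℝ} {G : ℂ → ℂ}
    (h : SB n c x s m Z d M G) (hs : 0 < s) (hd : 0 < d) {y : ℂ} {W : ℂ}
    (hy : orb n c y m = s * W) (hW : W = Z ∨ W ∉ ball Z d) (hne : y ≠ G Z) :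
    c0 * d * ‖deriv G Z‖ ≤ ‖y - G Z‖ := by
  by_contra hcon
  push Not at hcon
  obtain ⟨u, hu, hu2⟩ := KC.cover K hd (h.univ hs) (a := y) hcon
  have h1 := h.eq u hu
  rw [hu2, hy] at h1
  have hs' : (s : ℂ) ≠ 0 := by exact_mod_cast hs.ne'
  have h2 := mul_left_cancel₀ hs' h1
  rcases hW with hW | hW
  · rw [← h2, hW] at hu2
    exact hne hu2.symm
  · rw [h2] at hW
    exact hW hu

/-- Grönwall for the derivative. -/
theorem deriv_growth {H : ℂ → ℂ} {l B : ℝ} (hH : DifferentiableOn ℂ H (strip l))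
    (hne : ∀ w ∈ strip l, deriv H w ≠ 0)
    (hB : ∀ w ∈ strip l, ‖deriv (deriv H) w / deriv H w‖ ≤ B) {u v : ℂ} (hu : u ∈ strip l)
    (hv : v ∈ strip l) : ‖deriv H v‖ ≤ ‖deriv H u‖ * Real.exp (B * ‖v - u‖) := by
  set γ : ℝ → ℂ := fun t => u + t * (v - u) with hγ
  have hγm : ∀ t ∈ Icc (0 : ℝ) 1, γ t ∈ strip l := by
    intro t ht
    have := (convex_strip l) hu hv (a := 1 - t) (b := t) (by linarith [ht.2]) ht.1 (by ring)
    convert this using 1
    simp only [hγ, Complex.real_smul]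
    push_cast
    ring
  have hγd : ∀ t, HasDerivAt γ (v - u) t := by
    intro t
    have h1 : HasDerivAt (fun t : ℝ => (t : ℂ)) 1 t := Complex.ofRealCLM.hasDerivAt
    have h2 := (h1.mul_const (v - u)).const_add u
    rw [one_mul] at h2
    exact h2
  have hdd : ∀ w ∈ strip l, HasDerivAt (deriv H) (deriv (deriv H) w) w := fun w hw =>
    ((hH.deriv (isOpen_strip l)).differentiableAt ((isOpen_strip l).mem_nhds hw)).hasDerivAt
  have hφ : ∀ t ∈ Icc (0 : ℝ) 1, HasDerivAt (fun t => deriv H (γ t))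
      (deriv (deriv H) (γ t) * (v - u)) t := fun t ht =>
    (hdd _ (hγm t ht)).comp t (hγd t)
  have key := norm_le_gronwallBound_of_norm_deriv_right_le (f := fun t => deriv H (γ t))
    (f' := fun t => deriv (deriv H) (γ t) * (v - u)) (δ := ‖deriv H u‖) (K := B * ‖v - u‖) (ε := 0)
    (a := 0) (b := 1) (fun t ht => (hφ t ht).continuousAt.continuousWithinAt)
    (fun t ht => (hφ t (Ico_subset_Icc_self ht)).hasDerivWithinAt) (by simp [hγ]) (by
      intro t ht
      have h1 := hγm t (Ico_subset_Icc_self ht)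
      have h2 := hB _ h1
      have h3 := norm_pos_iff.mpr (hne _ h1)
      rw [norm_div, div_le_iff₀ h3] at h2
      rw [norm_mul, add_zero]
      calc ‖deriv (deriv H) (γ t)‖ * ‖v - u‖ ≤ B * ‖deriv H (γ t)‖ * ‖v - u‖ := by gcongr
        _ = B * ‖v - u‖ * ‖deriv H (γ t)‖ := by ring) 1 (by simp)
  rw [gronwallBound_ε0] at key
  simpa [hγ] using key

/-- Growth of the function. -/
theorem fun_growth {H : ℂ → ℂ} {l B : ℝ} (hB0 : 0 ≤ B) (hH : DifferentiableOn ℂ H (strip l))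
    (hne : ∀ w ∈ strip l, deriv H w ≠ 0)
    (hB : ∀ w ∈ strip l, ‖deriv (deriv H) w / deriv H w‖ ≤ B) {u v : ℂ} (hu : u ∈ strip l)
    (hv : v ∈ strip l) : ‖H v - H u‖ ≤ ‖deriv H u‖ * Real.exp (B * ‖v - u‖) * ‖v - u‖ := by
  have hseg : segment ℝ u v ⊆ strip l := (convex_strip l).segment_subset hu hv
  refine (convex_segment u v).norm_image_sub_le_of_norm_deriv_le (𝕜 := ℂ) (f := H)
    (C := ‖deriv H u‖ * Real.exp (B * ‖v - u‖)) ?_ ?_ (left_mem_segment ℝ u v)
    (right_mem_segment ℝ u v)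
  · intro w hw
    exact hH.differentiableAt ((isOpen_strip l).mem_nhds (hseg hw))
  · intro w hw
    refine (deriv_growth hH hne hB hu (hseg hw)).trans ?_
    gcongr
    obtain ⟨p, q, hp, hq, hpq, rfl⟩ := hw
    have e : p • u + q • v - u = q • (v - u) := by
      have : p = 1 - q := by linarith
      rw [this, sub_smul, one_smul, smul_sub]
      ring
    rw [e, norm_smul, Real.norm_of_nonneg hq]
    have : q ≤ 1 := by linarith
    exact mul_le_of_le_one_left (norm_nonneg _) this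

end Pool.Agent.J4H16.AS
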