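import Mathlib
import Pool.Agent.J4H16.AS.Ci1

/-!
# The limit of the normalized lifts of the exponential parametrization of a free annulus
-/

set_option autoImplicit false
open Set Filter Topology Metric Complex MeasureTheory
open scoped ComplexConjugate

namespace Pool.Agent.J4H16.AS

open Pool.Agent.J4H16 Pool.Agent.W746.LD

variable {n : ℕ} {c x : ℂ} {r : ℝ} {ν : ℂ → ℂ} {A : ℝ} {U : Ultrafilter ℕ} {σ : ℕ → ℝ}

/-- The annulus is free of postcritical points at most scales. -/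
def FA (n : ℕ) (c : ℂ) (U : Ultrafilter ℕ) (σ : ℕ → ℝ) (a : ℂ) (ρ δ : ℝ) : Prop :=
  ∀ᶠ j in (U : Filter ℕ), ∀ p ∈ PC n c,
    ¬ (σ j * ρ * (1 - δ) < ‖p - σ j * a‖ ∧ ‖p - σ j * a‖ < σ j * ρ * (1 + δ))

/-- A sequence of lifts. -/
def LS (n : ℕ) (c x : ℂ) (U : Ultrafilter ℕ) (σ : ℕ → ℝ) (a : ℂ) (ρ δ M : ℝ) (m : ℕ → ℕ)
    (H : ℕ → ℂ → ℂ) : Prop :=
  ∀ᶠ j in (U : Filter ℕ), EL n c (σ j) (m j) a ρ (Real.log (1 + δ)) (H j) ∧
    ‖H j 0 - x‖ ≤ M * ‖deriv (H j) 0‖

/-- the free distance -/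
noncomputable def dd (ρ δ : ℝ) : ℝ :=
  ρ * min (1 + δ - Real.exp (Real.log (1 + δ) / 2)) (Real.exp (-(Real.log (1 + δ) / 2)) - (1 - δ))

theorem dd_pos {ρ δ : ℝ} (hρ : 0 < ρ) (hδ : 0 < δ) : 0 < dd ρ δ := by
  unfold dd
  have h0 : 0 < Real.log (1 + δ) := Real.log_pos (by linarith)
  have h1 : Real.exp (Real.log (1 + δ)) = 1 + δ := Real.exp_log (by linarith)
  have h2 : Real.exp (Real.log (1 + δ) / 2) < 1 + δ := by
    rw [← h1]
    exact Real.exp_lt_exp.mpr (by rw [h1]; linarith)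
  have h3 : Real.exp (-Real.log (1 + δ)) < Real.exp (-(Real.log (1 + δ) / 2)) :=
    Real.exp_lt_exp.mpr (by linarith)
  have h4 : Real.exp (-Real.log (1 + δ)) = 1 / (1 + δ) := by
    rw [Real.exp_neg, h1, one_div]
  have h5 : 1 - δ < 1 / (1 + δ) := by
    rw [lt_div_iff₀ (by linarith)]
    nlinarith
  have h6 : 0 < Real.exp (-(Real.log (1 + δ) / 2)) - (1 - δ) := by
    rw [h4] at h3
    linarith
  exact mul_pos hρ (lt_min (by linarith) h6)

theorem log_half {δ : ℝ} (hδ : 0 < δ) : 0 < Real.log (1 + δ) / 2 :=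
  half_pos (Real.log_pos (by linarith))

theorem strip_half {δ : ℝ} (hδ : 0 < δ) :
    strip (Real.log (1 + δ) / 2) ⊆ strip (Real.log (1 + δ)) := by
  apply strip_mono
  have := log_half hδ
  linarith

/-- The free distance on the half strip. -/
theorem free_strip {s : ℝ} (hs : 0 < s) {a : ℂ} {ρ δ : ℝ} (hρ : 0 < ρ) {p : ℂ}
    (hp : ¬ (s * ρ * (1 - δ) < ‖p - s * a‖ ∧ ‖p - s * a‖ < s * ρ * (1 + δ))) {w : ℂ}
    (hw : w ∈ strip (Real.log (1 + δ) / 2)) :
    s * dd ρ δ ≤ ‖p - s * (a + ρ * exp w)‖ := by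
  unfold strip at hw
  rw [Set.mem_ofPred_eq, abs_lt] at hw
  have h1 : Real.exp w.re < Real.exp (Real.log (1 + δ) / 2) := Real.exp_lt_exp.mpr hw.2
  have h2 : Real.exp (-(Real.log (1 + δ) / 2)) < Real.exp w.re := Real.exp_lt_exp.mpr hw.1
  have hn : ‖(s : ℂ) * (ρ * exp w)‖ = s * (ρ * Real.exp w.re) := by
    rw [norm_mul, norm_mul, Complex.norm_real, Complex.norm_real, Real.norm_of_nonneg hs.le,
      Real.norm_of_nonneg hρ.le, Complex.norm_exp]
  have e : p - s * (a + ρ * exp w) = (p - s * a) - s * (ρ * exp w) := by ring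
  unfold dd
  rcases not_and_or.mp hp with h | h
  · push Not at h
    have h3 := norm_sub_norm_le ((s : ℂ) * (ρ * exp w)) (p - s * a)
    rw [norm_sub_rev ((s : ℂ) * (ρ * exp w)) (p - s * a), ← e, hn] at h3
    refine le_trans ?_ h3
    have h4 : min (1 + δ - Real.exp (Real.log (1 + δ) / 2))
        (Real.exp (-(Real.log (1 + δ) / 2)) - (1 - δ)) ≤ Real.exp w.re - (1 - δ) :=
      (min_le_right _ _).trans (by linarith)
    have h5 : s * (ρ * min (1 + δ - Real.exp (Real.log (1 + δ) / 2))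
        (Real.exp (-(Real.log (1 + δ) / 2)) - (1 - δ))) ≤ s * (ρ * (Real.exp w.re - (1 - δ))) := by
      gcongr
    refine h5.trans ?_
    have : s * (ρ * (Real.exp w.re - (1 - δ))) = s * (ρ * Real.exp w.re) - s * ρ * (1 - δ) := by ring
    rw [this]
    linarith
  · push Not at h
    have h3 := norm_sub_norm_le (p - s * a) ((s : ℂ) * (ρ * exp w))
    rw [← e, hn] at h3
    refine le_trans ?_ h3
    have h4 : min (1 + δ - Real.exp (Real.log (1 + δ) / 2))
        (Real.exp (-(Real.log (1 + δ) / 2)) - (1 - δ)) ≤ 1 + δ - Real.exp w.re :=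
      (min_le_left _ _).trans (by linarith)
    have h5 : s * (ρ * min (1 + δ - Real.exp (Real.log (1 + δ) / 2))
        (Real.exp (-(Real.log (1 + δ) / 2)) - (1 - δ))) ≤ s * (ρ * (1 + δ - Real.exp w.re)) := by
      gcongr
    refine h5.trans ?_
    have : s * (ρ * (1 + δ - Real.exp w.re)) = s * ρ * (1 + δ) - s * (ρ * Real.exp w.re) := by ring
    rw [this]
    linarith

/-- Bounds for the lifts. -/
theorem EL.bounds {C0 c0 : ℝ} (K : KC C0 c0) (LIFT : S_LIFT) (UNIQ : S_UNIQ) (hn : 2 ≤ n)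
    {s : ℝ} {m : ℕ} {a : ℂ} {ρ δ : ℝ} {H : ℂ → ℂ} (h : EL n c s m a ρ (Real.log (1 + δ)) H)
    (hs : 0 < s) (hρ : 0 < ρ) (hδ : 0 < δ)
    (hp : ∀ p ∈ PC n c, ¬ (s * ρ * (1 - δ) < ‖p - s * a‖ ∧ ‖p - s * a‖ < s * ρ * (1 + δ))) {w : ℂ}
    (hw : w ∈ strip (Real.log (1 + δ) / 2)) :
    deriv H w ≠ 0 ∧ ‖deriv (deriv H) w / deriv H w‖ ≤ 8 * C0 / dd ρ δ * (ρ * (1 + δ)) + 1 := by
  have hC0 := K.one_le
  have hd := dd_pos hρ hδ
  obtain ⟨G, g1, g2, g3, g4, g5, g6⟩ := h.local LIFT UNIQ hn hs hρ (strip_half hδ hw) hd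
    (fun p hp' => free_strip hs hρ (hp p hp') hw)
  have hex : exp w ≠ 0 := Complex.exp_ne_zero _
  have hρC : (ρ : ℂ) ≠ 0 := by exact_mod_cast hρ.ne'
  have hsb : SB n c (G (a + ρ * exp w)) s m (a + ρ * exp w) (dd ρ δ) 0 G := ⟨g1, g2, by simp⟩
  refine ⟨by rw [g4]; exact mul_ne_zero g5 (mul_ne_zero hρC hex), ?_⟩
  rw [g6]
  refine (norm_add_le _ _).trans ?_
  rw [norm_one]
  gcongr
  rw [norm_mul]
  have h1 := KC.logd K hd (hsb.univ hs)
  have h2 : ‖(ρ : ℂ) * exp w‖ ≤ ρ * (1 + δ) := by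
    rw [norm_mul, Complex.norm_real, Real.norm_of_nonneg hρ.le, Complex.norm_exp]
    gcongr
    unfold strip at hw
    rw [Set.mem_ofPred_eq, abs_lt] at hw
    have h3 := log_half hδ
    calc Real.exp w.re ≤ Real.exp (Real.log (1 + δ)) := Real.exp_le_exp.mpr (by linarith [hw.2])
      _ = 1 + δ := Real.exp_log (by linarith)
  gcongr

/-- the bound of the logarithmic derivative -/
noncomputable def BB (C0 ρ δ : ℝ) : ℝ := 8 * C0 / dd ρ δ * (ρ * (1 + δ)) + 1

theorem BB_pos {C0 ρ δ : ℝ} (hC : 1 ≤ C0) (hρ : 0 < ρ) (hδ : 0 < δ) : 0 < BB C0 ρ δ := by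
  have := dd_pos hρ hδ
  unfold BB
  positivity

/-- Local branches of a sequence of lifts are good. -/
theorem LS.good {C0 c0 : ℝ} (K : KC C0 c0) (LIFT : S_LIFT) (UNIQ : S_UNIQ)
    (C : Cx n c x r ν A U σ) {a : ℂ} {ρ δ M : ℝ} {m : ℕ → ℕ} {H : ℕ → ℂ → ℂ} (hρ : 0 < ρ)
    (hδ : 0 < δ) (hM : 0 ≤ M) (hF : FA n c U σ a ρ δ) (h : LS n c x U σ a ρ δ M m H) {w : ℂ}
    (hw : w ∈ strip (Real.log (1 + δ) / 2)) :
    ∃ (M' : ℝ) (G : ℕ → ℂ → ℂ), 0 ≤ M' ∧ GS n c x U σ (a + ρ * exp w) (dd ρ δ) M' m G ∧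
      ∀ᶠ j in (U : Filter ℕ), G j (a + ρ * exp w) = H j w ∧
        deriv (H j) w = deriv (G j) (a + ρ * exp w) * (ρ * exp w) ∧
        deriv (deriv (H j)) w / deriv (H j) w =
          deriv (deriv (G j)) (a + ρ * exp w) / deriv (G j) (a + ρ * exp w) * (ρ * exp w) + 1 := by
  have hC0 := K.one_le
  have hd := dd_pos hρ hδ
  have hBB := BB_pos hC0 hρ hδ
  have hl := log_half hδ
  set e : ℝ := Real.exp (BB C0 ρ δ * ‖w‖) with he
  have he0 : 0 < e := Real.exp_pos _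
  set M' : ℝ := (e * ‖w‖ + M) * e * (ρ * (1 + δ)) with hM'
  have key : ∀ᶠ j in (U : Filter ℕ), ∃ G : ℂ → ℂ, SB n c x (σ j) (m j) (a + ρ * exp w) (dd ρ δ) M' G ∧
      G (a + ρ * exp w) = H j w ∧
        deriv (H j) w = deriv G (a + ρ * exp w) * (ρ * exp w) ∧
        deriv (deriv (H j)) w / deriv (H j) w =
          deriv (deriv G) (a + ρ * exp w) / deriv G (a + ρ * exp w) * (ρ * exp w) + 1 := by
    filter_upwards [hF, h] with j hf hj
    obtain ⟨hEL, hcone⟩ := hj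
    have hs := C.pos j
    obtain ⟨G, g1, g2, g3, g4, g5, g6⟩ := hEL.local LIFT UNIQ C.h.hn hs hρ (strip_half hδ hw) hd
      (fun p hp' => free_strip hs hρ (hf p hp') hw)
    refine ⟨G, ⟨g1, g2, ?_⟩, g3, g4, g6⟩
    have hdiff : DifferentiableOn ℂ (H j) (strip (Real.log (1 + δ) / 2)) :=
      hEL.diff.mono (strip_half hδ)
    have hb := fun u (hu : u ∈ strip (Real.log (1 + δ) / 2)) =>
      hEL.bounds K LIFT UNIQ C.h.hn hs hρ hδ hf hu
    have q1 := deriv_growth hdiff (fun u hu => (hb u hu).1) (fun u hu => (hb u hu).2) hw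
      (zero_mem_strip hl)
    have q2 := fun_growth hBB.le hdiff (fun u hu => (hb u hu).1) (fun u hu => (hb u hu).2)
      (zero_mem_strip hl) hw
    rw [zero_sub, norm_neg] at q1
    rw [sub_zero] at q2
    have q3 : ‖deriv (H j) w‖ ≤ ‖deriv G (a + ρ * exp w)‖ * (ρ * (1 + δ)) := by
      rw [g4, norm_mul]
      gcongr
      rw [norm_mul, Complex.norm_real, Real.norm_of_nonneg hρ.le, Complex.norm_exp]
      gcongr
      have hw' := hw
      unfold strip at hw'
      rw [Set.mem_ofPred_eq, abs_lt] at hw'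
      calc Real.exp w.re ≤ Real.exp (Real.log (1 + δ)) := Real.exp_le_exp.mpr (by linarith [hw'.2])
        _ = 1 + δ := Real.exp_log (by linarith)
    rw [g3]
    have q1' : ‖deriv (H j) 0‖ ≤ ‖deriv (H j) w‖ * e := q1
    have q2' : ‖H j w - H j 0‖ ≤ ‖deriv (H j) 0‖ * e * ‖w‖ := q2
    calc ‖H j w - x‖ = ‖(H j w - H j 0) + (H j 0 - x)‖ := by congr 1; ring
      _ ≤ ‖H j w - H j 0‖ + ‖H j 0 - x‖ := norm_add_le _ _
      _ ≤ ‖deriv (H j) 0‖ * e * ‖w‖ + M * ‖deriv (H j) 0‖ := add_le_add q2' hcone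
      _ = (e * ‖w‖ + M) * ‖deriv (H j) 0‖ := by ring
      _ ≤ (e * ‖w‖ + M) * (‖deriv (H j) w‖ * e) := by gcongr
      _ ≤ (e * ‖w‖ + M) * (‖deriv G (a + ρ * exp w)‖ * (ρ * (1 + δ)) * e) := by gcongr
      _ = M' * ‖deriv G (a + ρ * exp w)‖ := by rw [hM']; ring
  obtain ⟨G, hG⟩ := key.choice
  exact ⟨M', G, by positivity, hG.mono fun j hj => hj.1, hG.mono fun j hj => hj.2⟩

/-- the logarithmic derivative of the limit -/
noncomputable def Bf (N : ℂ → ℂ) (a : ℂ) (ρ : ℝ) (w : ℂ) : ℂ := N (a + ρ * exp w) * (ρ * exp w) + 1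

theorem Bf_shift (N : ℂ → ℂ) (a : ℂ) (ρ : ℝ) (w : ℂ) :
    Bf N a ρ (w + 2 * Real.pi * I) = Bf N a ρ w := by
  have : exp (w + 2 * Real.pi * I) = exp w := Complex.exp_periodic w
  unfold Bf
  rw [this]

/-- The limit function. -/
structure HL (N : ℂ → ℂ) (a : ℂ) (ρ l : ℝ) (H : ℂ → ℂ) : Prop where
  diff : DifferentiableOn ℂ H (strip l)
  zero : H 0 = 0
  one : deriv H 0 = 1
  ne : ∀ w ∈ strip l, deriv H w ≠ 0
  ode : ∀ w ∈ strip l, deriv (deriv H) w / deriv H w = Bf N a ρ w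

/-- Functions with the same logarithmic derivative. -/
theorem log_unique {f g : ℂ → ℂ} {l : ℝ} (hl : 0 < l) (hf : DifferentiableOn ℂ f (strip l))
    (hg : DifferentiableOn ℂ g (strip l)) (hf0 : ∀ w ∈ strip l, f w ≠ 0)
    (hg0 : ∀ w ∈ strip l, g w ≠ 0) (h : ∀ w ∈ strip l, deriv f w / f w = deriv g w / g w) :
    ∀ w ∈ strip l, f w * g 0 = g w * f 0 := by
  have ho := isOpen_strip l
  have h0 := zero_mem_strip hl
  have hd : DifferentiableOn ℂ (fun w => f w / g w) (strip l) := hf.div hg hg0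
  have hz : (strip l).EqOn (deriv fun w => f w / g w) 0 := by
    intro w hw
    have h1 := (hf.differentiableAt (ho.mem_nhds hw)).hasDerivAt
    have h2 := (hg.differentiableAt (ho.mem_nhds hw)).hasDerivAt
    have h3 := (h1.div h2 (hg0 w hw)).deriv
    have h4 : deriv (fun w => f w / g w) w = (deriv f w * g w - f w * deriv g w) / g w ^ 2 := h3
    rw [h4]
    have h5 := h w hw
    rw [div_eq_div_iff (hf0 w hw) (hg0 w hw)] at h5
    have : deriv f w * g w - f w * deriv g w = 0 := by linear_combination h5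
    rw [this, zero_div]
    rfl
  intro w hw
  have h6 : f w / g w = f 0 / g 0 :=
    ho.is_const_of_deriv_eq_zero (convex_strip l).isPreconnected hd hz hw h0
  rw [div_eq_div_iff (hg0 w hw) (hg0 0 h0)] at h6
  rw [h6, mul_comm]

theorem HL.unique {N : ℂ → ℂ} {a : ℂ} {ρ l : ℝ} {H1 H2 : ℂ → ℂ} (hl : 0 < l)
    (h1 : HL N a ρ l H1) (h2 : HL N a ρ l H2) :
    ∀ w ∈ strip l, H1 w = H2 w ∧ deriv H1 w = deriv H2 w := by
  have ho := isOpen_strip l
  have h0 := zero_mem_strip hl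
  have hd : ∀ w ∈ strip l, deriv H1 w = deriv H2 w := by
    intro w hw
    have h3 := log_unique hl (h1.diff.deriv ho) (h2.diff.deriv ho) h1.ne h2.ne
      (fun w hw => by rw [h1.ode w hw, h2.ode w hw]) w hw
    rw [h1.one, h2.one, mul_one, mul_one] at h3
    exact h3
  intro w hw
  refine ⟨?_, hd w hw⟩
  have h4 : DifferentiableOn ℂ (fun w => H1 w - H2 w) (strip l) := h1.diff.sub h2.diff
  have h5 : (strip l).EqOn (deriv fun w => H1 w - H2 w) 0 := by
    intro w hw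
    have e := ((h1.diff.differentiableAt (ho.mem_nhds hw)).hasDerivAt.sub
      (h2.diff.differentiableAt (ho.mem_nhds hw)).hasDerivAt).deriv
    have e' : deriv (fun w => H1 w - H2 w) w = deriv H1 w - deriv H2 w := e
    rw [e', hd w hw, sub_self]
    rfl
  have h6 := ho.is_const_of_deriv_eq_zero (convex_strip l).isPreconnected h4 h5 hw h0
  simp only [h1.zero, h2.zero, sub_zero] at h6
  exact sub_eq_zero.mp h6

/-- The monodromy. -/
theorem HL.shift {N : ℂ → ℂ} {a : ℂ} {ρ l : ℝ} {H : ℂ → ℂ} (hl : 0 < l) (h : HL N a ρ l H) :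
    (∀ w ∈ strip l, deriv H (w + 2 * Real.pi * I) = deriv H (2 * Real.pi * I) * deriv H w) ∧
    (∀ w ∈ strip l, H (w + 2 * Real.pi * I) =
      deriv H (2 * Real.pi * I) * H w + H (2 * Real.pi * I)) := by
  have ho := isOpen_strip l
  have h0 := zero_mem_strip hl
  have hs : ∀ w ∈ strip l, w + 2 * Real.pi * I ∈ strip l := by
    intro w hw
    have := strip_shift hw (2 * Real.pi)
    push_cast at this
    exact this
  have hT : ∀ w ∈ strip l, HasDerivAt (fun w => H (w + 2 * Real.pi * I))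
      (deriv H (w + 2 * Real.pi * I)) w := by
    intro w hw
    exact ((h.diff.differentiableAt (ho.mem_nhds (hs w hw))).hasDerivAt).comp_add_const w _
  have hT2 : ∀ w ∈ strip l, HasDerivAt (fun w => deriv H (w + 2 * Real.pi * I))
      (deriv (deriv H) (w + 2 * Real.pi * I)) w := by
    intro w hw
    exact (((h.diff.deriv ho).differentiableAt (ho.mem_nhds (hs w hw))).hasDerivAt).comp_add_const
      w _
  have hder : ∀ w ∈ strip l, deriv H (w + 2 * Real.pi * I) = deriv H (2 * Real.pi * I) * deriv H w := by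
    intro w hw
    have h3 := log_unique (f := fun w => deriv H (w + 2 * Real.pi * I)) (g := deriv H) hl
      (fun w hw => (hT2 w hw).differentiableAt.differentiableWithinAt) (h.diff.deriv ho)
      (fun w hw => h.ne _ (hs w hw)) h.ne (fun w hw => by
        rw [(hT2 w hw).deriv, h.ode _ (hs w hw), h.ode w hw, Bf_shift]) w hw
    simp only [zero_add] at h3
    rw [h.one, mul_one] at h3
    rw [h3, mul_comm]
  refine ⟨hder, ?_⟩
  intro w hw
  have hd2 : ∀ w ∈ strip l, HasDerivAt (fun w => H (w + 2 * Real.pi * I) -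
      deriv H (2 * Real.pi * I) * H w) 0 w := by
    intro w hw
    have e := (hT w hw).sub ((h.diff.differentiableAt (ho.mem_nhds hw)).hasDerivAt.const_mul
      (deriv H (2 * Real.pi * I)))
    rw [hder w hw, sub_self] at e
    exact e
  have h6 := ho.is_const_of_deriv_eq_zero (convex_strip l).isPreconnected
    (fun w hw => (hd2 w hw).differentiableAt.differentiableWithinAt)
    (fun w hw => (hd2 w hw).deriv) hw h0
  simp only [zero_add, h.zero, mul_zero, sub_zero] at h6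
  rw [← h6]
  ring

/-- Existence of the limit. -/
theorem LS.limit {C0 c0 : ℝ} (K : KC C0 c0) (LIFT : S_LIFT) (UNIQ : S_UNIQ) (MONT : S_MONT)
    (C : Cx n c x r ν A U σ) {N : ℂ → ℂ} (hN : LN n c x U σ N) {a : ℂ} {ρ δ M : ℝ} {m : ℕ → ℕ}
    {H : ℕ → ℂ → ℂ} (hρ : 0 < ρ) (hδ : 0 < δ) (hM : 0 ≤ M) (hF : FA n c U σ a ρ δ)
    (h : LS n c x U σ a ρ δ M m H) :
    ∃ T : ℂ → ℂ, HL N a ρ (Real.log (1 + δ) / 2) T ∧
      (∀ w ∈ strip (Real.log (1 + δ) / 2),
        Tendsto (fun j => (H j w - H j 0) / deriv (H j) 0) (U : Filter ℕ) (𝓝 (T w))) ∧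
      (∀ w ∈ strip (Real.log (1 + δ) / 2),
        Tendsto (fun j => deriv (H j) w / deriv (H j) 0) (U : Filter ℕ) (𝓝 (deriv T w))) ∧
      (∀ w ∈ strip (Real.log (1 + δ) / 2),
        Tendsto (fun j => deriv (deriv (H j)) w / deriv (H j) w) (U : Filter ℕ)
          (𝓝 (Bf N a ρ w))) := by
  have hC0 := K.one_le
  have hd := dd_pos hρ hδ
  have hBB := BB_pos hC0 hρ hδ
  have hl := log_half hδ
  set l : ℝ := Real.log (1 + δ) / 2 with hldef
  have ho := isOpen_strip l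
  have h0 := zero_mem_strip hl
  have hpt : ∀ w ∈ strip l, Tendsto (fun j => deriv (deriv (H j)) w / deriv (H j) w)
      (U : Filter ℕ) (𝓝 (Bf N a ρ w)) := by
    intro w hw
    obtain ⟨M', G, hM', hG, hG2⟩ := h.good K LIFT UNIQ C hρ hδ hM hF hw
    have hZ : a + ρ * exp w ∉ Lim U σ (PC n c) := not_mem_Lim.mpr ⟨dd ρ δ, hd, by
      filter_upwards [hF] with j hf p hp
      exact free_strip (C.pos j) hρ (hf p hp) hw⟩
    have h1 := hN.lim _ hZ (dd ρ δ) M' m G hd hM' hG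
    have h2 := (h1.mul_const ((ρ : ℂ) * exp w)).add_const 1
    apply h2.congr'
    filter_upwards [hG2] with j hj
    exact hj.2.2.symm
  have hb : ∀ᶠ j in (U : Filter ℕ), DifferentiableOn ℂ (H j) (strip l) ∧ ∀ u ∈ strip l,
      deriv (H j) u ≠ 0 ∧ ‖deriv (deriv (H j)) u / deriv (H j) u‖ ≤ BB C0 ρ δ := by
    filter_upwards [hF, h] with j hf hj
    exact ⟨hj.1.diff.mono (strip_half hδ), fun u hu =>
      hj.1.bounds K LIFT UNIQ C.h.hn (C.pos j) hρ hδ hf hu⟩
  set F : ℕ → ℂ → ℂ := fun j w => (H j w - H j 0) / deriv (H j) 0 with hFd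
  obtain ⟨T, hT1, hT2⟩ := MONT U F (strip l) ho (by
      filter_upwards [hb] with j hj
      exact (hj.1.sub_const _).div_const _) (by
      intro S hS hSc
      obtain ⟨B, hB⟩ := hSc.isBounded.subset_ball 0 |>.imp fun _ h => h
      refine ⟨Real.exp (BB C0 ρ δ * B) * B, ?_⟩
      filter_upwards [hb] with j hj w hw
      have h1 := fun_growth hBB.le hj.1 (fun u hu => (hj.2 u hu).1) (fun u hu => (hj.2 u hu).2)
        h0 (hS hw)
      rw [sub_zero] at h1
      have h2 := norm_pos_iff.mpr (hj.2 0 h0).1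
      have h3 := hB hw
      rw [mem_ball, dist_zero_right] at h3
      simp only [hFd]
      rw [norm_div, div_le_iff₀ h2]
      calc ‖H j w - H j 0‖ ≤ ‖deriv (H j) 0‖ * Real.exp (BB C0 ρ δ * ‖w‖) * ‖w‖ := h1
        _ ≤ ‖deriv (H j) 0‖ * Real.exp (BB C0 ρ δ * B) * B := by gcongr
        _ = _ := by ring)
  have hFdiff : ∀ᶠ j in (U : Filter ℕ), DifferentiableOn ℂ (F j) (strip l) := by
    filter_upwards [hb] with j hj
    exact (hj.1.sub_const _).div_const _
  have hF1 : TendstoLocallyUniformlyOn (deriv ∘ F) (deriv T) (U : Filter ℕ) (strip l) :=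
    hT2.deriv hFdiff ho
  have hF2 : TendstoLocallyUniformlyOn (deriv ∘ deriv ∘ F) (deriv (deriv T)) (U : Filter ℕ)
      (strip l) := by
    apply TendstoLocallyUniformlyOn.deriv hF1 _ ho
    filter_upwards [hFdiff] with j hj
    exact hj.deriv ho
  have hFder : ∀ j w, deriv (F j) w = deriv (H j) w / deriv (H j) 0 := by
    intro j w
    simp only [hFd]
    rw [deriv_div_const, deriv_sub_const]
  have hFder2 : ∀ j w, deriv (deriv (F j)) w = deriv (deriv (H j)) w / deriv (H j) 0 := by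
    intro j w
    have : deriv (F j) = fun w => deriv (H j) w / deriv (H j) 0 := funext (hFder j)
    rw [this, deriv_div_const]
  have hd1 : ∀ w ∈ strip l, Tendsto (fun j => deriv (H j) w / deriv (H j) 0) (U : Filter ℕ)
      (𝓝 (deriv T w)) := by
    intro w hw
    refine (hF1.tendsto_at hw).congr fun j => ?_
    exact hFder j w
  have hd2 : ∀ w ∈ strip l, Tendsto (fun j => deriv (deriv (H j)) w / deriv (H j) 0)
      (U : Filter ℕ) (𝓝 (deriv (deriv T) w)) := by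
    intro w hw
    refine (hF2.tendsto_at hw).congr fun j => ?_
    exact hFder2 j w
  have hlow : ∀ w ∈ strip l, Real.exp (-(BB C0 ρ δ * ‖w‖)) ≤ ‖deriv T w‖ := by
    intro w hw
    refine ge_of_tendsto (hd1 w hw).norm ?_
    filter_upwards [hb] with j hj
    have h1 := deriv_growth hj.1 (fun u hu => (hj.2 u hu).1) (fun u hu => (hj.2 u hu).2) hw h0
    rw [zero_sub, norm_neg] at h1
    have h2 := norm_pos_iff.mpr (hj.2 0 h0).1
    rw [norm_div, le_div_iff₀ h2, Real.exp_neg, inv_mul_le_iff₀ (Real.exp_pos _)]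
    linarith
  have hTne : ∀ w ∈ strip l, deriv T w ≠ 0 := fun w hw =>
    norm_pos_iff.mp (lt_of_lt_of_le (Real.exp_pos _) (hlow w hw))
  refine ⟨T, ⟨hT1, ?_, ?_, hTne, ?_⟩, fun w hw => hT2.tendsto_at hw, hd1, hpt⟩
  · have h1 := hT2.tendsto_at h0
    have h2 : Tendsto (fun j => F j 0) (U : Filter ℕ) (𝓝 0) := by
      have : (fun j => F j 0) = fun _ => (0 : ℂ) := by
        funext j
        simp [hFd]
      rw [this]
      exact tendsto_const_nhds
    exact tendsto_nhds_unique h1 h2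
  · have h1 := hd1 0 h0
    have h2 : Tendsto (fun j => deriv (H j) 0 / deriv (H j) 0) (U : Filter ℕ) (𝓝 1) := by
      apply tendsto_const_nhds.congr'
      filter_upwards [hb] with j hj
      rw [div_self (hj.2 0 h0).1]
    exact tendsto_nhds_unique h1 h2
  · intro w hw
    have h1 := (hd2 w hw).div (hd1 w hw) (hTne w hw)
    refine tendsto_nhds_unique h1 ((hpt w hw).congr' ?_)
    filter_upwards [hb] with j hj
    have h2 := (hj.2 0 h0).1
    have h3 := (hj.2 w hw).1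
    simp only [Pi.div_apply]
    field_simp

end Pool.Agent.J4H16.AS
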