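import Mathlib
import Pool.Agent.J4H16.AS.Ci2
import Pool.Agent.J4H16.Uni

/-!
# Project AS, second list of jobs (all degrees `n ≥ 2`)
-/

set_option autoImplicit false
open Set Filter Topology Metric Complex MeasureTheory
open scoped ComplexConjugate

namespace Pool.Agent.J4H16.AS

open Pool.Agent.J4H16 Pool.Agent.W746.LD

/-- The branch with the value `y` at `a + ρ` extends to the whole disc. -/
def Full (n : ℕ) (c : ℂ) (s : ℝ) (m : ℕ) (a : ℂ) (ρ δ : ℝ) (y : ℂ) : Prop :=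
  ∃ G : ℂ → ℂ, DifferentiableOn ℂ G (ball a (ρ * (1 + δ))) ∧
    (∀ W ∈ ball a (ρ * (1 + δ)), orb n c (G W) m = s * W) ∧ G (a + ρ) = y

/-- The line field is nearly constant around the critical point at the scale `ρ`. -/
def NCz (ν : ℂ → ℂ) (x : ℂ) (θ ρ : ℝ) : Prop :=
  ∃ l : ℂ, ‖l‖ = ‖ν x‖ ∧ ∫ w in ball (0 : ℂ) ρ, ‖ν w - l‖ ≤ θ * ‖ν x‖ * ρ ^ 2

/-- ROT2 (degree two). The lift of the exponential parametrization of a free annulus either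
extends to the disc, or it is `4πi`-periodic with tangent winding number one, or it is rotated by
`-1` after `4πi` at some time `k < m`.
Proof: as ROT. If it does not extend there are `i < m` and a lift `h` of
`φ ζ = a + ρ(1+δ)ζ` by `f^i` with `h ζ0 = f^(m-i) (H 0)`, `ζ0 = 1/(1+δ)`, and `h v = c`,
`|v| ≤ (1-δ)/(1+δ)` since `φ v ∈ PC`. Let `k1 = m - i - 1`, `M ζ = (ζ - v)/(1 - v̄ζ)` and let `q` be
the univalent odd function on `ball 0 1` with `q(ξ)^2 + c = h (M⁻¹(ξ^2))` (`root_transform`, see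
its use in `Nice.lean`), `ξ0^2 = M ζ0`, `q ξ0 = f^k1 (H 0)` (sign of `ξ0`). Let
`ξ w = ξ0 * exp ((w + log(1 - v(1+δ)e^(-w)) - log(1 - v(1+δ)) - ...)/2)` be the root of
`M (e^w/(1+δ))` on the strip, so `ξ (w + 2πi) = -ξ w`; `f^k1 (H w) = q (ξ w)`. Apply `exists_lf` to
`q` along the orbit of `H 0` for the time `k1`.
(a) A full lift `p`: `H w = p (ξ w)`, `p` is univalent on `ball 0 1`; so `H (w + 4πi) = H w`,
`H (w + 2πi) ≠ H w` and `H''/H' = p''/p'(ξ) ξ' + ξ''/ξ'`, where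
`2 ξ ξ' = M'(ζ)ζ`, `ζ = e^w/(1+δ)`, so `ξ''/ξ' = 1 + M''/M'(ζ)ζ - ξ'/ξ` and
`2 ξ'/ξ = M'(ζ)ζ/M(ζ)`; over `[0, 4π]` the integrals are `0` (Cauchy in `ball 0 1`, closed curve
`ξ`), `4π`, `0` and `1/2 * 4π = 2π`; total `2π`.
(b) `j < k1` and a lift `p'` of `q` by `f^j`, `p' ξ0 = f^(k1-j) (H 0)`, `p' v' = c`. With
`k = k1 - j - 1`: `(f^k (H w))^2 = p' (ξ w) - c = (ξ w - v') * (nonvanishing function of ξ w on the
disc)`, and a continuous logarithm `L` of `ξ w - v'` has `L(w + 4πi) - L(w) = 2πi`: as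
`ξ(w+2πi) = -ξ w`, `L(w + 2πi) + L w` is a logarithm `Λ w` of
`-(ξ w - v')(ξ w + v') = -(M ζ - M ζ')` with `ζ' = M⁻¹(v'^2)`, which is `e^w - (1+δ)ζ'` times a
nonvanishing function of `ζ` on `ball 0 1`, and `|ζ'| ≤ (1-δ)/(1+δ)` as `φ ζ' ∈ PC`; so
`Λ(w + 2πi) - Λ w = 2πi`. -/
def S_ROT2 : Prop := ∀ (c a : ℂ) (ρ δ : ℝ) (m : ℕ) (H : ℂ → ℂ), 0 < ρ → 0 < δ → δ < 1 →
  (∀ p ∈ PC 2 c, ¬ (ρ * (1 - δ) < ‖p - a‖ ∧ ‖p - a‖ < ρ * (1 + δ))) →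
  DifferentiableOn ℂ H (strip (Real.log (1 + δ))) →
  (∀ w ∈ strip (Real.log (1 + δ)), orb 2 c (H w) m = a + ρ * exp w) →
  (∃ h, Lf 2 c m (fun ζ => a + ρ * (1 + δ) * ζ) h ∧
    ∀ w ∈ strip (Real.log (1 + δ)), H w = h (exp w / (1 + δ))) ∨
  ((∀ w ∈ strip (Real.log (1 + δ)), H (w + 4 * Real.pi * I) = H w ∧
      H (w + 2 * Real.pi * I) ≠ H w) ∧
    ∫ θ in (0 : ℝ)..4 * Real.pi, deriv (deriv H) (I * (θ : ℝ)) / deriv H (I * (θ : ℝ)) =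
      2 * Real.pi) ∨
  (∃ k < m, ∀ w ∈ strip (Real.log (1 + δ)), orb 2 c (H w) k ≠ 0 ∧
    orb 2 c (H (w + 4 * Real.pi * I)) k = - orb 2 c (H w) k)

/-- SYM (degree two). The arguments of the derivatives of branches at symmetric points nearly agree
up to sign. Proof: as `near_real` (`NR.lean`) with `near_const_ph` on `ball (s Z) (s e)` and on
`ball (-s Z) (s e)`, and `ν (-z) = ν z` almost everywhere, which follows from `hI.inv`. -/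
def S_SYM : Prop := ∀ (c : ℂ) (r : ℝ) (ν : ℂ → ℂ) (A : ℝ) (x : ℂ), Q 2 c r → Dense (K 2 c)ᶜ →
  Inv 2 c ν A → GP 2 c ν x → ∀ (B d M θ : ℝ), 0 < d → 0 ≤ M → 0 < θ →
  ∃ s0 : ℝ, 0 < s0 ∧ ∀ (s : ℝ) (Z : ℂ) (m1 m2 : ℕ) (G1 G2 : ℂ → ℂ), 0 < s → s ≤ s0 → ‖Z‖ ≤ B →
    SB 2 c x s m1 Z d M G1 → SB 2 c x s m2 (-Z) d M G2 →
      ‖ph (deriv G1 Z) - ph (deriv G2 (-Z))‖ ≤ θ

/-- NCZ. The line field is not nearly constant around the critical point at all small scales.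
Proof: for `n ≥ 3` `Inv.no_const`. Let `n = 2` and suppose it is, for every `θ`. For small `R` with
`R < |p| < (1+ε0)R` free of `PC` (GAPD at `0`; it also gives `HypII`, see `ENTRY`), take `l` large
with `z_l ∈ ball 0 R` (`GP.zero_acc`); by `GP.conical` `ball (z_l) (ε0 R)`, hence
`ball 0 ((1+ε0)R)`, has no branch through `x`; so (`exists_br`) there are `i < l` and
`g : Br 2 c i 0 ((1+ε0)R)` with `g v = c`; `v ∈ PC` so `|v| ≤ R`. As `ν` is nearly constant on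
`ball 0 ((1+ε0)R)` it is nearly constant on a ball `ball v (c1 R)`, and by `Inv.transport` nearly
constant `= l'` on `ball c (τ^2)`, `τ^2 = c2 R |g' v|` (small by `Q.branch_small`). So on
`ball 0 τ` `ν z = ν(z^2+c) ph(2z)` is nearly `l' conj z / z` in `L^1` (substitution `u = z^2 + c`,
`dz = du / (2|u - c|)`, split at `|u - c| < ητ^2`); but it is nearly constant `= l2` there, and
`∫ conj z / z = 0` over `ball 0 τ`: contradiction, `|l2| = |ν x|`. -/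
def S_NCZ : Prop := ∀ (n : ℕ) (c : ℂ) (r : ℝ) (ν : ℂ → ℂ) (A : ℝ) (x : ℂ) (C s : ℝ),
  Q n c r → Dense (K n c)ᶜ → Inv n c ν A → GP n c ν x → 0 < s → s < 1 → Thin (PC n c) C s →
  ∃ θ : ℝ, 0 < θ ∧ ∀ s0 : ℝ, 0 < s0 → ∃ ρ : ℝ, 0 < ρ ∧ ρ ≤ s0 ∧ ¬ NCz ν x θ ρ

/-- ATT. A critical value near the critical point gives an attracting cycle.
Proof: as in `Q.inner_of_gap` (`Gp.lean`): `KC.rad_lip2` gives `s^n ≤ 2 R C0^(2k) |hh' v|`; with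
`τ = 2ε's`, `4τ^n < c0 (τ - |v|) |hh' v|`, and `attr_per` with `N = i + 1`, radius `4τ^n`. -/
def S_ATT : Prop := ∀ (n : ℕ) (c : ℂ) (r : ℝ), Q n c r → ∀ (C1 ε1 : ℝ), 0 < C1 → 0 < ε1 →
  ε1 < 1 → ∃ ε' : ℝ, 0 < ε' ∧ ∀ (s R : ℝ) (i : ℕ) (y v : ℂ) (hh : ℂ → ℂ), 0 < s → s ≤ R →
    R ≤ C1 * s → Br n c i 0 R hh → ‖y‖ ≤ (1 - ε1) * R → ‖v‖ ≤ (1 - ε1) * R → hh v = c →
    s ^ n ≤ ‖hh y - c‖ → ε' * s ≤ ‖v‖

/-- TRK. Branches which factor through a given branch `hh` of `f^(-i)` on `ball 0 (σ R)`.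
Proof: as `all_good` (`Lm.lean`) with `Br.unique` for `w ↦ f^(m-i) (G (w/σ))` (`Br.shift`) and `hh`
on `ball (σ Z) (σ d) ⊆ ball 0 (σ R)`; `GS.back` has to be proved with `G' j W = G j W`. -/
def S_TRK : Prop := ∀ (n : ℕ) (c x : ℂ) (r : ℝ) (ν : ℂ → ℂ) (A : ℝ) (U : Ultrafilter ℕ)
  (σ : ℕ → ℝ), Cx n c x r ν A U σ → ∀ (R : ℝ) (m i : ℕ → ℕ) (hh : ℕ → ℂ → ℂ), 0 < R →
  IsPreconnected (ball (0 : ℂ) R \ Lim U σ (PC n c)) →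
  (∀ᶠ j in (U : Filter ℕ), i j < m j ∧ Br n c (i j) 0 (σ j * R) (hh j)) →
  ∀ (Z0 : ℂ) (d0 M0 : ℝ) (G0 : ℕ → ℂ → ℂ), Z0 ∈ ball (0 : ℂ) R → Z0 ∉ Lim U σ (PC n c) →
  0 < d0 → 0 ≤ M0 → GS n c x U σ Z0 d0 M0 m G0 →
  (∀ᶠ j in (U : Filter ℕ), orb n c (G0 j Z0) (m j - i j) = hh j (σ j * Z0)) →
  ∀ Z ∈ ball (0 : ℂ) R, Z ∉ Lim U σ (PC n c) → ∃ (d M : ℝ) (G : ℕ → ℂ → ℂ), 0 < d ∧ 0 ≤ M ∧
    GS n c x U σ Z d M m G ∧
      ∀ᶠ j in (U : Filter ℕ), orb n c (G j Z) (m j - i j) = hh j (σ j * Z)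

/-- NF. A branch which factors through `hh` does not extend over the critical value `v` of `hh`.
Proof: if it extends to `G`, then `f^(m-i) (G (w/s)) = hh w` on `ball (s a) (s ρ (1+δ))` by
`Br.unique`, so `f^(m-i) = c` at `G (v/s)` and `f^(m-i-1) = 0` there, against
`Br.orb_ne_zero`. -/
def S_NF : Prop := ∀ (n : ℕ) (c : ℂ) (s R : ℝ) (m i : ℕ) (hh : ℂ → ℂ) (a : ℂ) (ρ δ : ℝ)
  (y v : ℂ), 2 ≤ n → 0 < s → 0 < ρ → 0 < δ → i < m → Br n c i 0 (s * R) hh →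
  ‖a‖ + ρ * (1 + δ) ≤ R → orb n c y (m - i) = hh (s * (a + ρ)) → hh v = c →
  ‖v - s * a‖ < s * (ρ * (1 + δ)) → ¬ Full n c s m a ρ δ y

/-- AEC. Almost every circle about a given centre is free. Proof: NULL for `f z = ‖z - a‖`, and
compactness: every point of the compact annulus has a free ball. -/
def S_AEC : Prop := ∀ (n : ℕ) (c : ℂ) (U : Ultrafilter ℕ) (σ : ℕ → ℝ), (∀ j, 0 < σ j) →
  IsClosed (Lim U σ (PC n c)) →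
  (∀ f : ℂ → ℝ, LipschitzWith 1 f → volume (f '' Lim U σ (PC n c)) = 0) → ∀ a : ℂ,
  ∀ᵐ r : ℝ, 0 < r → ∃ δ : ℝ, 0 < δ ∧ δ < 1 ∧ FA n c U σ a r δ ∧
    ∀ z : ℂ, r * (1 - δ) ≤ ‖z - a‖ → ‖z - a‖ ≤ r * (1 + δ) → z ∉ Lim U σ (PC n c)

/-- INTN. Integrability of the limit `N`. Proof: every ball of radius `< infDist Z Lim` is
`Free` (compactness), so `‖N Z‖ ≤ C0 / infDist Z Lim`; `N` is continuous on the open set `Limᶜ`
and `Lim` is null. -/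
def S_INTN : Prop := ∀ (n : ℕ) (c : ℂ) (U : Ultrafilter ℕ) (σ : ℕ → ℝ) (C0 : ℝ) (N : ℂ → ℂ),
  (∀ j, 0 < σ j) → 0 ≤ C0 → IsClosed (Lim U σ (PC n c)) → (Lim U σ (PC n c)).Nonempty →
  volume (Lim U σ (PC n c)) = 0 →
  (∀ R : ℝ, IntegrableOn (fun z => (infDist z (Lim U σ (PC n c)))⁻¹) (ball 0 R)) →
  DifferentiableOn ℂ N (Lim U σ (PC n c))ᶜ →
  (∀ (Z : ℂ) (d : ℝ), 0 < d → Free n c U σ Z d → ‖N Z‖ ≤ C0 / d) →
  ∀ R : ℝ, IntegrableOn N (ball 0 R)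

/-- BASE. Base sequences from ENTRY at the scales `q σ j`. Proof: let `G j W = g (σ j W)` with `g`
from the hypothesis at the scale `q σ j`; `z_l / σ j` is bounded, let `Y` be its limit along `U`
and `Z0 ∉ Lim` within `κq/100` of `Y`, `d = κq/10`. The cone condition at `Z0` by Koebe
(`SB.move` from `z_l / σ j`, where `G j = x`). -/
def S_BASE : Prop := ∀ (n : ℕ) (c x : ℂ) (r : ℝ) (ν : ℂ → ℂ) (A : ℝ) (U : Ultrafilter ℕ)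
  (σ : ℕ → ℝ), Cx n c x r ν A U σ → ∀ (C1 κ ρ0 q : ℝ), 0 < C1 → 0 < κ → 0 < ρ0 → 0 < q →
  (∀ ρ : ℝ, 0 < ρ → ρ ≤ ρ0 → ∃ (l : ℕ) (g : ℂ → ℂ), Br n c l (orb n c x l) (κ * ρ) g ∧
    g (orb n c x l) = x ∧ ‖orb n c x l‖ ≤ C1 * ρ ∧ ∀ i < l, ρ ≤ ‖orb n c x i‖) →
  (∀ (Z : ℂ) (e : ℝ), 0 < e → ∃ W ∈ ball Z e, W ∉ Lim U σ (PC n c)) →
  ∃ (l : ℕ → ℕ) (Z0 : ℂ) (d M : ℝ) (G : ℕ → ℂ → ℂ), Z0 ∉ Lim U σ (PC n c) ∧ 0 < d ∧ 0 ≤ M ∧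
    GS n c x U σ Z0 d M l G ∧ ∀ᶠ j in (U : Filter ℕ), ‖orb n c x (l j)‖ ≤ C1 * (q * σ j) ∧
      (∀ i < l j, q * σ j ≤ ‖orb n c x i‖) ∧ orb n c x (l j) / σ j ∈ ball Z0 d ∧
      G j (orb n c x (l j) / σ j) = x

/-- FNC. A full centred disc makes the line field nearly constant around the critical point.
Proof: with the branch `G` on `ball 0 (r0 (1+δ))`, `G r0 = y` and the cone condition at `r0`
(`KC.rad_lip2`, `KC.rad` move it to `0`), apply `near_const_ph` with `p = 0`,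
`ρ = s r0 (1 + δ)`, `σ = s`, and SM for `s |G' 0| ≤ δ0`. -/
def S_FNC : Prop := ∀ (n : ℕ) (c : ℂ) (r : ℝ) (ν : ℂ → ℂ) (A : ℝ) (x : ℂ),
  Q n c r → Dense (K n c)ᶜ → Inv n c ν A → GP n c ν x → ∀ θ : ℝ, 0 < θ →
  ∃ R0 : ℝ, 0 < R0 ∧ ∀ (r0 δ d M : ℝ), R0 ≤ r0 → 0 < δ → δ < 1 → 0 < d → 0 ≤ M →
    ∃ s0 : ℝ, 0 < s0 ∧ ∀ (s : ℝ) (m : ℕ) (G : ℂ → ℂ), 0 < s → s ≤ s0 →
      SB n c x s m r0 d M G → Full n c s m 0 r0 δ (G r0) → NCz ν x θ s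

end Pool.Agent.J4H16.AS
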