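import Mathlib
import Pool.Agent.J4H16.AS.Defs2

/-!
# The circle theorem: preparations
-/

set_option autoImplicit false
open Set Filter Topology Metric Complex MeasureTheory
open scoped ComplexConjugate

namespace Pool.Agent.J4H16.AS

open Pool.Agent.J4H16 Pool.Agent.W746.LD

variable {n : ℕ} {c x : ℂ} {r : ℝ} {ν : ℂ → ℂ} {A : ℝ} {U : Ultrafilter ℕ} {σ : ℕ → ℝ}
variable {C0 c0 : ℝ} {a : ℂ} {ρ δ M : ℝ} {m : ℕ → ℕ} {N : ℂ → ℂ}

/-- The tools. -/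
structure TL (C0 c0 : ℝ) : Prop where
  K : KC C0 c0
  LIFT : S_LIFT
  UNIQ : S_UNIQ
  MONT : S_MONT
  SM : S_SM
  ROT : S_ROT
  ROT2 : S_ROT2
  SYM : S_SYM
  HOPF : S_HOPF

theorem Cx.ev (C : Cx n c x r ν A U σ) {s0 : ℝ} (hs0 : 0 < s0) :
    ∀ᶠ j in (U : Filter ℕ), σ j ≤ s0 :=
  (C.lim.eventually (Iio_mem_nhds hs0)).mono fun _ hj => le_of_lt hj

theorem SB.uniq {s : ℝ} {m : ℕ} {Z x' : ℂ} {d d' M M' : ℝ} {G G' : ℂ → ℂ} (hn : 2 ≤ n)
    (h : SB n c x s m Z d M G) (h' : SB n c x' s m Z d' M' G') (hs : 0 < s) (hd : 0 < d)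
    (hd' : 0 < d') (h0 : G Z = G' Z) : ∀ W ∈ ball Z (min d d'), G W = G' W := by
  have hs' : (s : ℂ) ≠ 0 := by exact_mod_cast hs.ne'
  have h1 := (h.br hs).mono (p' := (s : ℂ) * Z) (ρ' := s * min d d')
    (ball_subset_ball (by gcongr; exact min_le_left _ _))
  have h2 := (h'.br hs).mono (p' := (s : ℂ) * Z) (ρ' := s * min d d')
    (ball_subset_ball (by gcongr; exact min_le_right _ _))
  have hp : 0 < min d d' := lt_min hd hd'
  intro W hW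
  have h3 := h1.unique hn h2 (w0 := (s : ℂ) * Z) (mem_ball_self (by positivity))
    (by rw [mul_div_cancel_left₀ _ hs', h0]) ((s : ℂ) * W) (by
      rw [mem_ball, dist_eq_norm] at hW ⊢
      rw [← mul_sub, norm_mul, Complex.norm_real, Real.norm_of_nonneg hs.le]
      gcongr)
  rw [mul_div_cancel_left₀ _ hs'] at h3
  exact h3

theorem SB.uniq_deriv {s : ℝ} {m : ℕ} {Z x' : ℂ} {d d' M M' : ℝ} {G G' : ℂ → ℂ} (hn : 2 ≤ n)
    (h : SB n c x s m Z d M G) (h' : SB n c x' s m Z d' M' G') (hs : 0 < s) (hd : 0 < d)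
    (hd' : 0 < d') (h0 : G Z = G' Z) : deriv G Z = deriv G' Z := by
  apply Filter.EventuallyEq.deriv_eq
  filter_upwards [isOpen_ball.mem_nhds (mem_ball_self (lt_min hd hd'))] with W hW
  exact h.uniq hn h' hs hd hd' h0 W hW

theorem exp_lt_of_strip {l : ℝ} {w : ℂ} (hw : w ∈ strip l) :
    Real.exp (-l) < Real.exp w.re ∧ Real.exp w.re < Real.exp l := by
  unfold strip at hw
  rw [Set.mem_ofPred_eq, abs_lt] at hw
  exact ⟨Real.exp_lt_exp.mpr hw.1, Real.exp_lt_exp.mpr hw.2⟩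

theorem norm_rexp (s ρ : ℝ) (hs : 0 < s) (hρ : 0 < ρ) (a w : ℂ) :
    ‖(s : ℂ) * (a + ρ * exp w) - s * a‖ = s * ρ * Real.exp w.re := by
  have : (s : ℂ) * (a + ρ * exp w) - s * a = s * (ρ * exp w) := by ring
  rw [this, norm_mul, norm_mul, Complex.norm_real, Complex.norm_real, Real.norm_of_nonneg hs.le,
    Real.norm_of_nonneg hρ.le, Complex.norm_exp]
  ring

/-- The exponential parametrization avoids the postcritical set. -/
theorem strip_not_mem {s : ℝ} (hs : 0 < s) (hρ : 0 < ρ) (hδ : 0 < δ)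
    (hp : ∀ p ∈ PC n c, ¬ (s * ρ * (1 - δ) < ‖p - s * a‖ ∧ ‖p - s * a‖ < s * ρ * (1 + δ))) {w : ℂ}
    (hw : w ∈ strip (Real.log (1 + δ))) : (s : ℂ) * (a + ρ * exp w) ∉ PC n c := by
  intro hmem
  apply hp _ hmem
  rw [norm_rexp s ρ hs hρ]
  obtain ⟨h1, h2⟩ := exp_lt_of_strip hw
  rw [Real.exp_log (by linarith)] at h2
  rw [Real.exp_neg, Real.exp_log (by linarith)] at h1
  have h3 : 1 - δ < (1 + δ)⁻¹ := by
    rw [inv_eq_one_div, lt_div_iff₀ (by linarith)]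
    nlinarith
  have h4 : 0 < s * ρ := by positivity
  constructor
  · exact mul_lt_mul_of_pos_left (h3.trans h1) h4
  · exact mul_lt_mul_of_pos_left h2 h4

/-- Existence of lifts. -/
theorem exists_LS (T : TL C0 c0) (C : Cx n c x r ν A U σ) (hρ : 0 < ρ) (hδ : 0 < δ)
    (hF : FA n c U σ a ρ δ) {d : ℝ} (hd : 0 < d) {G : ℕ → ℂ → ℂ}
    (hG : GS n c x U σ (a + ρ) d M m G) :
    ∃ H : ℕ → ℂ → ℂ, LS n c x U σ a ρ δ (M / ρ) m H ∧
      ∀ᶠ j in (U : Filter ℕ), H j 0 = G j (a + ρ) ∧ deriv (H j) 0 = deriv (G j) (a + ρ) * ρ := by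
  have hl : 0 < Real.log (1 + δ) := Real.log_pos (by linarith)
  have key : ∀ᶠ j in (U : Filter ℕ), ∃ H : ℂ → ℂ,
      EL n c (σ j) (m j) a ρ (Real.log (1 + δ)) H ∧ ‖H 0 - x‖ ≤ M / ρ * ‖deriv H 0‖ ∧
        H 0 = G j (a + ρ) ∧ deriv H 0 = deriv (G j) (a + ρ) * ρ := by
    filter_upwards [hF, hG] with j hf hg
    have hs := C.pos j
    obtain ⟨H, h1, h2, h3⟩ := T.LIFT n c (m j) (strip (Real.log (1 + δ)))
      (fun w => σ j * (a + ρ * exp w)) 0 (G j (a + ρ)) C.h.hn (isOpen_strip _) (convex_strip _)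
      (zero_mem_strip hl) (by fun_prop) (fun w hw => strip_not_mem hs hρ hδ hf hw) (by
        rw [hg.eq _ (mem_ball_self hd), Complex.exp_zero, mul_one])
    have hEL : EL n c (σ j) (m j) a ρ (Real.log (1 + δ)) H := ⟨h1, h3⟩
    have hdd := dd_pos hρ hδ
    have h0 : (0 : ℂ) ∈ strip (Real.log (1 + δ) / 2) := zero_mem_strip (log_half hδ)
    obtain ⟨G', g1, g2, g3, g4, g5, g6⟩ := hEL.local T.LIFT T.UNIQ C.h.hn hs hρ
      (zero_mem_strip hl) hdd (fun p hp => free_strip hs hρ (hf p hp) h0)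
    rw [Complex.exp_zero, mul_one] at g1 g2 g3 g4 g5 g6
    have hsb : SB n c (G' (a + ρ)) (σ j) (m j) (a + ρ) (dd ρ δ) 0 G' := ⟨g1, g2, by simp⟩
    have e := hg.uniq_deriv C.h.hn hsb hs hd hdd (by rw [g3, h2])
    refine ⟨H, hEL, ?_, h2, by rw [g4, e]⟩
    have hρC : ‖(ρ : ℂ)‖ = ρ := by rw [Complex.norm_real, Real.norm_of_nonneg hρ.le]
    rw [g4, ← e, norm_mul, hρC, h2]
    have e2 : M / ρ * (‖deriv (G j) (a + ρ)‖ * ρ) = M * ‖deriv (G j) (a + ρ)‖ := by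
      field_simp
    rw [e2]
    exact hg.cone
  obtain ⟨H, hH⟩ := key.choice
  exact ⟨H, hH.mono fun j hj => ⟨hj.1, hj.2.1⟩, hH.mono fun j hj => hj.2.2⟩

theorem tendsto_ph {f : ℕ → ℂ} {u : ℂ} (hu : u ≠ 0) (hf : Tendsto f (U : Filter ℕ) (𝓝 u)) :
    Tendsto (fun j => ph (f j)) (U : Filter ℕ) (𝓝 (ph u)) := by
  unfold ph
  exact ((Complex.continuous_conj.tendsto u).comp hf).div hf hu

theorem ph_div {u v : ℂ} : ph (u / v) = ph u / ph v := by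
  rw [div_eq_mul_inv, ph_mul, ph_inv, div_eq_mul_inv]

/-- Limits of lifts. -/
structure HT (n : ℕ) (c x : ℂ) (U : Ultrafilter ℕ) (σ : ℕ → ℝ) (N : ℂ → ℂ) (a : ℂ) (ρ δ M : ℝ)
    (m : ℕ → ℕ) (H : ℕ → ℂ → ℂ) (F : ℂ → ℂ) : Prop where
  ls : LS n c x U σ a ρ δ M m H
  hl : HL N a ρ (Real.log (1 + δ) / 2) F
  t0 : ∀ w ∈ strip (Real.log (1 + δ) / 2),
        Tendsto (fun j => (H j w - H j 0) / deriv (H j) 0) (U : Filter ℕ) (𝓝 (F w))
  t1 : ∀ w ∈ strip (Real.log (1 + δ) / 2),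
        Tendsto (fun j => deriv (H j) w / deriv (H j) 0) (U : Filter ℕ) (𝓝 (deriv F w))
  t2 : ∀ w ∈ strip (Real.log (1 + δ) / 2),
        Tendsto (fun j => deriv (deriv (H j)) w / deriv (H j) w) (U : Filter ℕ)
          (𝓝 (Bf N a ρ w))

theorem LS.ht (T : TL C0 c0) (C : Cx n c x r ν A U σ) (hN : LN n c x U σ N) (hρ : 0 < ρ)
    (hδ : 0 < δ) (hM : 0 ≤ M) (hF : FA n c U σ a ρ δ) {H : ℕ → ℂ → ℂ}
    (h : LS n c x U σ a ρ δ M m H) : ∃ F, HT n c x U σ N a ρ δ M m H F := by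
  obtain ⟨F, h1, h2, h3, h4⟩ := h.limit T.K T.LIFT T.UNIQ T.MONT C hN hρ hδ hM hF
  exact ⟨F, h, h1, h2, h3, h4⟩

theorem HT.ne0 (C : Cx n c x r ν A U σ) (T : TL C0 c0) (hρ : 0 < ρ)
    (hδ : 0 < δ) (hF : FA n c U σ a ρ δ) {H : ℕ → ℂ → ℂ} {F : ℂ → ℂ}
    (h : HT n c x U σ N a ρ δ M m H F) {w : ℂ} (hw : w ∈ strip (Real.log (1 + δ) / 2)) :
    ∀ᶠ j in (U : Filter ℕ), deriv (H j) w ≠ 0 := by
  filter_upwards [hF, h.ls] with j hf hj
  exact (hj.1.bounds T.K T.LIFT T.UNIQ C.h.hn (C.pos j) hρ hδ hf hw).1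

/-- The arguments of the derivatives at two parameters of the same point. -/
theorem HT.ph_eq (T : TL C0 c0) (C : Cx n c x r ν A U σ) (hρ : 0 < ρ)
    (hδ : 0 < δ) (hM : 0 ≤ M) (hF : FA n c U σ a ρ δ) {H : ℕ → ℂ → ℂ} {F : ℂ → ℂ}
    (h : HT n c x U σ N a ρ δ M m H F) {w1 w2 : ℂ} (hw1 : w1 ∈ strip (Real.log (1 + δ) / 2))
    (hw2 : w2 ∈ strip (Real.log (1 + δ) / 2)) (he : exp w1 = exp w2) :
    ph (deriv F w1) = ph (deriv F w2) := by
  have h0 : (0 : ℂ) ∈ strip (Real.log (1 + δ) / 2) := zero_mem_strip (log_half hδ)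
  have hdd := dd_pos hρ hδ
  obtain ⟨M1, G1, hM1, hG1, e1⟩ := h.ls.good T.K T.LIFT T.UNIQ C hρ hδ hM hF hw1
  obtain ⟨M2, G2, hM2, hG2, e2⟩ := h.ls.good T.K T.LIFT T.UNIQ C hρ hδ hM hF hw2
  rw [← he] at hG2 e2
  have q1 := tendsto_ph (h.hl.ne _ hw1) (h.t1 w1 hw1)
  have q2 := tendsto_ph (h.hl.ne _ hw2) (h.t1 w2 hw2)
  have hu : (ρ : ℂ) * exp w1 ≠ 0 :=
    mul_ne_zero (by exact_mod_cast hρ.ne') (Complex.exp_ne_zero _)
  have hdiff : Tendsto (fun j => ph (deriv (H j) w1 / deriv (H j) 0) -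
      ph (deriv (H j) w2 / deriv (H j) 0)) (U : Filter ℕ) (𝓝 0) := by
    rw [Metric.tendsto_nhds]
    intro ε hε
    obtain ⟨s0, hs0, hN⟩ := near_real T.SM C.h C.hd C.hI C.hx ‖a + ρ * exp w1‖ (d := dd ρ δ)
      (M := max M1 M2) (θ := ε / 2) hdd (le_max_of_le_left hM1) (half_pos hε)
    filter_upwards [hG1, hG2, e1, e2, C.ev hs0, h.ne0 C T hρ hδ hF h0] with j a1 a2 b1 b2 hs hne
    have h5 := hN (σ j) _ (m j) (m j) (G1 j) (G2 j) (C.pos j) hs le_rfl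
      (a1.mono le_rfl (le_max_left _ _)) (a2.mono le_rfl (le_max_right _ _))
    rw [dist_zero_right, ph_div, ph_div, ← sub_div, norm_div, norm_ph hne, div_one, b1.2.1, b2.2.1,
      ph_mul, ph_mul (deriv (G2 j) _), ← sub_mul, norm_mul, norm_ph hu, mul_one]
    linarith
  have q3 := q1.sub q2
  have := tendsto_nhds_unique q3 hdiff
  exact sub_eq_zero.mp this

theorem ph_one_real {u : ℂ} (hu : u ≠ 0) (h : ph u = 1) : ∃ t : ℝ, u = t := by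
  unfold ph at h
  rw [div_eq_one_iff_eq hu] at h
  exact (Complex.conj_eq_iff_real.mp h)

/-- Separation of the values. -/
theorem HT.sep (T : TL C0 c0) (C : Cx n c x r ν A U σ) (hρ : 0 < ρ)
    (hδ : 0 < δ) (hM : 0 ≤ M) (hF : FA n c U σ a ρ δ) {H : ℕ → ℂ → ℂ} {F : ℂ → ℂ}
    (h : HT n c x U σ N a ρ δ M m H F) {w1 w2 : ℂ} (hw1 : w1 ∈ strip (Real.log (1 + δ) / 2))
    (hw2 : w2 ∈ strip (Real.log (1 + δ) / 2))
    (hne : exp w1 ≠ exp w2 ∨ ∀ᶠ j in (U : Filter ℕ), H j w1 ≠ H j w2) : F w1 ≠ F w2 := by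
  have h0 : (0 : ℂ) ∈ strip (Real.log (1 + δ) / 2) := zero_mem_strip (log_half hδ)
  have hdd := dd_pos hρ hδ
  have hc0 := T.K.pos
  have hρC : (ρ : ℂ) ≠ 0 := by exact_mod_cast hρ.ne'
  obtain ⟨M1, G1, hM1, hG1, e1⟩ := h.ls.good T.K T.LIFT T.UNIQ C hρ hδ hM hF hw1
  set Z1 : ℂ := a + ρ * exp w1 with hZ1
  set Z2 : ℂ := a + ρ * exp w2 with hZ2
  obtain ⟨d', hd', hd'2, hd'3⟩ : ∃ d' : ℝ, 0 < d' ∧ d' ≤ dd ρ δ ∧ (Z2 = Z1 ∨ Z2 ∉ ball Z1 d') := by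
    by_cases he : Z2 = Z1
    · exact ⟨dd ρ δ, hdd, le_rfl, Or.inl he⟩
    · refine ⟨min (dd ρ δ) ‖Z2 - Z1‖, lt_min hdd (norm_pos_iff.mpr (sub_ne_zero.mpr he)),
        min_le_left _ _, Or.inr ?_⟩
      rw [mem_ball, dist_eq_norm]
      push Not
      exact min_le_right _ _
  set κ : ℝ := c0 * d' / ‖(ρ : ℂ) * exp w1‖ with hκ
  have hu : 0 < ‖(ρ : ℂ) * exp w1‖ := norm_pos_iff.mpr (mul_ne_zero hρC (Complex.exp_ne_zero _))
  have hκ0 : 0 < κ := by positivity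
  have hbd : ∀ᶠ j in (U : Filter ℕ), κ * ‖deriv (H j) w1 / deriv (H j) 0‖ ≤
      ‖(H j w1 - H j 0) / deriv (H j) 0 - (H j w2 - H j 0) / deriv (H j) 0‖ := by
    have hev : ∀ᶠ j in (U : Filter ℕ), H j w2 ≠ H j w1 := by
      rcases hne with hne | hne
      · filter_upwards [h.ls] with j hj heq
        have a1 := hj.1.eq w1 (strip_half hδ hw1)
        have a2 := hj.1.eq w2 (strip_half hδ hw2)
        rw [← heq, a2] at a1
        have hs : (σ j : ℂ) ≠ 0 := by exact_mod_cast (C.pos j).ne'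
        have a3 := mul_left_cancel₀ hs a1
        have a4 := add_left_cancel a3
        exact hne (mul_left_cancel₀ hρC a4).symm
      · filter_upwards [hne] with j hj heq
        exact hj heq.symm
    filter_upwards [hG1, e1, hev, h.ls, h.ne0 C T hρ hδ hF h0] with j b1 b2 b3 b4 b5
    have b6 : SB n c x (σ j) (m j) Z1 d' M1 (G1 j) := b1.mono hd'2 le_rfl
    have b7 := b6.sep T.K (C.pos j) hd' (b4.1.eq w2 (strip_half hδ hw2)) hd'3
      (by rw [b2.1]; exact b3)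
    rw [b2.1] at b7
    have b8 : (H j w1 - H j 0) / deriv (H j) 0 - (H j w2 - H j 0) / deriv (H j) 0 =
      (H j w1 - H j w2) / deriv (H j) 0 := by ring
    rw [b8, norm_div, norm_div, ← mul_div_assoc]
    apply div_le_div_of_nonneg_right _ (norm_nonneg _)
    rw [norm_sub_rev]
    refine le_trans (le_of_eq ?_) b7
    rw [b2.2.1, norm_mul, hκ]
    field_simp
  have l1 := ((h.t1 w1 hw1).norm).const_mul κ
  have l2 := ((h.t0 w1 hw1).sub (h.t0 w2 hw2)).norm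
  have l3 := le_of_tendsto_of_tendsto l1 l2 hbd
  intro heq
  rw [heq, sub_self, norm_zero] at l3
  have := norm_pos_iff.mpr (h.hl.ne _ hw1)
  nlinarith [mul_pos hκ0 this]

end Pool.Agent.J4H16.AS
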