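import Mathlib
import Pool.Agent.J4H16.AS.Ci3

/-!
# The circle theorem: the multiplier of the monodromy is a sign
-/

set_option autoImplicit false
open Set Filter Topology Metric Complex MeasureTheory
open scoped ComplexConjugate

namespace Pool.Agent.J4H16.AS

open Pool.Agent.J4H16 Pool.Agent.W746.LD

variable {n : ℕ} {c x : ℂ} {r : ℝ} {ν : ℂ → ℂ} {A : ℝ} {U : Ultrafilter ℕ} {σ : ℕ → ℝ}
variable {C0 c0 : ℝ} {a : ℂ} {ρ δ M : ℝ} {m : ℕ → ℕ} {N : ℂ → ℂ}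

/-- The derivative of the limit is at most one at the parameters of the base point. -/
theorem norm_le_one (T : TL C0 c0) (C : Cx n c x r ν A U σ) (hN : LN n c x U σ N) (hρ : 0 < ρ)
    (hδ : 0 < δ) (hM : 0 ≤ M) (hF : FA n c U σ a ρ δ) {d : ℝ} (hd : 0 < d) {G : ℕ → ℂ → ℂ}
    (hG : GS n c x U σ (a + ρ) d M m G) {F : ℂ → ℂ} (hF' : HL N a ρ (Real.log (1 + δ) / 2) F)
    {w : ℂ} (hw : w ∈ strip (Real.log (1 + δ) / 2)) (he : exp w = 1) : ‖deriv F w‖ ≤ 1 := by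
  by_contra hcon
  push Not at hcon
  have hl := log_half hδ
  have h0 : (0 : ℂ) ∈ strip (Real.log (1 + δ) / 2) := zero_mem_strip hl
  have hdd := dd_pos hρ hδ
  set d1 : ℝ := min d (dd ρ δ) with hd1
  have hd10 : 0 < d1 := lt_min hd hdd
  set θ : ℝ := (‖deriv F w‖ - 1) / 2 with hθ
  have hθ0 : 0 < θ := by rw [hθ]; linarith
  set R : ℝ := (‖F w‖ / ‖deriv F w‖ + 1) * ρ with hR
  have hR0 : 0 < R := by positivity
  set M' : ℝ := max M (R * (1 + θ) / θ) with hM'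
  have hM'0 : 0 ≤ M' := hM.trans (le_max_left _ _)
  obtain ⟨s0, hs0, hSM⟩ := T.SM n c r C.h C.hd x ‖a + ρ‖ d1 M' 1 hd10 one_pos
  have key : ∀ᶠ j in (U : Filter ℕ), ∃ g, SB n c x (σ j) (m j) (a + ρ) d1 M' g ∧
      ∀ G', SB n c (g (a + ρ)) (σ j) (m j) (a + ρ) d1 R G' →
        ‖deriv G' (a + ρ)‖ < (1 + θ) * ‖deriv g (a + ρ)‖ := by
    filter_upwards [hG, C.ev hs0] with j hj hs
    exact no_better (C.pos j) hd10 hR0.le hθ0 (hj.mono (min_le_left _ _) le_rfl) (Bd := 1)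
      (fun G hG => (hSM (σ j) (m j) _ G (C.pos j) hs le_rfl hG).le)
  obtain ⟨g, hg⟩ := key.choice
  have hg1 : GS n c x U σ (a + ρ) d1 M' m g := hg.mono fun j hj => hj.1
  obtain ⟨H, hH, hH0⟩ := exists_LS T C hρ hδ hF hd10 hg1
  obtain ⟨F2, hF2⟩ := hH.ht T C hN hρ hδ (by positivity) hF
  have hu := hF2.hl.unique hl hF' w hw
  obtain ⟨M2, G2, hM2, hG2, e2⟩ := hH.good T.K T.LIFT T.UNIQ C hρ hδ (by positivity) hF hw
  rw [he, mul_one] at hG2 e2
  have hρC : ‖(ρ : ℂ)‖ = ρ := by rw [Complex.norm_real, Real.norm_of_nonneg hρ.le]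
  have hFne := norm_pos_iff.mpr (hF'.ne w hw)
  have l0 : Tendsto (fun j => ‖(H j w - H j 0) / deriv (H j) 0‖ / ‖deriv (H j) w / deriv (H j) 0‖)
      (U : Filter ℕ) (𝓝 (‖F w‖ / ‖deriv F w‖)) := by
    have a1 := (hF2.t0 w hw).norm
    have a2 := (hF2.t1 w hw).norm
    rw [hu.1] at a1
    rw [hu.2] at a2
    exact a1.div a2 hFne.ne'
  have l1 : ∀ᶠ j in (U : Filter ℕ), ‖(H j w - H j 0) / deriv (H j) 0‖ /
      ‖deriv (H j) w / deriv (H j) 0‖ < ‖F w‖ / ‖deriv F w‖ + 1 :=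
    l0.eventually (Iio_mem_nhds (by linarith))
  have l2 : ∀ᶠ j in (U : Filter ℕ), ‖deriv (H j) w / deriv (H j) 0‖ ≤ 1 + θ := by
    filter_upwards [hg, hH0, hG2, e2, l1, hF2.ne0 C T hρ hδ hF h0, hF2.ne0 C T hρ hδ hF hw]
      with j b1 b2 b3 b4 b5 b6 b7
    have hn0 := norm_pos_iff.mpr b6
    have hnw := norm_pos_iff.mpr b7
    have b8 : ‖H j w - H j 0‖ ≤ (‖F w‖ / ‖deriv F w‖ + 1) * ‖deriv (H j) w‖ := by
      rw [norm_div, norm_div, div_div_div_cancel_right₀ hn0.ne', div_lt_iff₀ hnw] at b5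
      exact b5.le
    have hsb : SB n c (g j (a + ρ)) (σ j) (m j) (a + ρ) d1 R (G2 j) := by
      refine ⟨(b3.mono (min_le_right _ _) le_rfl).diff, (b3.mono (min_le_right _ _) le_rfl).eq, ?_⟩
      rw [b4.1, ← b2.1]
      refine b8.trans (le_of_eq ?_)
      rw [b4.2.1, norm_mul, hρC, hR]
      ring
    have b9 := b1.2 (G2 j) hsb
    rw [norm_div, div_le_iff₀ hn0, b4.2.1, b2.2, norm_mul, norm_mul, hρC]
    nlinarith
  have l3 := (hF2.t1 w hw).norm
  rw [hu.2] at l3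
  have l4 := le_of_tendsto l3 l2
  rw [hθ] at l4
  linarith

theorem two_pi_mem {l : ℝ} (hl : 0 < l) : (2 * Real.pi * I : ℂ) ∈ strip l := by
  have := im_mem_strip hl (2 * Real.pi)
  push_cast at this
  rwa [mul_comm] at this

theorem neg_two_pi_mem {l : ℝ} (hl : 0 < l) : (-(2 * Real.pi * I) : ℂ) ∈ strip l := by
  have := im_mem_strip hl (-(2 * Real.pi))
  push_cast at this
  have e : (-(2 * Real.pi * I) : ℂ) = I * -(2 * Real.pi) := by ring
  rwa [e]

theorem exp_neg_two_pi : exp (-(2 * Real.pi * I) : ℂ) = 1 := by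
  rw [Complex.exp_neg, Complex.exp_two_pi_mul_I, inv_one]

/-- The multiplier is a sign. -/
theorem alpha (T : TL C0 c0) (C : Cx n c x r ν A U σ) (hN : LN n c x U σ N) (hρ : 0 < ρ)
    (hδ : 0 < δ) (hM : 0 ≤ M) (hF : FA n c U σ a ρ δ) {d : ℝ} (hd : 0 < d) {G : ℕ → ℂ → ℂ}
    (hG : GS n c x U σ (a + ρ) d M m G) {M' : ℝ} (hM' : 0 ≤ M') {H : ℕ → ℂ → ℂ} {F : ℂ → ℂ}
    (h : HT n c x U σ N a ρ δ M' m H F) :
    deriv F (2 * Real.pi * I) = 1 ∨ deriv F (2 * Real.pi * I) = -1 := by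
  have hl := log_half hδ
  have h0 : (0 : ℂ) ∈ strip (Real.log (1 + δ) / 2) := zero_mem_strip hl
  have h1 := two_pi_mem hl
  have h2 := neg_two_pi_mem hl
  have n1 := norm_le_one T C hN hρ hδ hM hF hd hG h.hl h1 Complex.exp_two_pi_mul_I
  have n2 := norm_le_one T C hN hρ hδ hM hF hd hG h.hl h2 exp_neg_two_pi
  have e1 := (h.hl.shift hl).1 _ h2
  rw [neg_add_cancel, h.hl.one] at e1
  have e2 : (1 : ℝ) = ‖deriv F (2 * Real.pi * I)‖ * ‖deriv F (-(2 * Real.pi * I))‖ := by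
    rw [← norm_mul, ← e1, norm_one]
  have e3 : ‖deriv F (2 * Real.pi * I)‖ = 1 := by
    apply le_antisymm n1
    nlinarith [norm_nonneg (deriv F (2 * Real.pi * I)), norm_nonneg (deriv F (-(2 * Real.pi * I)))]
  have hne := h.hl.ne _ h1
  have e4 := h.ph_eq T C hρ hδ hM' hF h1 h0 (by rw [Complex.exp_two_pi_mul_I, Complex.exp_zero])
  rw [h.hl.one, ph_one] at e4
  obtain ⟨t, ht⟩ := ph_one_real hne e4
  rw [ht] at e3 ⊢
  rw [Complex.norm_real, Real.norm_eq_abs] at e3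
  rcases eq_or_eq_neg_of_abs_eq e3 with h | h
  · left; rw [h]; norm_num
  · right; rw [h]; norm_num

/-- Integrals of the logarithmic derivatives. -/
theorem HT.integral (T : TL C0 c0) (C : Cx n c x r ν A U σ) (hρ : 0 < ρ)
    (hδ : 0 < δ) (hF : FA n c U σ a ρ δ) {H : ℕ → ℂ → ℂ} {F : ℂ → ℂ}
    (h : HT n c x U σ N a ρ δ M m H F) {L : ℝ} (hL : 0 ≤ L) {v : ℂ}
    (hv : ∀ᶠ j in (U : Filter ℕ),
      ∫ θ in (0 : ℝ)..L, deriv (deriv (H j)) (I * (θ : ℝ)) / deriv (H j) (I * (θ : ℝ)) = v) :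
    ∫ θ in (0 : ℝ)..L, Bf N a ρ (I * (θ : ℝ)) = v := by
  have hl := log_half hδ
  have ho := isOpen_strip (Real.log (1 + δ) / 2)
  have hC0 := T.K.one_le
  have hb : ∀ᶠ j in (U : Filter ℕ), DifferentiableOn ℂ (H j) (strip (Real.log (1 + δ) / 2)) ∧
      ∀ u ∈ strip (Real.log (1 + δ) / 2),
      deriv (H j) u ≠ 0 ∧ ‖deriv (deriv (H j)) u / deriv (H j) u‖ ≤ BB C0 ρ δ := by
    filter_upwards [hF, h.ls] with j hf hj
    exact ⟨hj.1.diff.mono (strip_half hδ), fun u hu =>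
      hj.1.bounds T.K T.LIFT T.UNIQ C.h.hn (C.pos j) hρ hδ hf hu⟩
  have hdq : ∀ᶠ j in (U : Filter ℕ), DifferentiableOn ℂ
      (fun w => deriv (deriv (H j)) w / deriv (H j) w) (strip (Real.log (1 + δ) / 2)) := by
    filter_upwards [hb] with j hj
    exact ((hj.1.deriv ho).deriv ho).div (hj.1.deriv ho) fun u hu => (hj.2 u hu).1
  obtain ⟨g, hg1, hg2⟩ := T.MONT U (fun j w => deriv (deriv (H j)) w / deriv (H j) w)
    (strip (Real.log (1 + δ) / 2)) ho hdq (by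
      intro S hS hSc
      refine ⟨BB C0 ρ δ, ?_⟩
      filter_upwards [hb] with j hj w hw
      exact (hj.2 w (hS hw)).2)
  have hgB : ∀ w ∈ strip (Real.log (1 + δ) / 2), Bf N a ρ w = g w := fun w hw =>
    tendsto_nhds_unique (h.t2 w hw) (hg2.tendsto_at hw)
  set γ : ℝ → ℂ := fun θ => I * (θ : ℝ) with hγ
  have hγc : Continuous γ := by fun_prop
  have hγm : ∀ θ, γ θ ∈ strip (Real.log (1 + δ) / 2) := fun θ => im_mem_strip hl θ
  set S : Set ℂ := γ '' Icc 0 L with hS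
  have hSc : IsCompact S := isCompact_Icc.image hγc
  have hSs : S ⊆ strip (Real.log (1 + δ) / 2) := by
    rintro _ ⟨θ, -, rfl⟩
    exact hγm θ
  have hunif := (tendstoLocallyUniformlyOn_iff_forall_isCompact ho).mp hg2 S hSs hSc
  rw [Metric.tendstoUniformlyOn_iff] at hunif
  have hgi : ∀ f : ℂ → ℂ, DifferentiableOn ℂ f (strip (Real.log (1 + δ) / 2)) →
      IntervalIntegrable (fun θ : ℝ => f (γ θ)) volume 0 L := by
    intro f hf
    apply Continuous.intervalIntegrable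
    exact hf.continuousOn.comp_continuous hγc hγm
  have e0 : ∫ θ in (0 : ℝ)..L, Bf N a ρ (I * (θ : ℝ)) = ∫ θ in (0 : ℝ)..L, g (γ θ) :=
    intervalIntegral.integral_congr fun θ _ => hgB _ (hγm θ)
  rw [e0]
  apply eq_of_forall_dist_le
  intro ε hε
  obtain ⟨j, j1, j2, j3⟩ := (hv.and (hdq.and (hunif (ε / (L + 1)) (by positivity)))).exists
  rw [dist_eq_norm, ← j1]
  have e1 : (∫ θ in (0 : ℝ)..L, g (γ θ)) -
      ∫ θ in (0 : ℝ)..L, deriv (deriv (H j)) (I * (θ : ℝ)) / deriv (H j) (I * (θ : ℝ)) =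
      ∫ θ in (0 : ℝ)..L, (g (γ θ) -
        deriv (deriv (H j)) (I * (θ : ℝ)) / deriv (H j) (I * (θ : ℝ))) :=
    (intervalIntegral.integral_sub (hgi g hg1) (hgi _ j2)).symm
  rw [e1]
  have e2 := intervalIntegral.norm_integral_le_of_norm_le_const (a := 0) (b := L)
    (C := ε / (L + 1)) (f := fun θ : ℝ => g (γ θ) -
        deriv (deriv (H j)) (I * (θ : ℝ)) / deriv (H j) (I * (θ : ℝ))) (by
      intro θ hθ
      rw [uIoc_of_le hL] at hθ
      have := j3 (γ θ) ⟨θ, Ioc_subset_Icc_self hθ, rfl⟩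
      rw [dist_eq_norm] at this
      exact this.le)
  refine e2.trans ?_
  rw [sub_zero, abs_of_nonneg hL, div_mul_eq_mul_div, div_le_iff₀ (by positivity)]
  nlinarith

/-- The integral over the circle. -/
theorem circle_int (hρ : 0 < ρ) (hc : ContinuousOn N (sphere a ρ)) :
    (∮ z in C(a, ρ), N z) = I * ((∫ θ in (0 : ℝ)..2 * Real.pi, Bf N a ρ (I * (θ : ℝ))) -
      2 * Real.pi) := by
  have h1 : ∀ θ : ℝ, circleMap a ρ θ = a + ρ * exp (I * (θ : ℝ)) := by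
    intro θ
    rw [circleMap, mul_comm I]
  have hcont : Continuous fun θ : ℝ => N (circleMap a ρ θ) :=
    hc.comp_continuous (continuous_circleMap a ρ) fun θ => circleMap_mem_sphere a hρ.le θ
  have h2 : (∮ z in C(a, ρ), N z) =
      ∫ θ in (0 : ℝ)..2 * Real.pi, I * (Bf N a ρ (I * (θ : ℝ)) - 1) := by
    unfold circleIntegral
    apply intervalIntegral.integral_congr
    intro θ _
    simp only [deriv_circleMap, smul_eq_mul]
    unfold Bf
    rw [← h1 θ, circleMap_zero, mul_comm I (θ : ℂ)]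
    ring
  have h3 : IntervalIntegrable (fun θ : ℝ => Bf N a ρ (I * (θ : ℝ))) volume 0 (2 * Real.pi) := by
    apply Continuous.intervalIntegrable
    unfold Bf
    have : (fun θ : ℝ => N (a + ρ * exp (I * (θ : ℝ)))) = fun θ => N (circleMap a ρ θ) := by
      funext θ
      rw [h1]
    have h4 : Continuous (fun θ : ℝ => N (a + ρ * exp (I * (θ : ℝ)))) := by rw [this]; exact hcont
    exact (h4.mul (by fun_prop)).add continuous_const
  rw [h2, intervalIntegral.integral_const_mul, intervalIntegral.integral_sub h3 (by simp)]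
  simp

end Pool.Agent.J4H16.AS
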