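import Mathlib
import Pool.Agent.J4H16.AS.Ci4

/-!
# The circle theorem
-/

set_option autoImplicit false
open Set Filter Topology Metric Complex MeasureTheory
open scoped ComplexConjugate

namespace Pool.Agent.J4H16.AS

open Pool.Agent.J4H16 Pool.Agent.W746.LD

variable {n : ℕ} {c x : ℂ} {r : ℝ} {ν : ℂ → ℂ} {A : ℝ} {U : Ultrafilter ℕ} {σ : ℕ → ℝ}
variable {C0 c0 : ℝ} {a : ℂ} {ρ δ M : ℝ} {m : ℕ → ℕ} {N : ℂ → ℂ}

/-- Full lifts are periodic. -/
theorem Full.periodic (T : TL C0 c0) (hn : 2 ≤ n) {s : ℝ} {m : ℕ} {H : ℂ → ℂ} (hs : 0 < s)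
    (hρ : 0 < ρ) (hδ : 0 < δ)
    (hp : ∀ p ∈ PC n c, ¬ (s * ρ * (1 - δ) < ‖p - s * a‖ ∧ ‖p - s * a‖ < s * ρ * (1 + δ)))
    (h : EL n c s m a ρ (Real.log (1 + δ)) H) (hf : Full n c s m a ρ δ (H 0)) :
    ∀ w ∈ strip (Real.log (1 + δ)), H (w + 2 * Real.pi * I) = H w := by
  obtain ⟨G, g1, g2, g3⟩ := hf
  have hl : 0 < Real.log (1 + δ) := Real.log_pos (by linarith)
  have hm : ∀ w ∈ strip (Real.log (1 + δ)), a + ρ * exp w ∈ ball a (ρ * (1 + δ)) := by
    intro w hw
    obtain ⟨-, h2⟩ := exp_lt_of_strip hw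
    rw [Real.exp_log (by linarith)] at h2
    rw [mem_ball, dist_eq_norm, add_sub_cancel_left, norm_mul, Complex.norm_real,
      Real.norm_of_nonneg hρ.le, Complex.norm_exp]
    gcongr
  have key := T.UNIQ n c m (strip (Real.log (1 + δ))) (fun w => s * (a + ρ * exp w)) H
    (fun w => G (a + ρ * exp w)) 0 hn (isOpen_strip _) (convex_strip _).isPreconnected
    (zero_mem_strip hl) (fun w hw => strip_not_mem hs hρ hδ hp hw) h.diff
    (g1.comp (by fun_prop) hm) h.eq (fun w hw => g2 _ (hm w hw))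
    (by simp only [Complex.exp_zero, mul_one]; exact g3.symm)
  intro w hw
  have hw2 : w + 2 * Real.pi * I ∈ strip (Real.log (1 + δ)) := by
    have := strip_shift hw (2 * Real.pi)
    push_cast at this
    exact this
  have e : exp (w + 2 * Real.pi * I) = exp w := Complex.exp_periodic w
  rw [key _ hw2, key _ hw, e]

theorem full_of_lf {s : ℝ} {m : ℕ} (hs : 0 < s) (hρ : 0 < ρ) (hδ : 0 < δ) {h : ℂ → ℂ}
    (hh : Lf n c m (fun ζ => s * a + ((s * ρ : ℝ) : ℂ) * (1 + δ) * ζ) h) :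
    Full n c s m a ρ δ (h (1 / (1 + δ))) := by
  have hpos : 0 < ρ * (1 + δ) := by positivity
  have hne : (ρ : ℂ) * (1 + δ) ≠ 0 := by exact_mod_cast hpos.ne'
  have hne2 : (1 : ℂ) + δ ≠ 0 := right_ne_zero_of_mul hne
  have hne1 : (ρ : ℂ) ≠ 0 := left_ne_zero_of_mul hne
  have hm : ∀ W ∈ ball a (ρ * (1 + δ)), (W - a) / (ρ * (1 + δ)) ∈ ball (0 : ℂ) 1 := by
    intro W hW
    rw [mem_ball, dist_eq_norm] at hW
    rw [mem_ball, dist_zero_right, norm_div]
    have : ‖(ρ : ℂ) * (1 + δ)‖ = ρ * (1 + δ) := by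
      have : (ρ : ℂ) * (1 + δ) = ((ρ * (1 + δ) : ℝ) : ℂ) := by push_cast; ring
      rw [this, Complex.norm_real, Real.norm_of_nonneg hpos.le]
    rw [this, div_lt_one hpos]
    exact hW
  refine ⟨fun W => h ((W - a) / (ρ * (1 + δ))), ?_, ?_, ?_⟩
  · exact hh.diff.comp (by fun_prop) hm
  · intro W hW
    have := hh.eq _ (hm W hW)
    rw [this]
    push_cast
    field_simp
    ring
  · have e : (a + ρ - a) / ((ρ : ℂ) * (1 + δ)) = 1 / (1 + δ) := by
      rw [add_sub_cancel_left]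
      field_simp
    show h ((a + ρ - a) / ((ρ : ℂ) * (1 + δ))) = h (1 / (1 + δ))
    rw [e]

/-- The tangent winding number of a full lift. -/
theorem lf_int {s : ℝ} {m : ℕ} (hs : 0 < s) (hρ : 0 < ρ) (hδ : 0 < δ) {h H : ℂ → ℂ}
    (hh : Lf n c m (fun ζ => s * a + ((s * ρ : ℝ) : ℂ) * (1 + δ) * ζ) h)
    (hH : ∀ w ∈ strip (Real.log (1 + δ)), H w = h (exp w / (1 + δ))) :
    ∫ θ in (0 : ℝ)..2 * Real.pi, deriv (deriv H) (I * (θ : ℝ)) / deriv H (I * (θ : ℝ)) =
      2 * Real.pi := by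
  have hl : 0 < Real.log (1 + δ) := Real.log_pos (by linarith)
  set κ : ℝ := 1 / (1 + δ) with hκ
  have hκ0 : 0 < κ := by positivity
  have hκ1 : κ < 1 := by rw [hκ, div_lt_one (by positivity)]; linarith
  have hpos : 0 < s * ρ * (1 + δ) := by positivity
  have huniv : Univ (fun ζ : ℂ => s * a + ((s * ρ : ℝ) : ℂ) * (1 + δ) * ζ) 0 1 := by
    constructor
    · fun_prop
    · intro u _ v _ huv
      have h1 := add_left_cancel huv
      have h2 : ((s * ρ : ℝ) : ℂ) * (1 + δ) ≠ 0 := by exact_mod_cast hpos.ne'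
      exact mul_left_cancel₀ h2 h1
  have hu := hh.univ huniv
  have hne : ∀ ζ ∈ ball (0 : ℂ) 1, deriv h ζ ≠ 0 := fun ζ hζ =>
    Pool.Agent.Helper202.Univ.deriv_ne_zero isOpen_ball hu.1 hu.2 hζ
  set q : ℂ → ℂ := fun ζ => deriv (deriv h) ζ / deriv h ζ with hq
  have hd1 : DifferentiableOn ℂ (deriv h) (ball 0 1) := hh.diff.deriv isOpen_ball
  have hd2 : DifferentiableOn ℂ (deriv (deriv h)) (ball 0 1) := hd1.deriv isOpen_ball
  have hqd : DifferentiableOn ℂ q (ball 0 1) := hd2.div hd1 hne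
  have hsub : closedBall (0 : ℂ) κ ⊆ ball 0 1 := closedBall_subset_ball hκ1
  have hC : (∮ z in C(0, κ), q z) = 0 := by
    apply Complex.circleIntegral_eq_zero_of_differentiable_on_off_countable hκ0.le
      Set.countable_empty (hqd.continuousOn.mono hsub)
    intro z hz
    exact hqd.differentiableAt (isOpen_ball.mem_nhds (hsub (ball_subset_closedBall hz.1)))
  have hm : ∀ w ∈ strip (Real.log (1 + δ)), (κ : ℂ) * exp w ∈ ball (0 : ℂ) 1 := by
    intro w hw
    obtain ⟨-, h2⟩ := exp_lt_of_strip hw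
    rw [Real.exp_log (by linarith)] at h2
    rw [mem_ball, dist_zero_right, norm_mul, Complex.norm_real, Real.norm_of_nonneg hκ0.le,
      Complex.norm_exp, hκ, one_div, inv_mul_lt_iff₀ (by positivity), mul_one]
    exact h2
  have hE : ∀ w, HasDerivAt (fun w : ℂ => (κ : ℂ) * exp w) (κ * exp w) w := fun w =>
    (Complex.hasDerivAt_exp w).const_mul (κ : ℂ)
  have ho := isOpen_strip (Real.log (1 + δ))
  have hH' : ∀ w ∈ strip (Real.log (1 + δ)), H w = h (κ * exp w) := by
    intro w hw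
    rw [hH w hw, hκ]
    congr 1
    push_cast
    ring
  have hD1 : ∀ w ∈ strip (Real.log (1 + δ)), deriv H w = deriv h (κ * exp w) * (κ * exp w) := by
    intro w hw
    have h1 : H =ᶠ[𝓝 w] fun w => h (κ * exp w) := by
      filter_upwards [ho.mem_nhds hw] with v hv
      exact hH' v hv
    rw [h1.deriv_eq]
    have h2 : HasDerivAt h (deriv h (κ * exp w)) (κ * exp w) :=
      (hh.diff.differentiableAt (isOpen_ball.mem_nhds (hm w hw))).hasDerivAt
    exact (h2.comp w (hE w)).deriv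
  have hD2 : ∀ w ∈ strip (Real.log (1 + δ)), deriv (deriv H) w / deriv H w = Bf q 0 κ w := by
    intro w hw
    have h1 : deriv H =ᶠ[𝓝 w] fun w => deriv h (κ * exp w) * (κ * exp w) := by
      filter_upwards [ho.mem_nhds hw] with v hv
      exact hD1 v hv
    have h2 : HasDerivAt (deriv h) (deriv (deriv h) (κ * exp w)) (κ * exp w) :=
      (hd1.differentiableAt (isOpen_ball.mem_nhds (hm w hw))).hasDerivAt
    have h3 := ((h2.comp w (hE w)).mul (hE w)).deriv
    have h4 : deriv (fun w => deriv h (κ * exp w) * (κ * exp w)) w = deriv (deriv h) (κ * exp w) *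
      (κ * exp w) * (κ * exp w) + deriv h (κ * exp w) * (κ * exp w) := h3
    rw [h1.deriv_eq, h4, hD1 w hw]
    have h5 := hne _ (hm w hw)
    have h6 : (κ : ℂ) ≠ 0 := by exact_mod_cast hκ0.ne'
    have h7 : exp w ≠ 0 := Complex.exp_ne_zero _
    unfold Bf
    simp only [hq, zero_add]
    field_simp
  have hsph : sphere (0 : ℂ) κ ⊆ ball 0 1 := sphere_subset_closedBall.trans hsub
  have h1 := circle_int (a := 0) (N := q) hκ0 (hqd.continuousOn.mono hsph)
  rw [hC] at h1
  have h2 : (∫ θ in (0 : ℝ)..2 * Real.pi, Bf q 0 κ (I * (θ : ℝ))) = 2 * Real.pi := by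
    have h3 := (mul_eq_zero.mp h1.symm).resolve_left Complex.I_ne_zero
    exact sub_eq_zero.mp h3
  rw [← h2]
  exact intervalIntegral.integral_congr fun θ _ => hD2 _ (im_mem_strip hl θ)

/-- The case of a translation. -/
theorem HT.translation (T : TL C0 c0) (C : Cx n c x r ν A U σ) (hρ : 0 < ρ)
    (hδ : 0 < δ) (hM : 0 ≤ M) (hF : FA n c U σ a ρ δ) {H : ℕ → ℂ → ℂ} {F : ℂ → ℂ}
    (h : HT n c x U σ N a ρ δ M m H F) (hα : deriv F (2 * Real.pi * I) = 1)
    (hb : F (2 * Real.pi * I) ≠ 0) :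
    ∫ θ in (0 : ℝ)..2 * Real.pi, Bf N a ρ (I * (θ : ℝ)) = 0 := by
  have hl := log_half hδ
  have h1 := T.HOPF F (Real.log (1 + δ) / 2) (F (2 * Real.pi * I)) hl hb h.hl.diff (by
    intro w hw
    rw [(h.hl.shift hl).2 w hw, hα, one_mul]) h.hl.ne (by
    intro θ s hs1 hs2
    apply h.sep T C hρ hδ hM hF (im_mem_strip hl _) (im_mem_strip hl _)
    left
    intro heq
    rw [Complex.exp_eq_exp_iff_exists_int] at heq
    obtain ⟨k, hk⟩ := heq
    have h2 : ((θ + s : ℝ) : ℂ) = (θ : ℂ) + k * (2 * Real.pi) := by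
      have h3 : I * ((θ + s : ℝ) : ℂ) = I * ((θ : ℂ) + k * (2 * Real.pi)) := by
        rw [hk]
        ring
      exact mul_left_cancel₀ Complex.I_ne_zero h3
    have h4 : θ + s = θ + k * (2 * Real.pi) := by exact_mod_cast h2
    have h5 : s = k * (2 * Real.pi) := by linarith
    have hpi := Real.pi_pos
    rcases lt_trichotomy k 0 with hk0 | hk0 | hk0
    · have : (k : ℝ) ≤ -1 := by exact_mod_cast Int.le_sub_one_of_lt hk0
      nlinarith
    · rw [hk0] at h5
      simp at h5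
      linarith
    · have : (1 : ℝ) ≤ k := by exact_mod_cast hk0
      nlinarith)
  rw [← h1]
  exact intervalIntegral.integral_congr fun θ _ => (h.hl.ode _ (im_mem_strip hl θ)).symm

/-- In degree two the multiplier over a centred circle is positive. -/
theorem HT.centred (T : TL C0 c0) (C : Cx n c x r ν A U σ) (hn2 : n = 2) (hρ : 0 < ρ)
    (hδ : 0 < δ) (hM : 0 ≤ M) (hF : FA n c U σ 0 ρ δ) {H : ℕ → ℂ → ℂ} {F : ℂ → ℂ}
    (h : HT n c x U σ N 0 ρ δ M m H F) : deriv F (2 * Real.pi * I) ≠ -1 := by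
  subst hn2
  have hl := log_half hδ
  have h0 : (0 : ℂ) ∈ strip (Real.log (1 + δ) / 2) := zero_mem_strip hl
  have hdd := dd_pos hρ hδ
  have ho := isOpen_strip (Real.log (1 + δ) / 2)
  have hs : ∀ w ∈ strip (Real.log (1 + δ) / 2), w + Real.pi * I ∈ strip (Real.log (1 + δ) / 2) :=
    fun w hw => strip_shift hw Real.pi
  have hph : ∀ w ∈ strip (Real.log (1 + δ) / 2),
      ph (deriv F (w + Real.pi * I)) = ph (deriv F w) := by
    intro w hw
    obtain ⟨M1, G1, hM1, hG1, e1⟩ := h.ls.good T.K T.LIFT T.UNIQ C hρ hδ hM hF hw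
    obtain ⟨M2, G2, hM2, hG2, e2⟩ := h.ls.good T.K T.LIFT T.UNIQ C hρ hδ hM hF (hs w hw)
    have hexp : exp (w + Real.pi * I) = - exp w := by
      rw [Complex.exp_add, Complex.exp_pi_mul_I]
      ring
    have hZ : (0 : ℂ) + ρ * exp (w + Real.pi * I) = -(0 + ρ * exp w) := by
      rw [hexp]
      ring
    rw [hZ] at hG2 e2
    rw [hexp] at e2
    have q1 := tendsto_ph (h.hl.ne _ hw) (h.t1 w hw)
    have q2 := tendsto_ph (h.hl.ne _ (hs w hw)) (h.t1 _ (hs w hw))
    have hu : (ρ : ℂ) * exp w ≠ 0 :=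
      mul_ne_zero (by exact_mod_cast hρ.ne') (Complex.exp_ne_zero _)
    have hneg : ph ((ρ : ℂ) * - exp w) = ph ((ρ : ℂ) * exp w) := by
      unfold ph
      rw [mul_neg, map_neg, neg_div_neg_eq]
    have hdiff : Tendsto (fun j => ph (deriv (H j) w / deriv (H j) 0) -
        ph (deriv (H j) (w + Real.pi * I) / deriv (H j) 0)) (U : Filter ℕ) (𝓝 0) := by
      rw [Metric.tendsto_nhds]
      intro ε hε
      obtain ⟨s0, hs0, hN⟩ := T.SYM c r ν A x C.h C.hd C.hI C.hx ‖0 + ρ * exp w‖ (dd ρ δ)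
        (max M1 M2) (ε / 2) hdd (le_max_of_le_left hM1) (half_pos hε)
      filter_upwards [hG1, hG2, e1, e2, C.ev hs0, h.ne0 C T hρ hδ hF h0] with j a1 a2 b1 b2 hs hne
      have h5 := hN (σ j) _ (m j) (m j) (G1 j) (G2 j) (C.pos j) hs le_rfl
        (a1.mono le_rfl (le_max_left _ _)) (a2.mono le_rfl (le_max_right _ _))
      rw [dist_zero_right, ph_div, ph_div, ← sub_div, norm_div, norm_ph hne, div_one, b1.2.1,
        b2.2.1, ph_mul, ph_mul (deriv (G2 j) _), hneg, ← sub_mul, norm_mul, norm_ph hu, mul_one]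
      linarith
    have q3 := q1.sub q2
    have := tendsto_nhds_unique q3 hdiff
    exact (sub_eq_zero.mp this).symm
  set β : ℂ → ℂ := fun w => deriv F (w + Real.pi * I) / deriv F w with hβ
  have hFd : DifferentiableOn ℂ (deriv F) (strip (Real.log (1 + δ) / 2)) := h.hl.diff.deriv ho
  have hβd : DifferentiableOn ℂ β (strip (Real.log (1 + δ) / 2)) :=
    (hFd.comp (by fun_prop) hs).div hFd h.hl.ne
  have hβr : ∀ w ∈ strip (Real.log (1 + δ) / 2), ∃ t : ℝ, β w = t := by
    intro w hw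
    apply ph_one_real
    · exact div_ne_zero (h.hl.ne _ (hs w hw)) (h.hl.ne _ hw)
    · simp only [hβ]
      rw [ph_div, hph w hw, div_self]
      exact norm_pos_iff.mp (by rw [norm_ph (h.hl.ne _ hw)]; exact one_pos)
  have hβc : (strip (Real.log (1 + δ) / 2)).EqOn (deriv β) 0 := by
    intro w hw
    obtain ⟨e, he, hsub⟩ := Metric.isOpen_iff.mp ho w hw
    have h1 : ∀ η : ℝ, 0 < η → ‖deriv β w‖ ≤ 16 * η / e := by
      intro η hη
      apply small_im hη he (hβd.mono hsub)
      intro W hW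
      obtain ⟨t, ht⟩ := hβr W (hsub hW)
      rw [ht, Complex.ofReal_im, abs_zero]
      exact hη.le
    have h2 : ‖deriv β w‖ ≤ 0 := by
      apply le_of_forall_pos_le_add
      intro η hη
      have h3 := h1 (η * e / 16) (by positivity)
      have h4 : 16 * (η * e / 16) / e = η := by field_simp
      rw [h4] at h3
      linarith
    exact norm_le_zero_iff.mp h2
  have hc := ho.is_const_of_deriv_eq_zero (convex_strip _).isPreconnected hβd hβc
    (hs 0 h0) h0
  obtain ⟨t, ht⟩ := hβr 0 h0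
  rw [ht] at hc
  simp only [hβ] at hc ht
  rw [zero_add] at hc ht
  rw [h.hl.one, div_one] at ht
  rw [ht] at hc
  have e1 : (Real.pi * I + Real.pi * I : ℂ) = 2 * Real.pi * I := by ring
  rw [e1] at hc
  have htne : (t : ℂ) ≠ 0 := by
    rw [← ht]
    have := h.hl.ne _ (hs 0 h0)
    rwa [zero_add] at this
  rw [div_eq_iff htne] at hc
  rw [hc]
  intro h7
  have h8 : t * t = -1 := by exact_mod_cast h7
  nlinarith [mul_self_nonneg t]

/-- A lift rotated at some time is not periodic. -/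
theorem rot_ne {s : ℝ} {m k : ℕ} {H : ℂ → ℂ} {w1 w2 ζ : ℂ} (hζ : ζ ≠ 1)
    (h0 : orb n c (H w1) k ≠ 0) (h : orb n c (H w2) k = ζ * orb n c (H w1) k) : H w2 ≠ H w1 := by
  intro heq
  rw [heq] at h
  have h1 : (ζ - 1) * orb n c (H w1) k = 0 := by rw [sub_mul, one_mul, ← h, sub_self]
  rcases mul_eq_zero.mp h1 with h2 | h2
  · exact hζ (sub_eq_zero.mp h2)
  · exact h0 h2

theorem exp_div_ne_one {n : ℕ} (hn : 3 ≤ n) :
    exp (2 * Real.pi * I / n) ≠ 1 ∧ exp (2 * Real.pi * I / n) * exp (2 * Real.pi * I / n) ≠ 1 := by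
  have hprim := Complex.isPrimitiveRoot_exp n (by omega)
  constructor
  · exact hprim.ne_one (by omega)
  · intro h
    have h2 : exp (2 * Real.pi * I / n) ^ 2 = 1 := by rw [sq]; exact h
    have h3 := hprim.dvd_of_pow_eq_one 2 h2
    have := Nat.le_of_dvd (by norm_num) h3
    omega

/-- The circle theorem. -/
theorem circle (T : TL C0 c0) (C : Cx n c x r ν A U σ) (hN : LN n c x U σ N) (hρ : 0 < ρ)
    (hδ : 0 < δ) (hδ1 : δ < 1) (hM : 0 ≤ M) (hF : FA n c U σ a ρ δ)
    (hc : ContinuousOn N (sphere a ρ)) {d : ℝ} (hd : 0 < d)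
    {G : ℕ → ℂ → ℂ} (hG : GS n c x U σ (a + ρ) d M m G) :
    ((∀ᶠ j in (U : Filter ℕ), Full n c (σ j) (m j) a ρ δ (G j (a + ρ))) ∧
      (∮ z in C(a, ρ), N z) = 0) ∨
    ((∀ᶠ j in (U : Filter ℕ), ¬ Full n c (σ j) (m j) a ρ δ (G j (a + ρ))) ∧
      ((∮ z in C(a, ρ), N z) = -(2 * Real.pi * I) ∨
        (n = 2 ∧ a ≠ 0 ∧ (∮ z in C(a, ρ), N z) = -(Real.pi * I)))) := by
  have hn := C.h.hn
  obtain ⟨H, hH, hH0⟩ := exists_LS T C hρ hδ hF hd hG
  have hM' : 0 ≤ M / ρ := by positivity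
  obtain ⟨F, hT⟩ := hH.ht T C hN hρ hδ hM' hF
  have hα := alpha T C hN hρ hδ hM hF hd hG hM' hT
  have hl := log_half hδ
  have hl2 : 0 < Real.log (1 + δ) := Real.log_pos (by linarith)
  have hsub := strip_half hδ
  have m0 : (0 : ℂ) ∈ strip (Real.log (1 + δ) / 2) := zero_mem_strip hl
  have m1 := two_pi_mem hl
  have m2 : (2 * Real.pi * I + 2 * Real.pi * I : ℂ) ∈ strip (Real.log (1 + δ) / 2) := by
    have := strip_shift m1 (2 * Real.pi)
    push_cast at this
    exact this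
  have e2 := (hT.hl.shift hl).2 _ m1
  rw [circle_int hρ hc]
  -- the translation case
  have htr : F (2 * Real.pi * I + 2 * Real.pi * I) ≠ 0 →
      I * ((∫ θ in (0 : ℝ)..2 * Real.pi, Bf N a ρ (I * (θ : ℝ))) - 2 * Real.pi) =
        -(2 * Real.pi * I) := by
    intro hne
    have hb : F (2 * Real.pi * I) ≠ 0 := by
      intro hb
      rw [e2, hb] at hne
      simp at hne
    have hα1 : deriv F (2 * Real.pi * I) = 1 := by
      rcases hα with h | h
      · exact h
      · rw [e2, h] at hne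
        exfalso
        apply hne
        ring
    rw [hT.translation T C hρ hδ hM' hF hα1 hb]
    ring
  -- the full case
  have hfull : (∀ᶠ j in (U : Filter ℕ), ∃ h, Lf n c (m j)
      (fun ζ => σ j * a + ((σ j * ρ : ℝ) : ℂ) * (1 + δ) * ζ) h ∧
      ∀ w ∈ strip (Real.log (1 + δ)), H j w = h (exp w / (1 + δ))) →
      ((∀ᶠ j in (U : Filter ℕ), Full n c (σ j) (m j) a ρ δ (G j (a + ρ))) ∧
      I * ((∫ θ in (0 : ℝ)..2 * Real.pi, Bf N a ρ (I * (θ : ℝ))) - 2 * Real.pi) = 0) := by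
    intro hev
    constructor
    · filter_upwards [hev, hH0] with j hj h0
      obtain ⟨h, h1, h2⟩ := hj
      have h3 := full_of_lf (C.pos j) hρ hδ h1
      rw [← h0.1, h2 0 (zero_mem_strip hl2), Complex.exp_zero]
      exact h3
    · rw [hT.integral T C hρ hδ hF (L := 2 * Real.pi) (v := 2 * Real.pi) (by positivity) (by
        filter_upwards [hev] with j hj
        obtain ⟨h, h1, h2⟩ := hj
        exact lf_int (C.pos j) hρ hδ h1 h2)]
      simp
  have hnf : (∀ᶠ j in (U : Filter ℕ), H j (2 * Real.pi * I + 2 * Real.pi * I) ≠ H j 0) →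
      ∀ᶠ j in (U : Filter ℕ), ¬ Full n c (σ j) (m j) a ρ δ (G j (a + ρ)) := by
    intro hev
    filter_upwards [hev, hH, hH0, hF] with j h1 h2 h3 hf hful
    rw [← h3.1] at hful
    have hp := Full.periodic T hn (C.pos j) hρ hδ hf h2.1 hful
    have p1 := hp 0 (zero_mem_strip hl2)
    have p2 := hp _ (hsub m1)
    rw [zero_add] at p1
    exact h1 (p2.trans p1)
  have hnf1 : (∀ᶠ j in (U : Filter ℕ), H j (2 * Real.pi * I) ≠ H j 0) →
      ∀ᶠ j in (U : Filter ℕ), ¬ Full n c (σ j) (m j) a ρ δ (G j (a + ρ)) := by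
    intro hev
    filter_upwards [hev, hH, hH0, hF] with j h1 h2 h3 hf hful
    rw [← h3.1] at hful
    have hp := Full.periodic T hn (C.pos j) hρ hδ hf h2.1 hful
    have p1 := hp 0 (zero_mem_strip hl2)
    rw [zero_add] at p1
    exact h1 p1
  have hne4 : (∀ᶠ j in (U : Filter ℕ), H j (2 * Real.pi * I + 2 * Real.pi * I) ≠ H j 0) →
      F (2 * Real.pi * I + 2 * Real.pi * I) ≠ 0 := by
    intro hev
    have := hT.sep T C hρ hδ hM' hF m2 m0 (Or.inr hev)
    rwa [hT.hl.zero] at this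
  have hEL : ∀ᶠ j in (U : Filter ℕ), DifferentiableOn ℂ (H j) (strip (Real.log (1 + δ))) ∧
      ∀ w ∈ strip (Real.log (1 + δ)),
        orb n c (H j w) (m j) = σ j * a + ((σ j * ρ : ℝ) : ℂ) * exp w := by
    filter_upwards [hH] with j hj
    refine ⟨hj.1.diff, fun w hw => ?_⟩
    rw [hj.1.eq w hw]
    push_cast
    ring
  rcases Nat.lt_or_ge 2 n with hn3 | hn2
  · -- degree at least three
    have hrot : ∀ᶠ j in (U : Filter ℕ), (∃ h, Lf n c (m j)
        (fun ζ => σ j * a + ((σ j * ρ : ℝ) : ℂ) * (1 + δ) * ζ) h ∧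
        ∀ w ∈ strip (Real.log (1 + δ)), H j w = h (exp w / (1 + δ))) ∨
        (∃ k < m j, ∀ w ∈ strip (Real.log (1 + δ)), orb n c (H j w) k ≠ 0 ∧
          orb n c (H j (w + 2 * Real.pi * I)) k =
            exp (2 * Real.pi * I / n) * orb n c (H j w) k) := by
      filter_upwards [hEL, hF] with j hj hf
      exact T.ROT n c (σ j * a) (σ j * ρ) δ (m j) (H j) hn (mul_pos (C.pos j) hρ) hδ hδ1 hf
        hj.1 hj.2
    rcases Ultrafilter.eventually_or.mp hrot with hev | hev
    · exact Or.inl (hfull hev)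
    · have hev4 : ∀ᶠ j in (U : Filter ℕ), H j (2 * Real.pi * I + 2 * Real.pi * I) ≠ H j 0 := by
        filter_upwards [hev] with j hj
        obtain ⟨k, -, hk⟩ := hj
        have k0 := hk 0 (zero_mem_strip hl2)
        have k1 := hk _ (hsub m1)
        rw [zero_add] at k0
        rw [k0.2, ← mul_assoc] at k1
        exact rot_ne (s := 0) (m := 0) (exp_div_ne_one hn3).2 k0.1 k1.2
      exact Or.inr ⟨hnf hev4, Or.inl (htr (hne4 hev4))⟩
  · -- degree two
    have hn2' : n = 2 := le_antisymm hn2 hn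
    subst hn2'
    have hrot : ∀ᶠ j in (U : Filter ℕ), (∃ h, Lf 2 c (m j)
        (fun ζ => σ j * a + ((σ j * ρ : ℝ) : ℂ) * (1 + δ) * ζ) h ∧
        ∀ w ∈ strip (Real.log (1 + δ)), H j w = h (exp w / (1 + δ))) ∨
        (((∀ w ∈ strip (Real.log (1 + δ)), H j (w + 4 * Real.pi * I) = H j w ∧
          H j (w + 2 * Real.pi * I) ≠ H j w) ∧
          ∫ θ in (0 : ℝ)..4 * Real.pi, deriv (deriv (H j)) (I * (θ : ℝ)) /
            deriv (H j) (I * (θ : ℝ)) = 2 * Real.pi) ∨
        (∃ k < m j, ∀ w ∈ strip (Real.log (1 + δ)), orb 2 c (H j w) k ≠ 0 ∧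
          orb 2 c (H j (w + 4 * Real.pi * I)) k = - orb 2 c (H j w) k)) := by
      filter_upwards [hEL, hF] with j hj hf
      exact T.ROT2 c (σ j * a) (σ j * ρ) δ (m j) (H j) (mul_pos (C.pos j) hρ) hδ hδ1 hf
        hj.1 hj.2
    have e4 : (4 * Real.pi * I : ℂ) = 2 * Real.pi * I + 2 * Real.pi * I := by ring
    rcases Ultrafilter.eventually_or.mp hrot with hev | hev
    · exact Or.inl (hfull hev)
    rcases Ultrafilter.eventually_or.mp hev with hev | hev
    · -- one critical passage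
      have hev2 : ∀ᶠ j in (U : Filter ℕ), H j (2 * Real.pi * I) ≠ H j 0 := by
        filter_upwards [hev] with j hj
        have := (hj.1 0 (zero_mem_strip hl2)).2
        rwa [zero_add] at this
      have hb : F (2 * Real.pi * I) ≠ 0 := by
        have := hT.sep T C hρ hδ hM' hF m1 m0 (Or.inr hev2)
        rwa [hT.hl.zero] at this
      have hF4 : F (2 * Real.pi * I + 2 * Real.pi * I) = 0 := by
        have t1 := hT.t0 _ m2
        have t2 : Tendsto (fun j => (H j (2 * Real.pi * I + 2 * Real.pi * I) - H j 0) /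
            deriv (H j) 0) (U : Filter ℕ) (𝓝 0) := by
          apply tendsto_const_nhds.congr'
          filter_upwards [hev] with j hj
          have := (hj.1 0 (zero_mem_strip hl2)).1
          rw [zero_add, e4] at this
          rw [this, sub_self, zero_div]
        exact tendsto_nhds_unique t1 t2
      have hα' : deriv F (2 * Real.pi * I) = -1 := by
        rcases hα with h | h
        · rw [e2, h, one_mul] at hF4
          exfalso
          apply hb
          have : 2 * F (2 * Real.pi * I) = 0 := by rw [← hF4]; ring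
          simpa using this
        · exact h
      refine Or.inr ⟨hnf1 hev2, Or.inr ⟨rfl, ?_, ?_⟩⟩
      · rintro rfl
        exact hT.centred T C rfl hρ hδ hM' hF hα'
      · have i1 := hT.integral T C hρ hδ hF (L := 4 * Real.pi) (v := 2 * Real.pi) (by positivity)
          (hev.mono fun j hj => hj.2)
        have hcont : Continuous fun θ : ℝ => Bf N a ρ (I * (θ : ℝ)) := by
          have h4 : ∀ θ : ℝ, a + ρ * exp (I * (θ : ℝ)) ∈ sphere a ρ := by
            intro θ
            rw [mem_sphere, dist_eq_norm, add_sub_cancel_left, norm_mul, Complex.norm_real,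
              Real.norm_of_nonneg hρ.le, mul_comm I, Complex.norm_exp_ofReal_mul_I, mul_one]
          unfold Bf
          exact ((hc.comp_continuous (by fun_prop) h4).mul (by fun_prop)).add continuous_const
        have hper : Function.Periodic (fun θ : ℝ => Bf N a ρ (I * (θ : ℝ))) (2 * Real.pi) := by
          intro θ
          simp only
          rw [← Bf_shift N a ρ (I * (θ : ℝ))]
          congr 1
          push_cast
          ring
        have i2 : (∫ θ in (0 : ℝ)..4 * Real.pi, Bf N a ρ (I * (θ : ℝ))) =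
            (∫ θ in (0 : ℝ)..2 * Real.pi, Bf N a ρ (I * (θ : ℝ))) +
            ∫ θ in (0 : ℝ)..2 * Real.pi, Bf N a ρ (I * (θ : ℝ)) := by
          rw [← intervalIntegral.integral_add_adjacent_intervals (b := 2 * Real.pi)
            (hcont.intervalIntegrable _ _) (hcont.intervalIntegrable _ _)]
          congr 1
          have := hper.intervalIntegral_add_eq (2 * Real.pi) 0
          rw [zero_add] at this
          rw [← this]
          congr 1
          ring
        rw [i2] at i1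
        have i3 : (∫ θ in (0 : ℝ)..2 * Real.pi, Bf N a ρ (I * (θ : ℝ))) = Real.pi := by
          linear_combination i1 / 2
        rw [i3]
        ring
    · -- two critical passages
      have hev4 : ∀ᶠ j in (U : Filter ℕ), H j (2 * Real.pi * I + 2 * Real.pi * I) ≠ H j 0 := by
        filter_upwards [hev] with j hj
        obtain ⟨k, -, hk⟩ := hj
        have k0 := hk 0 (zero_mem_strip hl2)
        rw [zero_add, e4] at k0
        exact rot_ne (s := 0) (m := 0) (ζ := -1) (by norm_num) k0.1 (by rw [k0.2]; ring)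
      exact Or.inr ⟨hnf hev4, Or.inl (htr (hne4 hev4))⟩

end Pool.Agent.J4H16.AS
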