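import Mathlib
import Pool.Agent.J4H16.AS.Defs2

/-!
# Project AS: a stronger form of BASE
-/

set_option autoImplicit false
open Set Filter Topology Metric Complex MeasureTheory
open scoped ComplexConjugate

namespace Pool.Agent.J4H16.AS

open Pool.Agent.J4H16 Pool.Agent.W746.LD

/-- BASE2: as BASE, with the bound `‖Z0‖ + d ≤ 2 * C1 * q` (if `κ > C1` replace `κ` by `C1`). -/
def S_BASE2 : Prop := ∀ (n : ℕ) (c x : ℂ) (r : ℝ) (ν : ℂ → ℂ) (A : ℝ) (U : Ultrafilter ℕ)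
  (σ : ℕ → ℝ), Cx n c x r ν A U σ → ∀ (C1 κ ρ0 q : ℝ), 0 < C1 → 0 < κ → 0 < ρ0 → 0 < q →
  (∀ ρ : ℝ, 0 < ρ → ρ ≤ ρ0 → ∃ (l : ℕ) (g : ℂ → ℂ), Br n c l (orb n c x l) (κ * ρ) g ∧
    g (orb n c x l) = x ∧ ‖orb n c x l‖ ≤ C1 * ρ ∧ ∀ i < l, ρ ≤ ‖orb n c x i‖) →
  (∀ (Z : ℂ) (e : ℝ), 0 < e → ∃ W ∈ ball Z e, W ∉ Lim U σ (PC n c)) →
  ∃ (l : ℕ → ℕ) (Z0 : ℂ) (d M : ℝ) (G : ℕ → ℂ → ℂ), Z0 ∉ Lim U σ (PC n c) ∧ 0 < d ∧ 0 ≤ M ∧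
    ‖Z0‖ + d ≤ 2 * C1 * q ∧
    GS n c x U σ Z0 d M l G ∧ ∀ᶠ j in (U : Filter ℕ), ‖orb n c x (l j)‖ ≤ C1 * (q * σ j) ∧
      (∀ i < l j, q * σ j ≤ ‖orb n c x i‖) ∧ orb n c x (l j) / σ j ∈ ball Z0 d ∧
      G j (orb n c x (l j) / σ j) = x

end Pool.Agent.J4H16.AS
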