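import Mathlib
import Pool.Agent.J4H16.AS.Ci5
import Pool.Agent.J4H16.AS.Defs3

/-!
# Assembly, part one
-/

set_option autoImplicit false
open Set Filter Topology Metric Complex MeasureTheory
open scoped ComplexConjugate

namespace Pool.Agent.J4H16.AS

open Pool.Agent.J4H16 Pool.Agent.W746.LD

variable {n : ℕ} {c x : ℂ} {r : ℝ} {ν : ℂ → ℂ} {A : ℝ} {U : Ultrafilter ℕ} {σ : ℕ → ℝ}
variable {C0 c0 : ℝ} {a : ℂ} {ρ δ M : ℝ} {m : ℕ → ℕ} {N : ℂ → ℂ}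

/-- All tools. -/
structure TL2 (C0 c0 : ℝ) : Prop extends TL C0 c0 where
  GAPD : S_GAPD
  PACK : S_PACK
  NULL : S_NULL
  INT : S_INT
  CONN : S_CONN
  POT : S_POT
  ENTRY : S_ENTRY
  NCZ : S_NCZ
  ATT : S_ATT
  TRK : S_TRK
  NF : S_NF
  AEC : S_AEC
  INTN : S_INTN
  BASE : S_BASE2
  FNC : S_FNC

theorem FA.not_mem (hp : ∀ j, 0 < σ j) (h : FA n c U σ a ρ δ) {Z : ℂ}
    (h1 : ρ * (1 - δ) < ‖Z - a‖) (h2 : ‖Z - a‖ < ρ * (1 + δ)) : Z ∉ Lim U σ (PC n c) := by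
  apply not_mem_Lim.mpr
  set d : ℝ := min (‖Z - a‖ - ρ * (1 - δ)) (ρ * (1 + δ) - ‖Z - a‖) with hd
  have hd0 : 0 < d := lt_min (by linarith) (by linarith)
  refine ⟨d, hd0, ?_⟩
  filter_upwards [h] with j hj p hpp
  have hs := hp j
  by_contra hcon
  push Not at hcon
  apply hj p hpp
  have e1 : (p - σ j * a) = (p - σ j * Z) + σ j * (Z - a) := by ring
  have e2 : ‖(σ j : ℂ) * (Z - a)‖ = σ j * ‖Z - a‖ := by
    rw [norm_mul, Complex.norm_real, Real.norm_of_nonneg hs.le]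
  have h3 : ‖p - σ j * a‖ ≤ ‖p - σ j * Z‖ + σ j * ‖Z - a‖ := by
    rw [e1, ← e2]
    exact norm_add_le _ _
  have h4 : σ j * ‖Z - a‖ ≤ ‖p - σ j * Z‖ + ‖p - σ j * a‖ := by
    rw [← e2]
    have : (σ j : ℂ) * (Z - a) = (p - σ j * a) - (p - σ j * Z) := by ring
    rw [this]
    refine (norm_sub_le _ _).trans (le_of_eq (add_comm _ _))
  have d1 : d ≤ ‖Z - a‖ - ρ * (1 - δ) := min_le_left _ _
  have d2 : d ≤ ρ * (1 + δ) - ‖Z - a‖ := min_le_right _ _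
  have d3 : σ j * d ≤ σ j * (‖Z - a‖ - ρ * (1 - δ)) := by gcongr
  have d4 : σ j * d ≤ σ j * (ρ * (1 + δ) - ‖Z - a‖) := by gcongr
  constructor <;> nlinarith

theorem FA.mono (hp : ∀ j, 0 < σ j) (h : FA n c U σ a ρ δ) (hρ : 0 ≤ ρ) {δ' : ℝ} (hδ : δ' ≤ δ) :
    FA n c U σ a ρ δ' := by
  filter_upwards [h] with j hj p hpp hcon
  apply hj p hpp
  have hs := hp j
  have : 0 ≤ σ j * ρ := by positivity
  constructor <;> nlinarith [hcon.1, hcon.2]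

theorem ulim {f : ℕ → ℂ} {B : ℝ} (h : ∀ᶠ j in (U : Filter ℕ), ‖f j‖ ≤ B) :
    ∃ v, ‖v‖ ≤ B ∧ Tendsto f (U : Filter ℕ) (𝓝 v) := by
  obtain ⟨v, hv1, hv2⟩ := (isCompact_closedBall (0 : ℂ) B).ultrafilter_le_nhds (U.map f) (by
    rw [Filter.le_principal_iff]
    show ∀ᶠ j in (U : Filter ℕ), f j ∈ closedBall (0 : ℂ) B
    filter_upwards [h] with j hj
    rw [mem_closedBall, dist_zero_right]
    exact hj)
  rw [mem_closedBall, dist_zero_right] at hv1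
  exact ⟨v, hv1, hv2⟩

theorem ulim_real {f : ℕ → ℝ} {α β : ℝ} (h : ∀ᶠ j in (U : Filter ℕ), α ≤ f j ∧ f j ≤ β) :
    ∃ v, α ≤ v ∧ v ≤ β ∧ Tendsto f (U : Filter ℕ) (𝓝 v) := by
  obtain ⟨v, hv1, hv2⟩ := (isCompact_Icc (a := α) (b := β)).ultrafilter_le_nhds (U.map f) (by
    rw [Filter.le_principal_iff]
    exact h)
  exact ⟨v, hv1.1, hv1.2, hv2⟩

/-- A free annulus about the critical point, of definite width, at a given scale. -/
theorem exists_Rc (C : Cx n c x r ν A U σ) {ε0 : ℝ} (hε0 : 0 < ε0) (hε1 : ε0 ≤ 1)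
    (hG : ∀ (a : ℂ) (t : ℝ), 0 < t → 8 * t ≤ 1 →
      ∃ η : ℝ, 2 * t ≤ η ∧ η ≤ 4 * t ∧ ∀ p ∈ PC n c, ¬ (η < ‖p - a‖ ∧ ‖p - a‖ < (1 + ε0) * η))
    {t : ℝ} (ht : 0 < t) : ∃ Rc : ℝ, 2 * t ≤ Rc ∧ Rc ≤ 6 * t ∧ FA n c U σ 0 Rc (ε0 / 8) := by
  have key : ∀ᶠ j in (U : Filter ℕ), ∃ η : ℝ, 2 * (t * σ j) ≤ η ∧ η ≤ 4 * (t * σ j) ∧
      ∀ p ∈ PC n c, ¬ (η < ‖p - 0‖ ∧ ‖p - 0‖ < (1 + ε0) * η) := by
    filter_upwards [C.ev (s0 := 1 / (8 * t)) (by positivity)] with j hj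
    apply hG 0 (t * σ j) (mul_pos ht (C.pos j))
    rw [le_div_iff₀ (by positivity)] at hj
    linarith
  obtain ⟨η, hη⟩ := key.choice
  obtain ⟨u, hu1, hu2, hu⟩ := ulim_real (U := U) (f := fun j => η j / σ j) (α := 2 * t)
    (β := 4 * t) (by
      filter_upwards [hη] with j hj
      have hs := C.pos j
      constructor
      · rw [le_div_iff₀ hs]; linarith [hj.1]
      · rw [div_le_iff₀ hs]; linarith [hj.2.1])
  have hu0 : 0 < u := by linarith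
  refine ⟨u * (1 + ε0 / 2), by nlinarith, by nlinarith, ?_⟩
  have hev : ∀ᶠ j in (U : Filter ℕ), u * (1 - ε0 / 16) < η j / σ j ∧
      η j / σ j < u * (1 + ε0 / 16) :=
    hu.eventually (Ioo_mem_nhds (by nlinarith) (by nlinarith))
  filter_upwards [hη, hev] with j h1 h2 p hp hcon
  have hs := C.pos j
  rw [lt_div_iff₀ hs, div_lt_iff₀ hs] at h2
  apply h1.2.2 p hp
  rw [mul_zero, sub_zero] at hcon
  rw [sub_zero]
  have hus : 0 < u * σ j := mul_pos hu0 hs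
  constructor
  · refine lt_of_le_of_lt ?_ hcon.1
    have e : σ j * (u * (1 + ε0 / 2)) * (1 - ε0 / 8) =
        u * σ j * (1 + 3 * ε0 / 8 - ε0 ^ 2 / 16) := by ring
    rw [e]
    have h3 : u * (1 + ε0 / 16) * σ j = u * σ j * (1 + ε0 / 16) := by ring
    have h4 : 1 + ε0 / 16 ≤ 1 + 3 * ε0 / 8 - ε0 ^ 2 / 16 := by nlinarith
    have h5 := mul_le_mul_of_nonneg_left h4 hus.le
    linarith [h2.2]
  · refine lt_of_lt_of_le hcon.2 ?_
    have e : σ j * (u * (1 + ε0 / 2)) * (1 + ε0 / 8) =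
        u * σ j * (1 + 5 * ε0 / 8 + ε0 ^ 2 / 16) := by ring
    rw [e]
    have h3 : u * (1 - ε0 / 16) * σ j = u * σ j * (1 - ε0 / 16) := by ring
    have h4 : 1 + 5 * ε0 / 8 + ε0 ^ 2 / 16 ≤ (1 + ε0) * (1 - ε0 / 16) := by nlinarith
    have h5 := mul_le_mul_of_nonneg_left h4 hus.le
    have h6 : (1 + ε0) * (u * σ j * (1 - ε0 / 16)) ≤ (1 + ε0) * η j := by
      apply mul_le_mul_of_nonneg_left _ (by linarith)
      linarith [h2.1]
    nlinarith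

/-- A critical passage. -/
theorem passage (hn : 2 ≤ n) {l : ℕ} {R : ℝ} (hx : orb n c x l ∈ ball (0 : ℂ) R)
    (hno : ¬ ∃ g, Br n c l 0 R g ∧ g (orb n c x l) = x) :
    ∃ (i : ℕ) (g : ℂ → ℂ) (v : ℂ), i < l ∧ Br n c i 0 R g ∧
      g (orb n c x l) = orb n c x (l - i) ∧ v ∈ ball (0 : ℂ) R ∧ g v = c ∧
      orb n c 0 (i + 1) = v := by
  by_contra hcon
  push Not at hcon
  apply hno
  apply exists_br hn hx
  intro j hj g hg hgx w hw hgc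
  exact hcon j g w hj hg hgx hw hgc (hg.crit hn hw hgc)

/-- The limit set. -/
structure LS2 (n : ℕ) (c : ℂ) (U : Ultrafilter ℕ) (σ : ℕ → ℝ) : Prop where
  cl : IsClosed (Lim U σ (PC n c))
  lip : ∀ f : ℂ → ℝ, LipschitzWith 1 f → volume (f '' Lim U σ (PC n c)) = 0
  pr : ∀ V : Set ℂ, IsOpen V → Convex ℝ V → IsPreconnected (V \ Lim U σ (PC n c))
  emp : ∀ (Z : ℂ) (e : ℝ), 0 < e → ∃ W ∈ ball Z e, W ∉ Lim U σ (PC n c)
  int : (Lim U σ (PC n c)).Nonempty → volume (Lim U σ (PC n c)) = 0 ∧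
    ∀ R : ℝ, IntegrableOn (fun z => (infDist z (Lim U σ (PC n c)))⁻¹) (ball 0 R)

theorem exists_LS2 (T : TL2 C0 c0) (C : Cx n c x r ν A U σ) {Cs s : ℝ} (hs0 : 0 < s)
    (hs1 : s < 1) (hth : Thin (PC n c) Cs s) : LS2 n c U σ := by
  obtain ⟨h1, h2⟩ := T.PACK U σ (PC n c) Cs s hs0 hs1 hth C.pos C.lim
  have h3 := T.NULL _ s hs0 hs1 h2
  refine ⟨h1, h3, T.CONN _ h1 h3, ?_, fun hne => T.INT _ s hs0 hs1 h1 hne h2⟩
  intro Z e he
  by_contra hcon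
  push Not at hcon
  have hf : LipschitzWith 1 (fun z : ℂ => z.re) := by
    apply LipschitzWith.of_dist_le_mul
    intro u v
    rw [NNReal.coe_one, one_mul, Real.dist_eq, dist_eq_norm, ← Complex.sub_re]
    exact Complex.abs_re_le_norm _
  have h4 := h3 _ hf
  have h5 : Ioo (Z.re - e) (Z.re + e) ⊆ (fun z : ℂ => z.re) '' Lim U σ (PC n c) := by
    intro t ht
    refine ⟨(t : ℂ) + Z.im * I, hcon _ ?_, by simp⟩
    rw [mem_ball, dist_eq_norm]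
    have : (t : ℂ) + Z.im * I - Z = ((t - Z.re : ℝ) : ℂ) := by
      apply Complex.ext <;> simp
    rw [this, Complex.norm_real, Real.norm_eq_abs, abs_lt]
    constructor <;> linarith [ht.1, ht.2]
  have h6 := measure_mono_null h5 h4
  rw [Real.volume_Ioo, ENNReal.ofReal_eq_zero] at h6
  linarith

end Pool.Agent.J4H16.AS
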