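import Mathlib
import Pool.Agent.J4H16.AS.Fi1

/-!
# Assembly, part two: superadditivity of the index; discs which do not lift
-/

set_option autoImplicit false
open Set Filter Topology Metric Complex MeasureTheory
open scoped ComplexConjugate

namespace Pool.Agent.J4H16.AS

open Pool.Agent.J4H16 Pool.Agent.W746.LD

variable {n : ℕ} {c x : ℂ} {r : ℝ} {ν : ℂ → ℂ} {A : ℝ} {U : Ultrafilter ℕ} {σ : ℕ → ℝ}
variable {C0 c0 : ℝ} {a : ℂ} {ρ δ M : ℝ} {m : ℕ → ℕ} {N : ℂ → ℂ}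

/-- Every point outside the limit set is good. -/
def AG (n : ℕ) (c x : ℂ) (U : Ultrafilter ℕ) (σ : ℕ → ℝ) (m : ℕ → ℕ) : Prop :=
  ∀ Z ∉ Lim U σ (PC n c), ∃ (d M : ℝ) (G : ℕ → ℂ → ℂ), 0 < d ∧ 0 ≤ M ∧ GS n c x U σ Z d M m G

theorem norm_add_real (a : ℂ) (hρ : 0 < ρ) : ‖a + ρ - a‖ = ρ := by
  rw [add_sub_cancel_left, Complex.norm_real, Real.norm_of_nonneg hρ.le]

theorem FA.cont (hp : ∀ j, 0 < σ j) (hN : LN n c x U σ N) (h : FA n c U σ a ρ δ) (hρ : 0 < ρ)
    (hδ : 0 < δ) : ContinuousOn N (sphere a ρ) := by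
  apply hN.diff.continuousOn.mono
  intro Z hZ
  rw [mem_sphere, dist_eq_norm] at hZ
  exact h.not_mem hp (by rw [hZ]; nlinarith) (by rw [hZ]; nlinarith)

/-- The possible indices. -/
theorem index_values (T : TL C0 c0) (C : Cx n c x r ν A U σ) (hN : LN n c x U σ N)
    (hall : AG n c x U σ m) (hρ : 0 < ρ) (hδ : 0 < δ) (hδ1 : δ < 1) (hF : FA n c U σ a ρ δ) :
    ∃ ι : ℝ, 0 ≤ ι ∧ ι ≤ 1 ∧ (∮ z in C(a, ρ), N z) = -(2 * Real.pi * I * ι) := by
  have hZ : a + ρ ∉ Lim U σ (PC n c) :=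
    hF.not_mem C.pos (by rw [norm_add_real a hρ]; nlinarith) (by rw [norm_add_real a hρ]; nlinarith)
  obtain ⟨d, M, G, hd, hM, hG⟩ := hall _ hZ
  rcases circle T C hN hρ hδ hδ1 hM hF (hF.cont C.pos hN hρ hδ) hd hG with ⟨-, h⟩ | ⟨-, h⟩
  · exact ⟨0, le_rfl, zero_le_one, by rw [h]; simp⟩
  · rcases h with h | ⟨-, -, h⟩
    · exact ⟨1, zero_le_one, le_rfl, by rw [h]; simp⟩
    · exact ⟨1 / 2, by norm_num, by norm_num, by rw [h]; push_cast; ring⟩

/-- Superadditivity of the index. -/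
theorem index_sum (T : TL2 C0 c0) (C : Cx n c x r ν A U σ) (L : LS2 n c U σ)
    (hN : LN n c x U σ N) (hNb : ∀ (Z : ℂ) (d : ℝ), 0 < d → Free n c U σ Z d →
      ‖N Z‖ ≤ 32 * C0 / d) (hall : AG n c x U σ m) (hne : (Lim U σ (PC n c)).Nonempty)
    {V : ℂ} {Rc r0 rv δ δ0 δv i1 i2 : ℝ} (hr0 : 0 < r0) (hrv : 0 < rv) (hRc : 0 < Rc)
    (hδ : 0 < δ) (hδ1 : δ < 1) (hδ0 : 0 < δ0) (hδv : 0 < δv)
    (hF : FA n c U σ 0 Rc δ) (hF0 : FA n c U σ 0 r0 δ0) (hFv : FA n c U σ V rv δv)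
    (g1 : ‖V‖ + rv < Rc) (g2 : r0 + rv < ‖V‖)
    (e1 : (∮ z in C(0, r0), N z) = -(2 * Real.pi * I * i1))
    (e2 : (∮ z in C(V, rv), N z) = -(2 * Real.pi * I * i2)) : i1 + i2 ≤ 1 := by
  have hC0 := T.K.one_le
  obtain ⟨i0, hi0, hi1, e0⟩ := index_values T.toTL C hN hall hRc hδ hδ1 hF
  refine le_trans ?_ hi1
  obtain ⟨ι, hι⟩ : ∃ ι : ℝ, ι = min (min (Rc * δ) (r0 * δ0)) (min (rv * δv)
    (min (Rc - ‖V‖ - rv) (min (‖V‖ - r0 - rv) (min Rc (min r0 (min rv 1)))))) := ⟨_, rfl⟩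
  have hι0 : 0 < ι := by
    rw [hι]
    refine lt_min (lt_min (by positivity) (by positivity)) (lt_min (by positivity)
      (lt_min (by linarith) (lt_min (by linarith) (lt_min hRc (lt_min hr0 (lt_min hrv one_pos))))))
  have k1 : ι ≤ Rc * δ := by rw [hι]; exact (min_le_left _ _).trans (min_le_left _ _)
  have k2 : ι ≤ r0 * δ0 := by rw [hι]; exact (min_le_left _ _).trans (min_le_right _ _)
  have k3 : ι ≤ rv * δv := by rw [hι]; exact (min_le_right _ _).trans (min_le_left _ _)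
  have k4 : ι ≤ Rc - ‖V‖ - rv := by
    rw [hι]; exact (min_le_right _ _).trans ((min_le_right _ _).trans (min_le_left _ _))
  have k5 : ι ≤ ‖V‖ - r0 - rv := by
    rw [hι]
    exact (min_le_right _ _).trans ((min_le_right _ _).trans
      ((min_le_right _ _).trans (min_le_left _ _)))
  have k6 : ι ≤ min Rc (min r0 (min rv 1)) := by
    rw [hι]
    exact (min_le_right _ _).trans ((min_le_right _ _).trans
      ((min_le_right _ _).trans (min_le_right _ _)))
  have k7 : ι ≤ Rc := k6.trans (min_le_left _ _)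
  have k8 : ι ≤ r0 := k6.trans ((min_le_right _ _).trans (min_le_left _ _))
  have k9 : ι ≤ rv := k6.trans ((min_le_right _ _).trans ((min_le_right _ _).trans
    (min_le_left _ _)))
  have k10 : ι ≤ 1 := k6.trans ((min_le_right _ _).trans ((min_le_right _ _).trans
    (min_le_right _ _)))
  obtain ⟨hv0, hint⟩ := L.int hne
  apply T.POT N (Lim U σ (PC n c))ᶜ (Rc + 1) L.cl.isOpen_compl hN.diff
    (T.INTN n c U σ (32 * C0) N C.pos (by positivity) L.cl hne hv0 hint hN.diff hNb _)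
    (by
      intro b hb
      filter_upwards [T.AEC n c U σ C.pos L.cl L.lip b] with t ht ht0 ht1
      obtain ⟨δt, h1, h2, h3, h4⟩ := ht ht0
      refine ⟨?_, ?_⟩
      · intro z hz
        rw [mem_sphere, dist_eq_norm] at hz
        exact h4 z (by rw [hz]; nlinarith) (by rw [hz]; nlinarith)
      · obtain ⟨ι, j1, -, j3⟩ := index_values T.toTL C hN hall ht0 h1 h2 h3
        exact ⟨ι, j1, j3⟩)
    0 V Rc r0 rv (ι / 4) i0 i1 i2 (by positivity) (by linarith) (by linarith) (by linarith)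
    (by linarith) (by rw [norm_zero]; linarith [norm_nonneg V]) (by linarith)
    (by rw [zero_sub, norm_neg]; linarith)
    (by
      intro z h1 h2
      exact hF.not_mem C.pos (by rw [sub_zero]; nlinarith) (by rw [sub_zero]; nlinarith))
    (by
      intro z h1 h2
      rw [sub_zero] at h1 h2
      exact hF0.not_mem C.pos (by rw [sub_zero]; nlinarith) (by rw [sub_zero]; nlinarith))
    (by
      intro z h1 h2
      exact hFv.not_mem C.pos (by nlinarith) (by nlinarith))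
    e0 e1 e2

/-- If the centred discs lift along the orbit of the good point then the index is zero. -/
theorem no_full (T : TL C0 c0) (C : Cx n c x r ν A U σ) (hN : LN n c x U σ N)
    {r0 δ0 R : ℝ} (hr0 : 0 < r0) (hδ0 : 0 < δ0) (hδ1 : δ0 < 1) (hF : FA n c U σ 0 r0 δ0)
    (hR : r0 * (1 + δ0) ≤ R) {l : ℕ → ℕ} {B : ℝ} (hB : B < R)
    (hl : ∀ᶠ j in (U : Filter ℕ), ‖orb n c x (l j)‖ ≤ σ j * B)
    (hg : ∀ᶠ j in (U : Filter ℕ), ∃ g, Br n c (l j) 0 (σ j * R) g ∧ g (orb n c x (l j)) = x) :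
    (∮ z in C(0, r0), N z) = 0 := by
  have hC0 := T.K.one_le
  have hR0 : 0 < R := lt_of_lt_of_le (by positivity) hR
  have hr0R : r0 < R := by nlinarith
  obtain ⟨k, hk⟩ := exists_rad (θ := max (B / R) (r0 / R)) (max_lt (by rw [div_lt_one hR0]; exact hB)
    (by rw [div_lt_one hR0]; exact hr0R))
  have hk1 : B ≤ (1 - (3 / 4) ^ k) * R := by
    have := (le_max_left _ _).trans hk
    rwa [div_le_iff₀ hR0] at this
  have hk2 : r0 ≤ (1 - (3 / 4) ^ k) * R := by
    have := (le_max_right _ _).trans hk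
    rwa [div_le_iff₀ hR0] at this
  obtain ⟨g, hg⟩ := hg.choice
  set G : ℕ → ℂ → ℂ := fun j W => g j (σ j * W) with hG
  have hball : ∀ j, ∀ W ∈ ball (0 : ℂ) R, (σ j : ℂ) * W ∈ ball (0 : ℂ) (σ j * R) := by
    intro j W hW
    have hs := C.pos j
    rw [mem_ball, dist_zero_right] at hW ⊢
    rw [norm_mul, Complex.norm_real, Real.norm_of_nonneg hs.le]
    gcongr
  have hdiff : ∀ᶠ j in (U : Filter ℕ), DifferentiableOn ℂ (G j) (ball 0 R) ∧
      ∀ W ∈ ball (0 : ℂ) R, orb n c (G j W) (l j) = σ j * W := by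
    filter_upwards [hg] with j hj
    exact ⟨hj.1.diff.comp (by fun_prop) (hball j), fun W hW => hj.1.eq _ (hball j W hW)⟩
  set M : ℝ := 2 * R * C0 ^ (2 * k) with hM
  have hsub : ball ((0 : ℂ) + r0) (R - r0) ⊆ ball 0 R := by
    apply ball_subset_ball'
    rw [zero_add, dist_zero_right, Complex.norm_real, Real.norm_of_nonneg hr0.le]
    linarith
  have hGS : GS n c x U σ (0 + r0) (R - r0) M l G := by
    filter_upwards [hdiff, hg, hl] with j h1 h2 h3
    have hs := C.pos j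
    have hs' : (σ j : ℂ) ≠ 0 := by exact_mod_cast hs.ne'
    have hsb : SB n c (G j 0) (σ j) (l j) 0 R 0 (G j) := ⟨h1.1, h1.2, by simp⟩
    refine ⟨h1.1.mono hsub, fun W hW => h1.2 W (hsub hW), ?_⟩
    have h4 := KC.rad_lip T.K hR0 (hsb.univ hs) k (x := orb n c x (l j) / σ j)
      (u := (r0 : ℂ)) (by
        rw [norm_div, Complex.norm_real, Real.norm_of_nonneg hs.le, div_le_iff₀ hs]
        refine h3.trans ?_
        rw [mul_comm]
        gcongr) (by rw [Complex.norm_real, Real.norm_of_nonneg hr0.le]; exact hk2)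
    have h5 : G j (orb n c x (l j) / σ j) = x := by
      simp only [hG]
      rw [mul_div_cancel₀ _ hs', h2.2]
    rw [h5] at h4
    rw [zero_add, norm_sub_rev]
    exact h4
  have hfull : ∀ᶠ j in (U : Filter ℕ), Full n c (σ j) (l j) 0 r0 δ0 (G j (0 + r0)) := by
    filter_upwards [hdiff] with j hj
    have hsub2 : ball (0 : ℂ) (r0 * (1 + δ0)) ⊆ ball 0 R := ball_subset_ball hR
    exact ⟨G j, hj.1.mono hsub2, fun W hW => hj.2 W (hsub2 hW), rfl⟩
  rcases circle T C hN hr0 hδ0 hδ1 (by positivity) hF (hF.cont C.pos hN hr0 hδ0)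
    (by linarith : 0 < R - r0) hGS with ⟨-, h⟩ | ⟨h, -⟩
  · exact h
  · exact absurd hfull (by
      intro h2
      obtain ⟨j, a1, a2⟩ := (h.and h2).exists
      exact a1 a2)

end Pool.Agent.J4H16.AS
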