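import Mathlib
import Pool.Agent.J4H16.AS.Fi2

/-!
# Assembly, part three
-/

set_option autoImplicit false
open Set Filter Topology Metric Complex MeasureTheory
open scoped ComplexConjugate

namespace Pool.Agent.J4H16.AS

open Pool.Agent.J4H16 Pool.Agent.W746.LD

variable {n : ℕ} {c x : ℂ} {r : ℝ} {ν : ℂ → ℂ} {A : ℝ} {U : Ultrafilter ℕ} {σ : ℕ → ℝ}
variable {C0 c0 : ℝ} {a : ℂ} {ρ δ M : ℝ} {m : ℕ → ℕ} {N : ℂ → ℂ}

theorem exists_of_ae {P : ℝ → Prop} (h : ∀ᵐ t : ℝ, P t) {α β : ℝ} (hab : α < β) :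
    ∃ t, α < t ∧ t < β ∧ P t := by
  by_contra hcon
  push Not at hcon
  have h1 : Ioo α β ⊆ {t | ¬ P t} := fun t ht => hcon t ht.1 ht.2
  have h2 : volume {t | ¬ P t} = 0 := h
  have h3 := measure_mono_null h1 h2
  rw [Real.volume_Ioo, ENNReal.ofReal_eq_zero] at h3
  linarith

/-- A centred circle of index one is impossible. -/
theorem no_ind (T : TL2 C0 c0) (C : Cx n c x r ν A U σ) {Cs s : ℝ} (hs0 : 0 < s)
    (hs1 : s < 1) (hth : Thin (PC n c) Cs s) (L : LS2 n c U σ) (hN : LN n c x U σ N)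
    (hNb : ∀ (Z : ℂ) (d : ℝ), 0 < d → Free n c U σ Z d → ‖N Z‖ ≤ 32 * C0 / d)
    {C1 κ ρ0 : ℝ} (hC1 : 1 ≤ C1) (hκ : 0 < κ) (hρ0 : 0 < ρ0)
    (hE : ∀ ρ : ℝ, 0 < ρ → ρ ≤ ρ0 → ∃ (l : ℕ) (g : ℂ → ℂ), Br n c l (orb n c x l) (κ * ρ) g ∧
      g (orb n c x l) = x ∧ ‖orb n c x l‖ ≤ C1 * ρ ∧ ∀ i < l, ρ ≤ ‖orb n c x i‖)
    {r0 δ0 : ℝ} (hr0 : 0 < r0) (hδ0 : 0 < δ0) (hδ01 : δ0 < 1) (hF0 : FA n c U σ 0 r0 δ0)
    (hidx : (∮ z in C(0, r0), N z) = -(2 * Real.pi * I)) : False := by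
  have hn := C.h.hn
  have hC0 := T.K.one_le
  have hpi := Real.pi_pos
  obtain ⟨ε0, hε0, hε1, hGap⟩ := T.GAPD (PC n c) Cs s hs0 hs1 hth
  set δ : ℝ := ε0 / 8 with hδd
  have hδ : 0 < δ := by positivity
  have hδ1 : δ < 1 := by rw [hδd]; linarith
  obtain ⟨ε', hε', hatt⟩ := T.ATT n c r C.h (12 * C1) (δ / 2) (by positivity) (by positivity)
    (by linarith)
  set Q : ℝ := r0 / ε' + 2 * r0 + 1 with hQ
  have hq : 0 < r0 / ε' := by positivity
  have hQ0 : 0 < Q := by positivity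
  have hQ1 : r0 < ε' * Q := by
    have : ε' * Q = r0 + ε' * (2 * r0 + 1) := by rw [hQ]; field_simp; ring
    rw [this]
    have : 0 < ε' * (2 * r0 + 1) := by positivity
    linarith
  have hQ2 : 2 * r0 ≤ Q := by rw [hQ]; linarith
  obtain ⟨l, Z0, d, M, G, hZ0, hd, hM, hZd, hG, hev⟩ := T.BASE n c x r ν A U σ C C1 κ ρ0 Q
    (by linarith) hκ hρ0 hQ0 hE L.emp
  have hCQ : Q ≤ C1 * Q := by nlinarith
  obtain ⟨Rc, hRc1, hRc2, hF⟩ := exists_Rc C hε0 hε1 hGap (t := C1 * Q) (by positivity)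
  have hRc : 0 < Rc := by nlinarith
  set R : ℝ := Rc * (1 + δ) with hR
  have hRR : Rc < R := by rw [hR]; nlinarith
  have hR0 : 0 < R := hRc.trans hRR
  have hall : AG n c x U σ l := by
    apply all_good T.K T.LIFT T.UNIQ C _ hZ0 hd hM hG
    rw [compl_eq_univ_sdiff]
    exact L.pr univ isOpen_univ convex_univ
  -- the discs do not lift
  have hno : ∀ᶠ j in (U : Filter ℕ), ¬ ∃ g, Br n c (l j) 0 (σ j * R) g ∧
      g (orb n c x (l j)) = x := by
    rw [Ultrafilter.eventually_not]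
    intro hcon
    have h1 := no_full T.toTL C hN hr0 hδ0 hδ01 hF0 (R := R) (B := C1 * Q) (by nlinarith)
      (by nlinarith) (l := l) (hev.mono fun j hj => hj.1.trans (le_of_eq (by ring))) hcon
    rw [h1] at hidx
    have : (2 * Real.pi * I : ℂ) = 0 := by rw [← neg_eq_zero, ← hidx]
    have h2 : (2 * Real.pi * I : ℂ) ≠ 0 := Complex.two_pi_I_ne_zero
    exact h2 this
  have hzl : ∀ᶠ j in (U : Filter ℕ), orb n c x (l j) ∈ ball (0 : ℂ) (σ j * R) := by
    filter_upwards [hev] with j hj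
    have hs := C.pos j
    rw [mem_ball, dist_zero_right]
    refine lt_of_le_of_lt hj.1 ?_
    have : C1 * (Q * σ j) = σ j * (C1 * Q) := by ring
    rw [this]
    apply mul_lt_mul_of_pos_left _ hs
    nlinarith
  have key : ∀ᶠ j in (U : Filter ℕ), ∃ p : ℕ × (ℂ → ℂ) × ℂ, p.1 < l j ∧
      Br n c p.1 0 (σ j * R) p.2.1 ∧
      p.2.1 (orb n c x (l j)) = orb n c x (l j - p.1) ∧ p.2.2 ∈ ball (0 : ℂ) (σ j * R) ∧
      p.2.1 p.2.2 = c ∧ orb n c 0 (p.1 + 1) = p.2.2 := by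
    filter_upwards [hno, hzl] with j h1 h2
    obtain ⟨i, g, v, q1, q2, q3, q4, q5, q6⟩ := passage hn h2 h1
    exact ⟨⟨i, g, v⟩, q1, q2, q3, q4, q5, q6⟩
  obtain ⟨p, hp⟩ := key.choice
  set i : ℕ → ℕ := fun j => (p j).1 with hi
  set hh : ℕ → ℂ → ℂ := fun j => (p j).2.1 with hhh
  set v : ℕ → ℂ := fun j => (p j).2.2 with hv
  have hp' : ∀ᶠ j in (U : Filter ℕ), i j < l j ∧ Br n c (i j) 0 (σ j * R) (hh j) ∧
      hh j (orb n c x (l j)) = orb n c x (l j - i j) ∧ v j ∈ ball (0 : ℂ) (σ j * R) ∧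
      hh j (v j) = c ∧ orb n c 0 (i j + 1) = v j := hp
  have hvPC : ∀ᶠ j in (U : Filter ℕ), v j ∈ PC n c := by
    filter_upwards [hp'] with j hj
    rw [← hj.2.2.2.2.2]
    exact orb_mem_PC (by omega)
  have hvb : ∀ᶠ j in (U : Filter ℕ), ‖v j‖ ≤ σ j * Rc * (1 - δ) := by
    filter_upwards [hp', hF, hvPC] with j h1 h2 h3
    have h4 := h2 _ h3
    rw [mul_zero, sub_zero] at h4
    by_contra hcon
    push Not at hcon
    apply h4
    refine ⟨hcon, ?_⟩
    have h5 := h1.2.2.2.1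
    rw [mem_ball, dist_zero_right] at h5
    refine lt_of_lt_of_le h5 (le_of_eq ?_)
    rw [hR]
    ring
  obtain ⟨V, hV1, hV⟩ := ulim (U := U) (f := fun j => v j / σ j) (B := Rc * (1 - δ)) (by
    filter_upwards [hvb] with j hj
    have hs := C.pos j
    rw [norm_div, Complex.norm_real, Real.norm_of_nonneg hs.le, div_le_iff₀ hs]
    refine hj.trans (le_of_eq (by ring)))
  have hVe : ∀ e : ℝ, 0 < e → ∀ᶠ j in (U : Filter ℕ), ‖v j - σ j * V‖ < σ j * e := by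
    intro e he
    filter_upwards [hV.eventually (Metric.ball_mem_nhds V he)] with j hj
    have hs := C.pos j
    have hs' : (σ j : ℂ) ≠ 0 := by exact_mod_cast hs.ne'
    rw [dist_eq_norm] at hj
    have : v j - σ j * V = σ j * (v j / σ j - V) := by field_simp
    rw [this, norm_mul, Complex.norm_real, Real.norm_of_nonneg hs.le]
    gcongr
  have hVL : V ∈ Lim U σ (PC n c) := by
    intro e he
    filter_upwards [hVe e he, hvPC] with j h1 h2
    exact ⟨v j, h2, h1⟩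
  have hVr : ‖V‖ ≤ r0 := by
    by_contra hcon
    push Not at hcon
    have hV2 : r0 * (1 + δ0) ≤ ‖V‖ := by
      by_contra hcon2
      push Not at hcon2
      exact hF0.not_mem C.pos (by rw [sub_zero]; nlinarith) (by rw [sub_zero]; exact hcon2) hVL
    obtain ⟨rv, hrv, hrv2, hrv3⟩ := exists_of_ae (T.AEC n c U σ C.pos L.cl L.lip V)
      (α := 0) (β := min (Rc * δ) (r0 * δ0)) (lt_min (by positivity) (by positivity))
    obtain ⟨δv, hδv, hδv1, hFv, -⟩ := hrv3 hrv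
    have b1 : rv < Rc * δ := hrv2.trans_le (min_le_left _ _)
    have b2 : rv < r0 * δ0 := hrv2.trans_le (min_le_right _ _)
    have b3 : ‖V‖ + rv < Rc := by nlinarith
    have hnrv : ‖(rv : ℂ)‖ = rv := by rw [Complex.norm_real, Real.norm_of_nonneg hrv.le]
    have hZ1 : V + rv ∈ ball (0 : ℂ) R := by
      rw [mem_ball, dist_zero_right]
      have := norm_add_le V (rv : ℂ)
      rw [hnrv] at this
      linarith
    have hZ1L : V + rv ∉ Lim U σ (PC n c) :=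
      hFv.not_mem C.pos (by rw [norm_add_real V hrv]; nlinarith)
        (by rw [norm_add_real V hrv]; nlinarith)
    have hZ0R : Z0 ∈ ball (0 : ℂ) R := by
      rw [mem_ball, dist_zero_right]
      nlinarith
    have htr0 : ∀ᶠ j in (U : Filter ℕ), orb n c (G j Z0) (l j - i j) = hh j (σ j * Z0) := by
      filter_upwards [hG, hev, hp'] with j g1 g2 g3
      have hs := C.pos j
      have hs' : (σ j : ℂ) ≠ 0 := by exact_mod_cast hs.ne'
      have t1 := (g1.br hs).shift (i := l j - i j) (Nat.sub_le _ _)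
      rw [Nat.sub_sub_self g3.1.le] at t1
      have hsub : ball ((σ j : ℂ) * Z0) (σ j * d) ⊆ ball 0 (σ j * R) := by
        apply ball_subset_ball'
        rw [dist_zero_right, norm_mul, Complex.norm_real, Real.norm_of_nonneg hs.le]
        have : d + ‖Z0‖ ≤ R := by nlinarith
        calc σ j * d + σ j * ‖Z0‖ = σ j * (d + ‖Z0‖) := by ring
          _ ≤ σ j * R := by gcongr
      have t2 := g3.2.1.mono hsub
      have hw0 : orb n c x (l j) ∈ ball ((σ j : ℂ) * Z0) (σ j * d) := by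
        have := g2.2.2.1
        rw [mem_ball, dist_eq_norm] at this ⊢
        have e : orb n c x (l j) - σ j * Z0 = σ j * (orb n c x (l j) / σ j - Z0) := by
          field_simp
        rw [e, norm_mul, Complex.norm_real, Real.norm_of_nonneg hs.le]
        gcongr
      have t3 := t1.unique hn t2 hw0 (by rw [g2.2.2.2, g3.2.2.1]) (σ j * Z0)
        (mem_ball_self (by positivity))
      rw [mul_div_cancel_left₀ _ hs'] at t3
      exact t3
    obtain ⟨d2, M2, G2, hd2, hM2, hG2, htr⟩ := T.TRK n c x r ν A U σ C R l i hh hR0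
      (L.pr _ isOpen_ball (convex_ball _ _)) (hp'.mono fun j hj => ⟨hj.1, hj.2.1⟩) Z0 d M G hZ0R
      hZ0 hd hM hG htr0 (V + rv) hZ1 hZ1L
    have hnf : ∀ᶠ j in (U : Filter ℕ), ¬ Full n c (σ j) (l j) V rv δv (G2 j (V + rv)) := by
      filter_upwards [hp', htr, hVe (rv * (1 + δv)) (by positivity)] with j h1 h2 h3
      exact T.NF n c (σ j) R (l j) (i j) (hh j) V rv δv (G2 j (V + rv)) (v j) hn (C.pos j) hrv hδv
        h1.1 h1.2.1 (by rw [hR]; nlinarith) h2 h1.2.2.2.2.1 h3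
    have hcirc : ∃ i2 : ℝ, 0 < i2 ∧ (∮ z in C(V, rv), N z) = -(2 * Real.pi * I * i2) := by
      rcases circle T.toTL C hN hrv hδv hδv1 hM2 hFv (hFv.cont C.pos hN hrv hδv) hd2 hG2 with
        ⟨h, -⟩ | ⟨-, h⟩
      · exact absurd h (by
          intro h2
          obtain ⟨j, a1, a2⟩ := (hnf.and h2).exists
          exact a1 a2)
      · rcases h with h | ⟨-, -, h⟩
        · exact ⟨1, one_pos, by rw [h]; simp⟩
        · exact ⟨1 / 2, by norm_num, by rw [h]; push_cast; ring⟩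
    obtain ⟨i2, hi2, he2⟩ := hcirc
    have := index_sum T C L hN hNb hall ⟨V, hVL⟩ hr0 hrv hRc hδ hδ1 hδ0 hδv hF hF0 hFv b3
      (by nlinarith) (i1 := 1) (i2 := i2) (by rw [hidx]; simp) he2
    linarith
  -- the critical value is too close to the critical point
  obtain ⟨j, h1, h2, h3, h4⟩ := (hp'.and (hev.and (hvb.and (hVe (ε' * Q - r0)
    (by linarith))))).exists
  have hs := C.pos j
  have hlt : ‖v j‖ < ε' * (Q * σ j) := by
    have e : v j = (v j - σ j * V) + σ j * V := by ring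
    have e2 : ‖v j‖ ≤ ‖v j - σ j * V‖ + σ j * ‖V‖ := by
      have := norm_add_le (v j - σ j * V) (σ j * V)
      rw [← e, norm_mul, Complex.norm_real, Real.norm_of_nonneg hs.le] at this
      exact this
    have e3 : σ j * ‖V‖ ≤ σ j * r0 := by gcongr
    nlinarith
  have hge := hatt (Q * σ j) (σ j * R) (i j) (orb n c x (l j)) (v j) (hh j) (by positivity)
    (by
      have : Q ≤ R := by nlinarith
      calc Q * σ j = σ j * Q := by ring
        _ ≤ σ j * R := by gcongr)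
    (by
      have : R ≤ 12 * C1 * Q := by
        rw [hR, hδd]
        nlinarith
      calc σ j * R ≤ σ j * (12 * C1 * Q) := by gcongr
        _ = 12 * C1 * (Q * σ j) := by ring) h1.2.1
    (by
      refine h2.1.trans ?_
      have : C1 * Q ≤ (1 - δ / 2) * R := by
        have h5 : C1 * Q ≤ Rc / 2 := by linarith
        have h6 : Rc / 2 ≤ R / 2 := by linarith
        nlinarith
      calc C1 * (Q * σ j) = σ j * (C1 * Q) := by ring
        _ ≤ σ j * ((1 - δ / 2) * R) := by gcongr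
        _ = _ := by ring)
    (by
      refine h3.trans ?_
      have : Rc * (1 - δ) ≤ (1 - δ / 2) * R := by
        rw [hR]
        have : (1 - δ) ≤ (1 - δ / 2) * (1 + δ) := by nlinarith
        calc Rc * (1 - δ) ≤ Rc * ((1 - δ / 2) * (1 + δ)) := by gcongr
          _ = _ := by ring
      calc σ j * Rc * (1 - δ) = σ j * (Rc * (1 - δ)) := by ring
        _ ≤ σ j * ((1 - δ / 2) * R) := by gcongr
        _ = _ := by ring) h1.2.2.2.2.1
    (by
      rw [h1.2.2.1]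
      obtain ⟨k, hk⟩ : ∃ k, l j - i j = k + 1 := ⟨l j - i j - 1, by have := h1.1; omega⟩
      rw [hk, norm_orb_succ_sub]
      have := h2.2.1 k (by omega)
      gcongr)
  linarith

/-- Density of hyperbolicity at parameters with thin postcritical sets. -/
theorem as_main (T : TL2 C0 c0) (hn : 2 ≤ n) (hc : c ∈ N62a1eb23.multibrotSet n) {Cs s : ℝ}
    (hs0 : 0 < s) (hs1 : s < 1) (hth : Thin (PC n c) Cs s) :
    c ∈ closure {c' : ℂ | ∃ m z, N62a1eb23.IsAttractingCycle (fun z => z ^ n + c') m z} := by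
  by_contra hcl
  obtain ⟨r, h⟩ := exists_Q hn hc hcl
  have hdense := h.dense
  obtain ⟨ν, A, hI⟩ := h.exists_inv hdense
  obtain ⟨x, hx⟩ := hI.exists_good hn
  obtain ⟨θ, hθ, hNC⟩ := T.NCZ n c r ν A x Cs s h hdense hI hx hs0 hs1 hth
  obtain ⟨C1', κ, ρ0, hC1', hκ, hρ0, hE'⟩ := T.ENTRY n c r ν A x Cs s h hdense hI hx hs0 hs1 hth
  set C1 : ℝ := max C1' 1 with hC1d
  have hC1 : 1 ≤ C1 := le_max_right _ _
  have hE : ∀ ρ : ℝ, 0 < ρ → ρ ≤ ρ0 → ∃ (l : ℕ) (g : ℂ → ℂ), Br n c l (orb n c x l) (κ * ρ) g ∧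
      g (orb n c x l) = x ∧ ‖orb n c x l‖ ≤ C1 * ρ ∧ ∀ i < l, ρ ≤ ‖orb n c x i‖ := by
    intro ρ h1 h2
    obtain ⟨l, g, q1, q2, q3, q4⟩ := hE' ρ h1 h2
    exact ⟨l, g, q1, q2, q3.trans (by gcongr; exact le_max_left _ _), q4⟩
  choose σ hσ using fun j : ℕ => hNC (1 / ((j : ℝ) + 1)) (by positivity)
  obtain ⟨U, hU⟩ : ∃ U : Ultrafilter ℕ, (U : Filter ℕ) ≤ atTop := ⟨hyperfilter ℕ, by
    rw [← Nat.cofinite_eq_atTop]
    exact Filter.hyperfilter_le_cofinite⟩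
  have hlim : Tendsto σ atTop (𝓝 0) := by
    apply squeeze_zero (fun j => (hσ j).1.le) (fun j => (hσ j).2.1)
    exact tendsto_one_div_add_atTop_nhds_zero_nat
  have C : Cx n c x r ν A U σ := ⟨h, hdense, hI, hx, fun j => (hσ j).1, hlim.mono_left hU⟩
  have L := exists_LS2 T C hs0 hs1 hth
  obtain ⟨l, Z0, d, M, G, hZ0, hd, hM, -, hG, -⟩ := T.BASE n c x r ν A U σ C C1 κ ρ0 1
    (by linarith) hκ hρ0 one_pos hE L.emp
  have hconn : IsPreconnected (Lim U σ (PC n c))ᶜ := by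
    rw [compl_eq_univ_sdiff]
    exact L.pr univ isOpen_univ convex_univ
  have hall : AG n c x U σ l := all_good T.K T.LIFT T.UNIQ C hconn hZ0 hd hM hG
  obtain ⟨N, hN, hNb⟩ := exists_LN T.K T.LIFT T.UNIQ T.SM T.MONT C hconn hZ0 hd hM hG
  obtain ⟨R0, hR0, hfnc⟩ := T.FNC n c r ν A x h hdense hI hx θ hθ
  obtain ⟨r0, hr01, hr02, hr03⟩ := exists_of_ae (T.AEC n c U σ C.pos L.cl L.lip 0)
    (α := R0) (β := R0 + 1) (by linarith)
  have hr0 : 0 < r0 := hR0.trans hr01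
  obtain ⟨δ0, hδ0, hδ01, hF0, -⟩ := hr03 hr0
  have hZ : (0 : ℂ) + r0 ∉ Lim U σ (PC n c) :=
    hF0.not_mem C.pos (by rw [norm_add_real 0 hr0]; nlinarith)
      (by rw [norm_add_real 0 hr0]; nlinarith)
  obtain ⟨d', M', G', hd', hM', hG'⟩ := hall _ hZ
  rcases circle T.toTL C hN hr0 hδ0 hδ01 hM' hF0 (hF0.cont C.pos hN hr0 hδ0) hd' hG' with
    ⟨hfull, -⟩ | ⟨-, h1⟩
  · obtain ⟨s0, hs0', hfn⟩ := hfnc r0 δ0 d' M' hr01.le hδ0 hδ01 hd' hM'
    obtain ⟨j, j1, j2, j3⟩ := (hfull.and (hG'.and (C.ev hs0'))).exists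
    rw [zero_add] at j1 j2
    exact (hσ j).2.2 (hfn (σ j) (l j) (G' j) (C.pos j) j3 j2 j1)
  · rcases h1 with h1 | ⟨-, h1, -⟩
    · exact no_ind T C hs0 hs1 hth L hN hNb hC1 hκ hρ0 hE hr0 hδ0 hδ01 hF0 h1
    · exact h1 rfl

end Pool.Agent.J4H16.AS
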