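import Mathlib
import Pool.Agent.J4H16.AS.Fi3
import Pool.Agent.J4H57.AS.All
import Pool.Agent.J4H73.AS.Lift
import Pool.Agent.J4H73.AS.Mont
import Pool.Agent.J4H73.AS.Rot
import Pool.Agent.J4H79.AS.Pot
import Pool.Agent.J4H79.AS.Base
import Pool.Agent.J4H79.AS.Sm
import Pool.Agent.J4H79.AS.Rot2
import Pool.Agent.J4H8.AS.Entry
import Pool.Agent.J4H56.AS.Ncz
import Pool.Agent.J4H56.AS.Att
import Pool.Agent.J4H71.AS.Trk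
import Pool.Agent.J4H71.AS.Fr

/-!
# All tools
-/

set_option autoImplicit false

namespace Pool.Agent.J4H16.AS

theorem exists_TL2 : ∃ C0 c0 : ℝ, TL2 C0 c0 := by
  obtain ⟨C0, c0, K⟩ := Pool.Agent.W746.LD.exists_KC
  refine ⟨C0, c0, ⟨⟨K, ?_, ?_, ?_, ?_, ?_, Pool.Agent.J4H79.AS.t_ROT2, ?_, ?_⟩, ?_, ?_, ?_, ?_, ?_, ?_, ?_, ?_, ?_, ?_, ?_,
    ?_, ?_, ?_, ?_⟩⟩
  · exact Pool.Agent.J4H73.AS.t_LIFT
  · exact Pool.Agent.J4H73.AS.t_UNIQ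
  · exact Pool.Agent.J4H73.AS.t_MONT
  · exact Pool.Agent.J4H79.AS.t_SM
  · exact Pool.Agent.J4H73.AS.t_ROT
  · exact Pool.Agent.J4H79.AS.t_SYM'
  · exact Pool.Agent.J4H57.AS.t_HOPF
  · exact Pool.Agent.J4H57.AS.t_GAPD
  · exact Pool.Agent.J4H57.AS.t_PACK
  · exact Pool.Agent.J4H57.AS.t_NULL
  · exact Pool.Agent.J4H57.AS.t_INT
  · exact Pool.Agent.J4H57.AS.t_CONN
  · exact Pool.Agent.J4H79.AS.t_POT
  · exact Pool.Agent.J4H8.AS.t_ENTRY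
  · exact Pool.Agent.J4H56.AS.t_NCZ
  · exact Pool.Agent.J4H56.AS.t_ATT
  · exact Pool.Agent.J4H71.AS.t_TRK
  · exact Pool.Agent.J4H71.AS.t_NF
  · exact Pool.Agent.J4H71.AS.t_AEC
  · exact Pool.Agent.J4H71.AS.t_INTN
  · exact Pool.Agent.J4H79.AS.t_BASE2
  · exact Pool.Agent.J4H79.AS.t_FNC'

end Pool.Agent.J4H16.AS
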